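import Mathlib
import Pool.Agent.Helper852.OF.Main

set_option autoImplicit false

open Finset

namespace H152TT

theorem anti_le {E : Type} (U : ℕ → Finset E) (hmono : ∀ d, U (d+1) ⊆ U d) :
    ∀ a b : ℕ, a ≤ b → U b ⊆ U a := by
  intro a b hab
  induction hab with
  | refl => exact Finset.Subset.refl _
  | step _ ih => exact (hmono _).trans ih

theorem embedM_aux {kk T : ℕ} (H : SimpleGraph (Fin kk)) (ord : Equiv.Perm (Fin kk))
    (hch : ∀ u v w, H.Adj u w → H.Adj v w → ord u < ord w → ord v < ord w → u ≠ v → H.Adj u v)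
    (τ : Fin kk → Fin T) (hτ : ∀ u v, H.Adj u v → τ u ≠ τ v)
    {E ρ β : Type} (pos : Fin T → E → ρ) (blk : E → β) (lb : Fin T → E → ℕ)
    (S : Fin T → Finset ℕ) (U : ℕ → Finset E) (hmono : ∀ d, U (d+1) ⊆ U d)
    (hmove : ∀ d, ∀ e ∈ U (d+1), ∀ i, ∀ x ∈ S i, ∃ e' ∈ U d,
      (∀ j, j ≠ i → pos j e' = pos j e) ∧ blk e' = blk e ∧ lb i e' = x)
    (e0 : E) (he0 : e0 ∈ U kk) (lab : Fin kk → ℕ) (hlab : ∀ v, lab v ∈ S (τ v)) :
    ∀ t : ℕ, t ≤ kk → ∃ φ : Fin kk → E, ∀ v, (ord v).val < t →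
      (φ v ∈ U (kk - t) ∧ blk (φ v) = blk e0 ∧ lb (τ v) (φ v) = lab v ∧
        ∀ w, H.Adj v w → ord w < ord v → pos (τ w) (φ v) = pos (τ w) (φ w)) := by
  classical
  intro t
  induction t with
  | zero =>
    intro _
    exact ⟨fun _ => e0, fun v hv => absurd hv (Nat.not_lt_zero _)⟩
  | succ t ih =>
    intro ht
    obtain ⟨φ, hφ⟩ := ih (by omega)
    have hkt : kk - t = (kk - (t+1)) + 1 := by omega
    obtain ⟨v0, hv0⟩ : ∃ v0 : Fin kk, (ord v0).val = t := ⟨ord.symm ⟨t, by omega⟩, by simp⟩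
    -- the source configuration
    have hsrc : ∃ e1 ∈ U ((kk - (t+1)) + 1), blk e1 = blk e0 ∧
        ∀ w, H.Adj v0 w → (ord w).val < t → pos (τ w) e1 = pos (τ w) (φ w) := by
      by_cases hN : ∃ w, H.Adj v0 w ∧ (ord w).val < t
      · have hne : ((univ : Finset (Fin kk)).filter
            (fun w => H.Adj v0 w ∧ (ord w).val < t)).Nonempty := by
          obtain ⟨w, hw⟩ := hN
          exact ⟨w, Finset.mem_filter.2 ⟨Finset.mem_univ _, hw⟩⟩
        obtain ⟨u, hu, hmax⟩ := Finset.exists_max_image _ (fun w => ord w) hne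
        have hu' := (Finset.mem_filter.1 hu).2
        obtain ⟨a1, a2, a3, a4⟩ := hφ u hu'.2
        refine ⟨φ u, by rw [← hkt]; exact a1, a2, ?_⟩
        intro w hw hwt
        by_cases hwu : w = u
        · rw [hwu]
        · have h1 : ord w ≤ ord u := hmax w (Finset.mem_filter.2 ⟨Finset.mem_univ _, hw, hwt⟩)
          have h2 : ord w < ord u := lt_of_le_of_ne h1 (fun h => hwu (ord.injective h))
          have h3 : H.Adj u w := hch u w v0 hu'.1.symm hw.symm
            (by rw [Fin.lt_def, hv0]; exact hu'.2) (by rw [Fin.lt_def, hv0]; exact hwt)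
            (fun h => hwu h.symm)
          exact a4 w h3 h2
      · refine ⟨e0, anti_le U hmono _ _ (by omega) he0, rfl, ?_⟩
        intro w hw hwt
        exact absurd ⟨w, hw, hwt⟩ hN
    obtain ⟨e1, he1, hb1, hp1⟩ := hsrc
    obtain ⟨e', he', hp', hb', hl'⟩ := hmove _ e1 he1 (τ v0) (lab v0) (hlab v0)
    refine ⟨Function.update φ v0 e', ?_⟩
    intro v hv
    by_cases hvv : v = v0
    · subst hvv
      rw [Function.update_self]
      refine ⟨he', hb'.trans hb1, hl', ?_⟩
      intro w hw hwv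
      have hwv' : w ≠ v := fun h => by
        subst h; exact lt_irrefl _ hwv
      rw [Function.update_of_ne hwv', hp' (τ w) (fun h => hτ v w hw h.symm)]
      exact hp1 w hw (by rw [← hv0]; exact hwv)
    · have hvt : (ord v).val < t := by
        have h1 : (ord v).val ≠ t := fun h => hvv (ord.injective (Fin.ext (h.trans hv0.symm)))
        omega
      obtain ⟨a1, a2, a3, a4⟩ := hφ v hvt
      rw [Function.update_of_ne hvv]
      refine ⟨anti_le U hmono _ _ (by omega) a1, a2, a3, ?_⟩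
      intro w hw hwv
      have hwv' : w ≠ v0 := fun h => by
        subst h
        have : (ord w).val < (ord v).val := hwv
        omega
      rw [Function.update_of_ne hwv']
      exact a4 w hw hwv

theorem embedM {kk T : ℕ} (H : SimpleGraph (Fin kk)) (ord : Equiv.Perm (Fin kk))
    (hch : ∀ u v w, H.Adj u w → H.Adj v w → ord u < ord w → ord v < ord w → u ≠ v → H.Adj u v)
    (τ : Fin kk → Fin T) (hτ : ∀ u v, H.Adj u v → τ u ≠ τ v)
    {E ρ β : Type} (pos : Fin T → E → ρ) (blk : E → β) (lb : Fin T → E → ℕ)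
    (S : Fin T → Finset ℕ) (U : ℕ → Finset E) (hmono : ∀ d, U (d+1) ⊆ U d)
    (hmove : ∀ d, ∀ e ∈ U (d+1), ∀ i, ∀ x ∈ S i, ∃ e' ∈ U d,
      (∀ j, j ≠ i → pos j e' = pos j e) ∧ blk e' = blk e ∧ lb i e' = x)
    (e0 : E) (he0 : e0 ∈ U kk) (lab : Fin kk → ℕ) (hlab : ∀ v, lab v ∈ S (τ v)) :
    ∃ φ : Fin kk → E, (∀ v, blk (φ v) = blk e0) ∧ (∀ v, lb (τ v) (φ v) = lab v) ∧
      ∀ v w, H.Adj v w → ord w < ord v → pos (τ w) (φ v) = pos (τ w) (φ w) := by
  obtain ⟨φ, hφ⟩ := embedM_aux H ord hch τ hτ pos blk lb S U hmono hmove e0 he0 lab hlab kk le_rfl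
  exact ⟨φ, fun v => (hφ v (ord v).isLt).2.1, fun v => (hφ v (ord v).isLt).2.2.1,
    fun v => (hφ v (ord v).isLt).2.2.2⟩

/-- increasing tuples, the first `a` entries completely joined to the others -/
abbrev Cfg {n : ℕ} (G : SimpleGraph (Fin n)) (T a : ℕ) : Type :=
  {e : Fin T → Fin n // StrictMono e ∧ ∀ i j : Fin T, i.val < a → a ≤ j.val → G.Adj (e i) (e j)}

noncomputable instance instFintypeCfg {n : ℕ} (G : SimpleGraph (Fin n)) (T a : ℕ) :
    Fintype (Cfg G T a) := Fintype.ofFinite _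

/-- keys -/
def Kt {n : ℕ} (G : SimpleGraph (Fin n)) (T a b m : ℕ) (i : Fin T) (k : ℕ) (e : Cfg G T a) :
    Fin T → ℕ :=
  Function.update (fun j => (e.1 j).val) i ((e.1 i).val / b ^ (m - k))

/-- labels -/
def Lt {n : ℕ} (G : SimpleGraph (Fin n)) (T a b m : ℕ) (i : Fin T) (k : ℕ) (e : Cfg G T a) : ℕ :=
  (e.1 i).val / b ^ (m - k - 1) % b

theorem Kt_eq_iff {n : ℕ} (G : SimpleGraph (Fin n)) (T a b m : ℕ) (i : Fin T) (k : ℕ)
    (e e' : Cfg G T a) : Kt G T a b m i k e = Kt G T a b m i k e' ↔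
      (e.1 i).val / b ^ (m - k) = (e'.1 i).val / b ^ (m - k) ∧ ∀ j, j ≠ i → e.1 j = e'.1 j := by
  unfold Kt
  constructor
  · intro h
    refine ⟨?_, ?_⟩
    · have := congrFun h i
      rwa [Function.update_self, Function.update_self] at this
    · intro j hj
      have := congrFun h j
      rw [Function.update_of_ne hj, Function.update_of_ne hj] at this
      exact Fin.ext this
  · rintro ⟨h1, h2⟩
    funext j
    by_cases hj : j = i
    · subst hj
      rw [Function.update_self, Function.update_self, h1]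
    · rw [Function.update_of_ne hj, Function.update_of_ne hj, h2 j hj]

theorem Kt_iff {n : ℕ} (G : SimpleGraph (Fin n)) (T a b m : ℕ) (i : Fin T) (k : ℕ)
    (e e' : Cfg G T a) : Kt G T a b m i (k+1) e = Kt G T a b m i (k+1) e' ↔
      (Kt G T a b m i k e = Kt G T a b m i k e' ∧ Lt G T a b m i k e = Lt G T a b m i k e') := by
  rw [Kt_eq_iff, Kt_eq_iff, H852OF.level_iff]
  unfold Lt
  tauto

theorem Kt_inj {n : ℕ} (G : SimpleGraph (Fin n)) (T a b m : ℕ) (i : Fin T) :
    Function.Injective (Kt G T a b m i m) := by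
  intro e e' h
  rw [Kt_eq_iff, Nat.sub_self, pow_zero, Nat.div_one, Nat.div_one] at h
  apply Subtype.ext
  funext j
  by_cases hj : j = i
  · subst hj; exact Fin.ext h.1
  · exact h.2 j hj

theorem finishM {n kk T a b m : ℕ} (G : SimpleGraph (Fin n))
    (P H : SimpleGraph (Fin kk)) (hPH : P ≤ H) (ord : Equiv.Perm (Fin kk))
    (hch : ∀ u v w, H.Adj u w → H.Adj v w → ord u < ord w → ord v < ord w → u ≠ v → H.Adj u v)
    (τ : Fin kk → Fin T) (hτ : ∀ u v, H.Adj u v → τ u ≠ τ v) (hτm : Monotone τ)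
    (hside : ∀ u v, P.Adj u v → ((τ u).val < a ↔ a ≤ (τ v).val))
    (k : Fin T → Fin m) (hk : Function.Injective k) (S : Fin T → Finset ℕ)
    (hs : ∀ i, kk + T ≤ (S i).card)
    (U : ℕ → Finset (Cfg G T a)) (hU : (U kk).Nonempty) (hmono : ∀ d, U (d+1) ⊆ U d)
    (hmove : ∀ d, ∀ e ∈ U (d+1), ∀ i, ∀ x ∈ S i, ∃ e' ∈ U d,
      Kt G T a b m i (k i) e' = Kt G T a b m i (k i) e ∧ Lt G T a b m i (k i) e' = x) :
    ∃ f : Fin kk → Fin n, StrictMono f ∧ ∀ i j : Fin kk, P.Adj i j → G.Adj (f i) (f j) := by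
  classical
  obtain ⟨e0, he0⟩ := hU
  obtain ⟨bad, hbad⟩ : ∃ bad : Fin T → Finset ℕ, ∀ i, bad i =
    (univ : Finset (Fin T)).image (fun j => (e0.1 j).val / b ^ (m - k i - 1) % b) :=
    ⟨_, fun _ => rfl⟩
  have hbadc : ∀ i, (bad i).card ≤ T := by
    intro i
    rw [hbad]
    exact Finset.card_image_le.trans (by rw [Finset.card_univ, Fintype.card_fin])
  have hcard : ∀ i, kk ≤ (S i \ bad i).card := by
    intro i
    have h1 := Finset.le_card_sdiff (bad i) (S i)
    have h2 := hbadc i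
    have h3 := hs i
    omega
  obtain ⟨lab, hlabdef⟩ : ∃ lab : Fin kk → ℕ, ∀ v, lab v =
      (S (τ v) \ bad (τ v)).orderEmbOfFin rfl ⟨v.val, lt_of_lt_of_le v.isLt (hcard (τ v))⟩ :=
    ⟨_, fun _ => rfl⟩
  have hlab0 : ∀ v, lab v ∈ S (τ v) \ bad (τ v) := by
    intro v
    rw [hlabdef]
    exact Finset.orderEmbOfFin_mem _ _ _
  have hlabS : ∀ v, lab v ∈ S (τ v) := fun v => (Finset.mem_sdiff.1 (hlab0 v)).1
  have hlabB : ∀ v j, lab v ≠ (e0.1 j).val / b ^ (m - k (τ v) - 1) % b := by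
    intro v j h
    apply (Finset.mem_sdiff.1 (hlab0 v)).2
    rw [hbad, Finset.mem_image]
    exact ⟨j, Finset.mem_univ _, h.symm⟩
  have hlabm : ∀ v w : Fin kk, v < w → τ v = τ w → lab v < lab w := by
    intro v w hvw h
    have key : ∀ (i : Fin T) (h1 : v.val < (S i \ bad i).card) (h2 : w.val < (S i \ bad i).card),
        (S i \ bad i).orderEmbOfFin rfl ⟨v.val, h1⟩ < (S i \ bad i).orderEmbOfFin rfl ⟨w.val, h2⟩ := by
      intro i h1 h2
      exact (Finset.orderEmbOfFin _ _).strictMono hvw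
    have h1 : lab v = (S (τ w) \ bad (τ w)).orderEmbOfFin rfl
        ⟨v.val, lt_of_lt_of_le v.isLt (hcard (τ w))⟩ := by
      rw [hlabdef]
      congr 1 <;> rw [h]
    rw [h1, hlabdef w]
    exact key _ _ _
  obtain ⟨φ, hblk, hlb, hpos⟩ := embedM H ord hch τ hτ (fun i (e : Cfg G T a) => e.1 i)
    (fun e : Cfg G T a => fun i => (e.1 i).val / b ^ (m - k i))
    (fun i e => Lt G T a b m i (k i) e) S U hmono
    (by
      intro d e he i x hx
      obtain ⟨e', he', hk1, hk2⟩ := hmove d e he i x hx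
      rw [Kt_eq_iff] at hk1
      refine ⟨e', he', hk1.2, ?_, hk2⟩
      funext j
      by_cases hj : j = i
      · subst hj; exact hk1.1
      · rw [hk1.2 j hj])
    e0 he0 lab hlabS
  have hpre : ∀ v i, ((φ v).1 i).val / b ^ (m - k i) = (e0.1 i).val / b ^ (m - k i) :=
    fun v i => congrFun (hblk v) i
  have hdig : ∀ v, ((φ v).1 (τ v)).val / b ^ (m - k (τ v) - 1) % b = lab v := fun v => hlb v
  refine ⟨fun v => (φ v).1 (τ v), ?_, ?_⟩
  · intro v w hvw
    simp only
    rw [Fin.lt_def]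
    rcases lt_or_eq_of_le (hτm hvw.le) with hlt | heq
    · have hkne : (k (τ v)).val ≠ (k (τ w)).val := fun h => hlt.ne (hk (Fin.ext h))
      have hki := (k (τ v)).isLt
      have hkj := (k (τ w)).isLt
      rcases lt_or_gt_of_ne hkne with hlt' | hlt'
      · -- the level of `τ v` is coarser
        have a0 : ((φ v).1 (τ v)).val < ((φ v).1 (τ w)).val := (φ v).2.1 hlt
        have a1 : ((φ v).1 (τ w)).val / b ^ (m - k (τ v) - 1) =
            (e0.1 (τ w)).val / b ^ (m - k (τ v) - 1) :=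
          H852OF.div_eq_of_div_eq b (m - k (τ w)) _ _ _ (by omega) (hpre v (τ w))
        have a2 : ((φ w).1 (τ w)).val / b ^ (m - k (τ v) - 1) =
            (e0.1 (τ w)).val / b ^ (m - k (τ v) - 1) :=
          H852OF.div_eq_of_div_eq b (m - k (τ w)) _ _ _ (by omega) (hpre w (τ w))
        have a3 : ((φ v).1 (τ v)).val / b ^ (m - k (τ v) - 1) ≤
            ((φ v).1 (τ w)).val / b ^ (m - k (τ v) - 1) := Nat.div_le_div_right a0.le
        have a4 : ((φ v).1 (τ v)).val / b ^ (m - k (τ v) - 1) ≠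
            ((φ v).1 (τ w)).val / b ^ (m - k (τ v) - 1) := by
          intro h
          have e1 := hdig v
          rw [h, a1] at e1
          exact hlabB v (τ w) e1.symm
        by_contra hcon
        have := Nat.div_le_div_right (c := b ^ (m - k (τ v) - 1)) (not_lt.1 hcon)
        omega
      · have a0 : ((φ w).1 (τ v)).val < ((φ w).1 (τ w)).val := (φ w).2.1 hlt
        have a1 : ((φ w).1 (τ v)).val / b ^ (m - k (τ w) - 1) =
            (e0.1 (τ v)).val / b ^ (m - k (τ w) - 1) :=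
          H852OF.div_eq_of_div_eq b (m - k (τ v)) _ _ _ (by omega) (hpre w (τ v))
        have a2 : ((φ v).1 (τ v)).val / b ^ (m - k (τ w) - 1) =
            (e0.1 (τ v)).val / b ^ (m - k (τ w) - 1) :=
          H852OF.div_eq_of_div_eq b (m - k (τ v)) _ _ _ (by omega) (hpre v (τ v))
        have a3 : ((φ w).1 (τ v)).val / b ^ (m - k (τ w) - 1) ≤
            ((φ w).1 (τ w)).val / b ^ (m - k (τ w) - 1) := Nat.div_le_div_right a0.le
        have a4 : ((φ w).1 (τ v)).val / b ^ (m - k (τ w) - 1) ≠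
            ((φ w).1 (τ w)).val / b ^ (m - k (τ w) - 1) := by
          intro h
          have e1 := hdig w
          rw [← h, a1] at e1
          exact hlabB w (τ v) e1.symm
        by_contra hcon
        have := Nat.div_le_div_right (c := b ^ (m - k (τ w) - 1)) (not_lt.1 hcon)
        omega
    · have hki := (k (τ v)).isLt
      have hmk : m - k (τ v) = (m - k (τ v) - 1) + 1 := by omega
      have e1 := hdig v
      have e2 := hdig w
      rw [← heq] at e2 ⊢
      apply H852OF.lt_of_digit b (m - k (τ v) - 1)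
      · rw [← hmk, hpre v, hpre w]
      · rw [e1, e2]
        exact hlabm v w hvw heq
  · have key : ∀ v w : Fin kk, P.Adj v w → ord w < ord v → G.Adj ((φ v).1 (τ v)) ((φ w).1 (τ w)) := by
      intro v w hvw ho
      rw [← hpos v w (hPH hvw) ho]
      by_cases h1 : (τ v).val < a
      · exact (φ v).2.2 _ _ h1 ((hside v w hvw).1 h1)
      · have h2 : (τ w).val < a := by
          by_contra h2
          exact h1 ((hside v w hvw).2 (not_lt.1 h2))
        exact ((φ v).2.2 _ _ h2 (not_lt.1 h1)).symm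
    intro v w hvw
    rcases lt_trichotomy (ord v) (ord w) with h | h | h
    · exact (key w v hvw.symm h).symm
    · exact absurd (ord.injective h) hvw.ne
    · exact key v w hvw h

end H152TT
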