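import Mathlib
import Pool.Agent.Helper852.OF.Main
import Pool.Agent.H152.TT.Embed

set_option autoImplicit false

open Finset

namespace H152TT

open Classical in
/-- homomorphic copies of `K_{p,q}` in the relation `R` -/
noncomputable def hom {n : ℕ} (R : Fin n → Fin n → Prop) (p q : ℕ) :
    Finset ((Fin p → Fin n) × (Fin q → Fin n)) :=
  univ.filter (fun z => ∀ i j, R (z.1 i) (z.2 j))

open Classical in
theorem mem_hom {n : ℕ} {R : Fin n → Fin n → Prop} {p q : ℕ}
    {z : (Fin p → Fin n) × (Fin q → Fin n)} : z ∈ hom R p q ↔ ∀ i j, R (z.1 i) (z.2 j) := by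
  unfold hom
  rw [mem_filter]
  simp

open Classical in
theorem hom_card {n : ℕ} (R : Fin n → Fin n → Prop) (p q : ℕ) :
    (hom R p q).card = ∑ x : Fin p → Fin n,
      ((univ : Finset (Fin n)).filter (fun v => ∀ i, R (x i) v)).card ^ q := by
  have h1 : (hom R p q).card = ∑ x : Fin p → Fin n, ((univ : Finset (Fin q → Fin n)).filter
      (fun y => ∀ i j, R (x i) (y j))).card := by
    unfold hom
    rw [Finset.card_filter, Fintype.sum_prod_type]
    refine Finset.sum_congr rfl fun x _ => ?_
    rw [Finset.card_filter]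
  rw [h1]
  refine Finset.sum_congr rfl fun x _ => ?_
  have h2 : (univ : Finset (Fin q → Fin n)).filter (fun y => ∀ i j, R (x i) (y j)) =
      Fintype.piFinset (fun _ : Fin q => (univ : Finset (Fin n)).filter (fun v => ∀ i, R (x i) v)) := by
    ext y
    simp only [mem_filter, mem_univ, true_and, Fintype.mem_piFinset]
    exact ⟨fun h j i => h i j, fun h i j => h j i⟩
  rw [h2, Fintype.card_piFinset, Finset.prod_const, Finset.card_univ, Fintype.card_fin]

theorem hom_swap {n : ℕ} (R : Fin n → Fin n → Prop) (p q : ℕ) :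
    (hom R p q).card = (hom (fun u v => R v u) q p).card := by
  refine Finset.card_bij (fun z _ => (z.2, z.1)) ?_ ?_ ?_
  · intro z hz
    rw [mem_hom] at hz ⊢
    exact fun i j => hz j i
  · intro z _ z' _ h
    exact Prod.ext (congrArg Prod.snd h) (congrArg Prod.fst h)
  · intro z hz
    refine ⟨(z.2, z.1), ?_, rfl⟩
    rw [mem_hom] at hz ⊢
    exact fun i j => hz j i

open Classical in
theorem hom_one {n : ℕ} (R : Fin n → Fin n → Prop) (p : ℕ) :
    (hom R p 1).card = ∑ v : Fin n, ((univ : Finset (Fin n)).filter (fun u => R u v)).card ^ p := by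
  rw [hom_swap, hom_card]
  refine Fintype.sum_equiv (Equiv.funUnique (Fin 1) (Fin n)) _ _ ?_
  intro x
  congr 2
  ext u
  simp

open Classical in
/-- number of related pairs -/
noncomputable def edg {n : ℕ} (R : Fin n → Fin n → Prop) : ℕ :=
  ∑ v : Fin n, ((univ : Finset (Fin n)).filter (fun u => R u v)).card

open Classical in
theorem edg_swap {n : ℕ} (R : Fin n → Fin n → Prop) : edg R = edg (fun u v => R v u) := by
  have h1 : edg R = (hom R 1 1).card := by
    rw [hom_one]
    simp [edg]
  have h2 : edg (fun u v => R v u) = (hom (fun u v => R v u) 1 1).card := by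
    rw [hom_one]
    simp [edg]
  rw [h1, h2, hom_swap]

open Classical in
theorem hom_grow {n : ℕ} (R : Fin n → Fin n → Prop) (p q : ℕ) :
    (edg R : ℝ) ^ (p+1) * ((hom R (p+1) q).card : ℝ) ≤
      (n : ℝ) ^ (2 * p + 1) * ((hom R (p+1) (q+1)).card : ℝ) := by
  obtain ⟨D, hD⟩ : ∃ D : (Fin (p+1) → Fin n) → ℝ, ∀ x, D x =
      (((univ : Finset (Fin n)).filter (fun v => ∀ i, R (x i) v)).card : ℝ) := ⟨_, fun _ => rfl⟩
  have hD0 : ∀ x, 0 ≤ D x := fun x => by rw [hD]; exact Nat.cast_nonneg _
  have hc : ∀ r : ℕ, ((hom R (p+1) r).card : ℝ) = ∑ x, (D x) ^ r := by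
    intro r
    rw [hom_card]
    push_cast
    exact Finset.sum_congr rfl fun x _ => by rw [hD]
  have h1 : (edg R : ℝ) ^ (p+1) ≤ (n : ℝ) ^ p * ∑ x, D x := by
    have h2 : ∑ x, D x = ((hom R (p+1) 1).card : ℝ) := by
      rw [hc 1]
      simp
    rw [h2, hom_one]
    unfold edg
    push_cast
    have := pow_sum_le_card_mul_sum_pow (s := (univ : Finset (Fin n)))
      (f := fun v => (((univ : Finset (Fin n)).filter (fun u => R u v)).card : ℝ))
      (fun v _ => Nat.cast_nonneg _) p
    rwa [Finset.card_univ, Fintype.card_fin] at this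
  have h3 : (∑ x, D x) * (∑ x, (D x) ^ q) ≤ (n : ℝ) ^ (p+1) * ∑ x, (D x) ^ (q+1) := by
    have hmv : Monovary D (fun x => (D x) ^ q) := by
      intro x y hxy
      by_contra hcon
      have h4 : D y ≤ D x := (not_le.1 hcon).le
      exact absurd (pow_le_pow_left₀ (hD0 y) h4 q) (not_le.2 hxy)
    have := hmv.sum_mul_sum_le_card_mul_sum
    rw [Fintype.card_fun, Fintype.card_fin, Fintype.card_fin] at this
    push_cast at this
    refine this.trans (le_of_eq ?_)
    congr 1
    exact Finset.sum_congr rfl fun x _ => by ring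
  rw [hc q, hc (q+1)]
  have h5 : 0 ≤ ∑ x, (D x) ^ q := Finset.sum_nonneg fun x _ => pow_nonneg (hD0 x) q
  calc (edg R : ℝ) ^ (p+1) * ∑ x, (D x) ^ q ≤ ((n : ℝ) ^ p * ∑ x, D x) * ∑ x, (D x) ^ q :=
        mul_le_mul_of_nonneg_right h1 h5
    _ = (n : ℝ) ^ p * ((∑ x, D x) * ∑ x, (D x) ^ q) := by ring
    _ ≤ (n : ℝ) ^ p * ((n : ℝ) ^ (p+1) * ∑ x, (D x) ^ (q+1)) :=
        mul_le_mul_of_nonneg_left h3 (by positivity)
    _ = _ := by
        rw [show 2 * p + 1 = p + (p + 1) by ring, pow_add]
        ring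

theorem hom_pos {n : ℕ} (R : Fin n → Fin n → Prop) (he : 0 < edg R) (p q : ℕ) :
    0 < (hom R (p+1) q).card := by
  have hn : 0 < n := by
    rcases Nat.eq_zero_or_pos n with h | h
    · subst h
      simp [edg] at he
    · exact h
  have : Nonempty (Fin n) := ⟨⟨0, hn⟩⟩
  induction q with
  | zero =>
    rw [Finset.card_pos]
    exact ⟨(fun _ => Classical.arbitrary _, fun i => i.elim0), mem_hom.2 fun i j => j.elim0⟩
  | succ q ih =>
    have h1 := hom_grow R p q
    have h2 : (0 : ℝ) < (edg R : ℝ) ^ (p+1) * ((hom R (p+1) q).card : ℝ) := by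
      have : (0 : ℝ) < (edg R : ℝ) := by exact_mod_cast he
      have : (0 : ℝ) < ((hom R (p+1) q).card : ℝ) := by exact_mod_cast ih
      positivity
    have h3 := h2.trans_le h1
    by_contra hcon
    have h4 : (hom R (p+1) (q+1)).card = 0 := by omega
    rw [h4] at h3
    simp at h3

/-- the forward adjacency relation -/
def fwd {n : ℕ} (G : SimpleGraph (Fin n)) (u v : Fin n) : Prop := G.Adj u v ∧ u < v

open Classical in
theorem edg_fwd {n : ℕ} (G : SimpleGraph (Fin n)) : edg (fwd G) = G.edgeSet.ncard := by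
  rw [H852OF.card_EG]
  have h1 : edg (fwd G) = (hom (fwd G) 1 1).card := by
    rw [hom_one]
    simp [edg]
  rw [h1]
  symm
  rw [← Fintype.card_coe]
  refine Fintype.card_congr ?_
  refine ⟨fun e => ⟨(fun _ => e.1.1, fun _ => e.1.2), mem_hom.2 fun _ _ => e.2⟩,
    fun z => ⟨(z.1.1 0, z.1.2 0), mem_hom.1 z.2 0 0⟩, fun e => rfl, ?_⟩
  rintro ⟨⟨x, y⟩, hz⟩
  apply Subtype.ext
  apply Prod.ext
  · funext i
    rw [Subsingleton.elim i 0]
  · funext i
    rw [Subsingleton.elim i 0]

theorem card_image_le_factor {α β γ : Type} [Fintype α] [DecidableEq β] (f : α → β) (g : α → γ)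
    (A : Finset γ) (hg : ∀ a, g a ∈ A) (h : ∀ a a', g a = g a' → f a = f a') :
    ((univ : Finset α).image f).card ≤ A.card := by
  classical
  rcases isEmpty_or_nonempty α with h0 | h0
  · rw [Finset.univ_eq_empty, Finset.image_empty, Finset.card_empty]
    exact Nat.zero_le _
  · have hf : Function.FactorsThrough f g := fun a a' haa => h a a' haa
    have h1 : (univ : Finset α).image f =
        ((univ : Finset α).image g).image (Function.extend g f (fun _ => f (Classical.arbitrary α))) := by
      rw [Finset.image_image]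
      refine Finset.image_congr fun a _ => ?_
      rw [Function.comp_apply, hf.extend_apply]
    rw [h1]
    refine Finset.card_image_le.trans (Finset.card_le_card ?_)
    intro y hy
    obtain ⟨a, _, rfl⟩ := Finset.mem_image.1 hy
    exact hg a

/-- left and right halves of a configuration -/
theorem cfg_mem_hom {n t : ℕ} (G : SimpleGraph (Fin n)) (e : Cfg G ((t+1)+(t+1)) (t+1))
    {p q : ℕ} (α : Fin p → Fin (t+1)) (β : Fin q → Fin (t+1)) :
    ((fun i => e.1 (Fin.castAdd (t+1) (α i)), fun j => e.1 (Fin.natAdd (t+1) (β j))) :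
      (Fin p → Fin n) × (Fin q → Fin n)) ∈ hom (fwd G) p q := by
  rw [mem_hom]
  intro i j
  refine ⟨e.2.2 _ _ ?_ ?_, e.2.1 ?_⟩
  · rw [Fin.val_castAdd]
    exact (α i).isLt
  · rw [Fin.val_natAdd]
    omega
  · rw [Fin.lt_def]
    simp only [Fin.val_castAdd, Fin.val_natAdd]
    have := (α i).isLt
    omega

theorem image_right {n t b m : ℕ} (G : SimpleGraph (Fin n)) (hn : n ≤ b ^ m) (i' : Fin (t+1)) :
    ((univ : Finset (Cfg G ((t+1)+(t+1)) (t+1))).image
      (Kt G ((t+1)+(t+1)) (t+1) b m (Fin.natAdd (t+1) i') 0)).card ≤ (hom (fwd G) (t+1) t).card := by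
  classical
  refine card_image_le_factor _ (fun e => ((fun i => e.1 (Fin.castAdd (t+1) (id i)),
    fun j => e.1 (Fin.natAdd (t+1) (i'.succAbove j))) : (Fin (t+1) → Fin n) × (Fin t → Fin n)))
    _ (fun e => cfg_mem_hom G e id i'.succAbove) ?_
  intro e e' h
  rw [Kt_eq_iff]
  have h1 := congrArg Prod.fst h
  have h2 := congrArg Prod.snd h
  simp only [id_eq] at h1 h2
  refine ⟨?_, ?_⟩
  · rw [Nat.sub_zero, Nat.div_eq_of_lt (lt_of_lt_of_le (e.1 _).isLt hn),
      Nat.div_eq_of_lt (lt_of_lt_of_le (e'.1 _).isLt hn)]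
  · intro j
    refine Fin.addCases (fun j' _ => ?_) (fun j' hj => ?_) j
    · exact congrFun h1 j'
    · have hne : j' ≠ i' := fun hh => hj (by rw [hh])
      obtain ⟨j'', rfl⟩ := Fin.exists_succAbove_eq hne
      exact congrFun h2 j''

theorem image_left {n t b m : ℕ} (G : SimpleGraph (Fin n)) (hn : n ≤ b ^ m) (i' : Fin (t+1)) :
    ((univ : Finset (Cfg G ((t+1)+(t+1)) (t+1))).image
      (Kt G ((t+1)+(t+1)) (t+1) b m (Fin.castAdd (t+1) i') 0)).card ≤ (hom (fwd G) t (t+1)).card := by
  classical
  refine card_image_le_factor _ (fun e => ((fun i => e.1 (Fin.castAdd (t+1) (i'.succAbove i)),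
    fun j => e.1 (Fin.natAdd (t+1) (id j))) : (Fin t → Fin n) × (Fin (t+1) → Fin n)))
    _ (fun e => cfg_mem_hom G e i'.succAbove id) ?_
  intro e e' h
  rw [Kt_eq_iff]
  have h1 := congrArg Prod.fst h
  have h2 := congrArg Prod.snd h
  simp only [id_eq] at h1 h2
  refine ⟨?_, ?_⟩
  · rw [Nat.sub_zero, Nat.div_eq_of_lt (lt_of_lt_of_le (e.1 _).isLt hn),
      Nat.div_eq_of_lt (lt_of_lt_of_le (e'.1 _).isLt hn)]
  · intro j
    refine Fin.addCases (fun j' hj => ?_) (fun j' _ => ?_) j
    · have hne : j' ≠ i' := fun hh => hj (by rw [hh])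
      obtain ⟨j'', rfl⟩ := Fin.exists_succAbove_eq hne
      exact congrFun h1 j''
    · exact congrFun h2 j'

open Classical in
theorem noninj_left {n p q : ℕ} (R : Fin n → Fin n → Prop) :
    ((hom R (p+1) q).filter (fun z => ¬ Function.Injective z.1)).card ≤
      (p+1) ^ 2 * (hom R p q).card := by
  have h1 : (hom R (p+1) q).filter (fun z => ¬ Function.Injective z.1) ⊆
      ((univ : Finset (Fin (p+1) × Fin (p+1))).filter (fun r => r.1 ≠ r.2)).biUnion
        (fun r => (hom R (p+1) q).filter (fun z => z.1 r.1 = z.1 r.2)) := by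
    intro z hz
    rw [mem_filter] at hz
    obtain ⟨hz1, hz2⟩ := hz
    simp only [Function.Injective] at hz2
    push Not at hz2
    obtain ⟨i, j, hij, hne⟩ := hz2
    rw [mem_biUnion]
    exact ⟨(i, j), mem_filter.2 ⟨mem_univ _, hne⟩, mem_filter.2 ⟨hz1, hij⟩⟩
  refine (card_le_card h1).trans (card_biUnion_le.trans ?_)
  have h2 : ∀ r ∈ (univ : Finset (Fin (p+1) × Fin (p+1))).filter (fun r => r.1 ≠ r.2),
      ((hom R (p+1) q).filter (fun z => z.1 r.1 = z.1 r.2)).card ≤ (hom R p q).card := by
    rintro ⟨i, j⟩ hr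
    have hne : i ≠ j := (mem_filter.1 hr).2
    refine Finset.card_le_card_of_injOn
      (fun z => ((fun i' => z.1 (j.succAbove i'), z.2) : (Fin p → Fin n) × (Fin q → Fin n))) ?_ ?_
    · intro z hz
      rw [Finset.mem_coe, mem_filter, mem_hom] at hz
      rw [Finset.mem_coe, mem_hom]
      exact fun i' j' => hz.1 _ _
    · intro z hz z' hz' h
      rw [Finset.mem_coe, mem_filter] at hz hz'
      have e1 := congrArg Prod.fst h
      have e2 := congrArg Prod.snd h
      simp only at e1 e2
      refine Prod.ext ?_ e2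
      funext l
      by_cases hl : l = j
      · subst hl
        have hz1 := hz.2
        have hz1' := hz'.2
        simp only at hz1 hz1'
        rw [← hz1, ← hz1']
        obtain ⟨i'', hi''⟩ := Fin.exists_succAbove_eq hne
        rw [← hi'']
        exact congrFun e1 i''
      · obtain ⟨l', rfl⟩ := Fin.exists_succAbove_eq hl
        exact congrFun e1 l'
  refine (Finset.sum_le_sum h2).trans ?_
  rw [Finset.sum_const, smul_eq_mul]
  refine Nat.mul_le_mul_right _ ?_
  refine (Finset.card_le_univ _).trans ?_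
  rw [Fintype.card_prod, Fintype.card_fin, sq]

open Classical in
theorem noninj_right {n p q : ℕ} (R : Fin n → Fin n → Prop) :
    ((hom R p (q+1)).filter (fun z => ¬ Function.Injective z.2)).card ≤
      (q+1) ^ 2 * (hom R p q).card := by
  rw [hom_swap R p q]
  refine le_trans ?_ (noninj_left (fun u v => R v u))
  refine Finset.card_le_card_of_injOn (fun z => (z.2, z.1)) ?_ ?_
  · intro z hz
    rw [Finset.mem_coe, mem_filter, mem_hom] at hz
    rw [Finset.mem_coe, mem_filter, mem_hom]
    exact ⟨fun i j => hz.1 j i, hz.2⟩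
  · intro z _ z' _ h
    exact Prod.ext (congrArg Prod.snd h) (congrArg Prod.fst h)

open Classical in
theorem inj_part {n t : ℕ} (G : SimpleGraph (Fin n)) :
    ((hom (fwd G) (t+1) (t+1)).filter
      (fun z => Function.Injective z.1 ∧ Function.Injective z.2)).card ≤
      ((t+1).factorial) ^ 2 * Fintype.card (Cfg G ((t+1)+(t+1)) (t+1)) := by
  have hc : Fintype.card (Cfg G ((t+1)+(t+1)) (t+1) × Equiv.Perm (Fin (t+1)) ×
      Equiv.Perm (Fin (t+1))) =
      ((t+1).factorial) ^ 2 * Fintype.card (Cfg G ((t+1)+(t+1)) (t+1)) := by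
    rw [Fintype.card_prod, Fintype.card_prod, Fintype.card_perm, Fintype.card_fin]
    ring
  rw [← hc, ← Fintype.card_coe]
  have hsm : ∀ x : Fin (t+1) → Fin n, Function.Injective x → StrictMono (x ∘ Tuple.sort x) := by
    intro x hx
    exact (Tuple.monotone_sort x).strictMono_of_injective (hx.comp (Tuple.sort x).injective)
  have hap : ∀ x y : Fin (t+1) → Fin n, StrictMono x → StrictMono y → (∀ i j, fwd G (x i) (y j)) →
      (StrictMono (Fin.append x y) ∧ ∀ i j : Fin ((t+1)+(t+1)), i.val < t+1 → t+1 ≤ j.val →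
        G.Adj (Fin.append x y i) (Fin.append x y j)) := by
    intro x y hx hy hxy
    constructor
    · intro i j
      refine Fin.addCases (fun i' => ?_) (fun i' => ?_) i
      · refine Fin.addCases (fun j' h => ?_) (fun j' h => ?_) j
        · rw [Fin.append_left, Fin.append_left]
          refine hx ?_
          rw [Fin.lt_def] at h ⊢
          simpa only [Fin.val_castAdd] using h
        · rw [Fin.append_left, Fin.append_right]
          exact (hxy i' j').2
      · refine Fin.addCases (fun j' h => ?_) (fun j' h => ?_) j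
        · exfalso
          rw [Fin.lt_def] at h
          simp only [Fin.val_castAdd, Fin.val_natAdd] at h
          have := j'.isLt
          omega
        · rw [Fin.append_right, Fin.append_right]
          refine hy ?_
          rw [Fin.lt_def] at h ⊢
          simp only [Fin.val_natAdd] at h
          omega
    · intro i j
      refine Fin.addCases (fun i' => ?_) (fun i' => ?_) i
      · refine Fin.addCases (fun j' _ h2 => ?_) (fun j' _ _ => ?_) j
        · exfalso
          simp only [Fin.val_castAdd] at h2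
          have := j'.isLt
          omega
        · rw [Fin.append_left, Fin.append_right]
          exact (hxy i' j').1
      · intro h1
        exfalso
        simp only [Fin.val_natAdd] at h1
        omega
  refine Fintype.card_le_of_injective (fun z : {z // z ∈ (hom (fwd G) (t+1) (t+1)).filter
      (fun z => Function.Injective z.1 ∧ Function.Injective z.2)} =>
    ((⟨Fin.append (z.1.1 ∘ Tuple.sort z.1.1) (z.1.2 ∘ Tuple.sort z.1.2),
      hap _ _ (hsm _ (mem_filter.1 z.2).2.1) (hsm _ (mem_filter.1 z.2).2.2)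
        (fun i j => mem_hom.1 (mem_filter.1 z.2).1 _ _)⟩ : Cfg G ((t+1)+(t+1)) (t+1)),
      Tuple.sort z.1.1, Tuple.sort z.1.2)) ?_
  rintro ⟨⟨x, y⟩, hz⟩ ⟨⟨x', y'⟩, hz'⟩ h
  simp only [Prod.mk.injEq, Subtype.mk.injEq] at h
  obtain ⟨h1, h2, h3⟩ := h
  apply Subtype.ext
  refine Prod.ext ?_ ?_
  · funext i
    have h4 := congrFun h1 (Fin.castAdd (t+1) ((Tuple.sort x).symm i))
    rw [Fin.append_left, Fin.append_left] at h4
    simp only [Function.comp_apply] at h4
    rw [← h2] at h4
    simpa using h4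
  · funext i
    have h4 := congrFun h1 (Fin.natAdd (t+1) ((Tuple.sort y).symm i))
    rw [Fin.append_right, Fin.append_right] at h4
    simp only [Function.comp_apply] at h4
    rw [← h3] at h4
    simpa using h4

/-- most copies give configurations -/
theorem hom_le_cfg {n t : ℕ} (G : SimpleGraph (Fin n)) :
    (hom (fwd G) (t+1) (t+1)).card ≤
      ((t+1).factorial) ^ 2 * Fintype.card (Cfg G ((t+1)+(t+1)) (t+1)) +
      ((t+1) ^ 2 * (hom (fwd G) t (t+1)).card + (t+1) ^ 2 * (hom (fwd G) (t+1) t).card) := by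
  classical
  have hsub : hom (fwd G) (t+1) (t+1) ⊆ (hom (fwd G) (t+1) (t+1)).filter
      (fun z => Function.Injective z.1 ∧ Function.Injective z.2) ∪
      ((hom (fwd G) (t+1) (t+1)).filter (fun z => ¬ Function.Injective z.1) ∪
        (hom (fwd G) (t+1) (t+1)).filter (fun z => ¬ Function.Injective z.2)) := by
    intro z hz
    simp only [mem_union, mem_filter]
    tauto
  have h1 := (card_le_card hsub).trans ((card_union_le _ _).trans
    (Nat.add_le_add_left (card_union_le _ _) _))
  have h2 := inj_part (t := t) G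
  have h3 := noninj_left (p := t) (q := t+1) (fwd G)
  have h4 := noninj_right (p := t+1) (q := t) (fwd G)
  omega

end H152TT
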