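import Mathlib
import Pool.Agent.Helper852.OF.Defs

set_option autoImplicit false

open Finset

namespace H152TT

open H852OF

/-- indicator function of a predicate -/
noncomputable def indq {E : Type} (q : E → Prop) (e : E) : ℝ := by
  classical exact if q e then 1 else 0

theorem indq_abs {E : Type} (q : E → Prop) (e : E) : |indq q e| ≤ 1 := by
  unfold indq
  split_ifs
  · rw [abs_one]
  · rw [abs_zero]; exact zero_le_one

/-- discrepancy of the predicate `q` between the keys `K0` and `K1` -/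
noncomputable def dsc {E κ : Type} [Fintype E] [DecidableEq E] [DecidableEq κ]
    (K1 K0 : E → κ) (q : E → Prop) : ℝ :=
  ∑ e, |av K1 (indq q) e - av K0 (indq q) e|

theorem dsc_nonneg {E κ : Type} [Fintype E] [DecidableEq E] [DecidableEq κ]
    (K1 K0 : E → κ) (q : E → Prop) : 0 ≤ dsc K1 K0 q :=
  Finset.sum_nonneg fun _ _ => abs_nonneg _

theorem bad_class {E κ : Type} [Fintype E] [DecidableEq E] [DecidableEq κ] (b : ℕ)
    (K1 K0 : E → κ) (L : E → ℕ) (hK : ∀ e e', K1 e = K1 e' ↔ (K0 e = K0 e' ∧ L e = L e'))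
    (q : E → Prop) (S : Finset ℕ) (Es U : Finset E)
    (hEs : ∀ e, e ∈ Es ↔ (heavy b K0 L e = S ∧ q e)) (k : κ) (ρ B D : Finset E)
    (hρ : ∀ e, e ∈ ρ ↔ K0 e = k)
    (hB : ∀ e ∈ B, e ∈ Es ∧ K0 e = k ∧ ∃ x ∈ S, ∀ e' ∈ U, K0 e' = K0 e → L e' ≠ x)
    (hD : ∀ e, e ∈ Es → e ∉ U → K0 e = k → e ∈ D) :
    (B.card : ℝ) ≤ (b : ℝ) ^ 2 * ((D.card : ℝ) +
      ∑ e ∈ ρ, |av K1 (indq q) e - av K0 (indq q) e|) := by
  classical
  rcases B.eq_empty_or_nonempty with hB0 | ⟨e, he⟩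
  · rw [hB0, card_empty, Nat.cast_zero]
    exact mul_nonneg (sq_nonneg _) (add_nonneg (Nat.cast_nonneg _)
      (sum_nonneg fun _ _ => abs_nonneg _))
  obtain ⟨heE, hek, x, hxS, hxU⟩ := hB e he
  have hcl' : ∀ e' ∈ ρ, cl K0 e' = ρ := by
    intro e' he'
    ext e''
    rw [cl, mem_filter, hρ, (hρ e').1 he']
    simp
  have heρ : e ∈ ρ := (hρ e).2 hek
  have hcl : cl K0 e = ρ := hcl' e heρ
  have hheavy : heavy b K0 L e = S := ((hEs e).1 heE).1
  have hheavy' : ∀ e' ∈ ρ, heavy b K0 L e' = S := by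
    intro e' he'
    rw [← hheavy]
    unfold heavy cnt
    rw [hcl' e' he', hcl]
  have hEsρ : ∀ e' ∈ ρ, (e' ∈ Es ↔ q e') := by
    intro e' he'
    rw [hEs, hheavy' e' he']
    simp
  have hf : ∀ s : Finset E, ∑ e' ∈ s, indq q e' =
      ((s.filter (fun e' => q e')).card : ℝ) := by
    intro s
    unfold indq
    rw [Finset.sum_boole]
  have hxh : x ∈ heavy b K0 L e := hheavy ▸ hxS
  have hN : ρ.card ≤ b ^ 2 * (ρ.filter (fun e' => L e' = x)).card := by
    have h := (mem_filter.1 hxh).2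
    unfold cnt at h
    rwa [hcl] at h
  set ρx := ρ.filter (fun e' => L e' = x) with hρx
  have hNpos : 0 < ρ.card := card_pos.2 ⟨e, heρ⟩
  have hNx : 0 < ρx.card := by
    by_contra h
    have h0 : ρx.card = 0 := by omega
    rw [h0, mul_zero] at hN
    omega
  have hNpos' : (0 : ℝ) < ρ.card := Nat.cast_pos.2 hNpos
  have hNx' : (0 : ℝ) < ρx.card := Nat.cast_pos.2 hNx
  have hclx : ∀ e' ∈ ρx, cl K1 e' = ρx := by
    intro e' he'
    ext e''
    rw [cl, mem_filter, hρx, mem_filter, hρ, hK, (hρ e').1 (mem_filter.1 he').1,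
      (mem_filter.1 he').2]
    simp
  obtain ⟨p, hp⟩ : ∃ p : ℝ, p = (∑ e'' ∈ ρ, indq q e'') / (ρ.card : ℝ) := ⟨_, rfl⟩
  obtain ⟨px, hpx⟩ : ∃ px : ℝ, px = (∑ e'' ∈ ρx, indq q e'') / (ρx.card : ℝ) := ⟨_, rfl⟩
  have hav0 : ∀ e' ∈ ρ, av K0 (indq q) e' = p := by
    intro e' he'
    unfold av
    rw [hcl' e' he', hp]
  have hav1 : ∀ e' ∈ ρx, av K1 (indq q) e' = px := by
    intro e' he'
    unfold av
    rw [hclx e' he', hpx]
  have hp0 : 0 ≤ p := by
    rw [hp, hf]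
    positivity
  have h1 : (B.card : ℝ) ≤ p * ρ.card := by
    rw [hp, div_mul_cancel₀ _ hNpos'.ne', hf]
    refine Nat.cast_le.2 (card_le_card fun e' he' => ?_)
    obtain ⟨a1, a2, -⟩ := hB e' he'
    have a3 := (hρ e').2 a2
    exact mem_filter.2 ⟨a3, (hEsρ e' a3).1 a1⟩
  have h2 : p * ρ.card ≤ p * ((b : ℝ) ^ 2 * ρx.card) := by
    refine mul_le_mul_of_nonneg_left ?_ hp0
    exact_mod_cast hN
  have h3 : px * ρx.card ≤ D.card := by
    rw [hpx, div_mul_cancel₀ _ hNx'.ne', hf]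
    refine Nat.cast_le.2 (card_le_card fun e' he' => ?_)
    obtain ⟨a1, a2⟩ := mem_filter.1 he'
    obtain ⟨a3, a4⟩ := mem_filter.1 a1
    refine hD e' ((hEsρ e' a3).2 a2) (fun hU' => ?_) ((hρ e').1 a3)
    exact hxU e' hU' (((hρ e').1 a3).trans hek.symm) a4
  have h4 : |px - p| * ρx.card ≤ ∑ e ∈ ρ, |av K1 (indq q) e - av K0 (indq q) e| := by
    have h5 : ∑ e' ∈ ρx, |av K1 (indq q) e' - av K0 (indq q) e'| = |px - p| * ρx.card := by
      rw [sum_congr rfl (fun e' he' => by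
        rw [hav1 e' he', hav0 e' (mem_filter.1 he').1] : ∀ e' ∈ ρx,
          |av K1 (indq q) e' - av K0 (indq q) e'| = |px - p|), sum_const, nsmul_eq_mul,
        mul_comm]
    rw [← h5]
    exact sum_le_sum_of_subset_of_nonneg (filter_subset _ _) (fun _ _ _ => abs_nonneg _)
  have h5 : p * ((b : ℝ) ^ 2 * ρx.card) ≤
      (b : ℝ) ^ 2 * (px * ρx.card + |px - p| * ρx.card) := by
    have h6 : p ≤ px + |px - p| := by linarith [neg_abs_le (px - p)]
    calc p * ((b : ℝ) ^ 2 * ρx.card) ≤ (px + |px - p|) * ((b : ℝ) ^ 2 * ρx.card) :=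
          mul_le_mul_of_nonneg_right h6 (by positivity)
      _ = _ := by ring
  calc (B.card : ℝ) ≤ (b : ℝ) ^ 2 * (px * ρx.card + |px - p| * ρx.card) := by linarith
    _ ≤ _ := mul_le_mul_of_nonneg_left (add_le_add h3 h4) (sq_nonneg _)

open Classical in
theorem bad_le {E κ : Type} [Fintype E] [DecidableEq E] [DecidableEq κ] (b : ℕ)
    (K1 K0 : E → κ) (L : E → ℕ) (hK : ∀ e e', K1 e = K1 e' ↔ (K0 e = K0 e' ∧ L e = L e'))
    (q : E → Prop) (S : Finset ℕ) (Es U : Finset E)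
    (hEs : ∀ e, e ∈ Es ↔ (heavy b K0 L e = S ∧ q e)) :
    ((Es.filter (fun e => ∃ x ∈ S, ∀ e' ∈ U, K0 e' = K0 e → L e' ≠ x)).card : ℝ) ≤
      (b : ℝ) ^ 2 * (((Es \ U).card : ℝ) + dsc K1 K0 q) := by
  set Bad := Es.filter (fun e => ∃ x ∈ S, ∀ e' ∈ U, K0 e' = K0 e → L e' ≠ x) with hBad
  have s1 : (Bad.card : ℝ) = ∑ k ∈ univ.image K0,
      ((Bad.filter (fun e => K0 e = k)).card : ℝ) := by
    rw [← Nat.cast_sum]
    congr 1
    exact card_eq_sum_card_fiberwise (fun e _ => mem_image_of_mem _ (mem_univ e))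
  have s2 : ((Es \ U).card : ℝ) = ∑ k ∈ univ.image K0,
      (((Es \ U).filter (fun e => K0 e = k)).card : ℝ) := by
    rw [← Nat.cast_sum]
    congr 1
    exact card_eq_sum_card_fiberwise (fun e _ => mem_image_of_mem _ (mem_univ e))
  have s3 : ∑ e, |av K1 (indq q) e - av K0 (indq q) e| = ∑ k ∈ univ.image K0,
      ∑ e ∈ univ.filter (fun e => K0 e = k),
        |av K1 (indq q) e - av K0 (indq q) e| :=
    (sum_fiberwise_of_maps_to (fun e _ => mem_image_of_mem _ (mem_univ e)) _).symm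
  calc (Bad.card : ℝ) = ∑ k ∈ univ.image K0,
      ((Bad.filter (fun e => K0 e = k)).card : ℝ) := s1
    _ ≤ ∑ k ∈ univ.image K0, (b : ℝ) ^ 2 *
        ((((Es \ U).filter (fun e => K0 e = k)).card : ℝ) +
          ∑ e ∈ univ.filter (fun e => K0 e = k),
            |av K1 (indq q) e - av K0 (indq q) e|) := by
        refine sum_le_sum fun k _ => ?_
        refine bad_class b K1 K0 L hK q S Es U hEs k _ _ _ ?_ ?_ ?_
        · intro e
          simp
        · intro e he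
          obtain ⟨a1, a2⟩ := mem_filter.1 he
          obtain ⟨a3, a4⟩ := mem_filter.1 a1
          exact ⟨a3, a2, a4⟩
        · intro e h1 h2 h3
          exact mem_filter.2 ⟨mem_sdiff.2 ⟨h1, h2⟩, h3⟩
    _ = (b : ℝ) ^ 2 * (((Es \ U).card : ℝ) +
          ∑ e, |av K1 (indq q) e - av K0 (indq q) e|) := by
        rw [← mul_sum, sum_add_distrib, ← s2, ← s3]
    _ ≤ _ := le_rfl

/-- one cleaning step, for a finite family of filtrations -/
noncomputable def stepM {E κ : Type} {T : ℕ} (K : Fin T → E → κ) (L : Fin T → E → ℕ)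
    (S : Fin T → Finset ℕ) (U : Finset E) : Finset E := by
  classical
  exact U.filter (fun e => ∀ i, ∀ x ∈ S i, ∃ e' ∈ U, K i e' = K i e ∧ L i e' = x)

theorem mem_stepM {E κ : Type} {T : ℕ} {K : Fin T → E → κ} {L : Fin T → E → ℕ}
    {S : Fin T → Finset ℕ} {U : Finset E} {e : E} :
    e ∈ stepM K L S U ↔ e ∈ U ∧ ∀ i, ∀ x ∈ S i, ∃ e' ∈ U, K i e' = K i e ∧ L i e' = x := by
  unfold stepM
  simp only [Finset.mem_filter]

theorem stepM_sub {E κ : Type} {T : ℕ} (K : Fin T → E → κ) (L : Fin T → E → ℕ)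
    (S : Fin T → Finset ℕ) (U : Finset E) : stepM K L S U ⊆ U := fun _ he => (mem_stepM.1 he).1

theorem stepM_bad {E κ : Type} [Fintype E] [DecidableEq E] [DecidableEq κ] {T : ℕ}
    (b : ℕ) (K1 K0 : Fin T → E → κ) (L : Fin T → E → ℕ)
    (hK : ∀ i e e', K1 i e = K1 i e' ↔ (K0 i e = K0 i e' ∧ L i e = L i e'))
    (S : Fin T → Finset ℕ) (Es U : Finset E)
    (hEs : ∀ e, e ∈ Es ↔ ∀ i, heavy b (K0 i) (L i) e = S i) :
    ((Es \ stepM K0 L S U).card : ℝ) ≤ (1 + (T : ℝ) * (b : ℝ) ^ 2) * ((Es \ U).card : ℝ) +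
      (b : ℝ) ^ 2 * ∑ i, dsc (K1 i) (K0 i) (fun e => ∀ j, j ≠ i → heavy b (K0 j) (L j) e = S j) := by
  classical
  have h1 : ∀ i : Fin T,
      ((Es.filter (fun e => ∃ x ∈ S i, ∀ e' ∈ U, K0 i e' = K0 i e → L i e' ≠ x)).card : ℝ) ≤
      (b : ℝ) ^ 2 * (((Es \ U).card : ℝ) +
        dsc (K1 i) (K0 i) (fun e => ∀ j, j ≠ i → heavy b (K0 j) (L j) e = S j)) := by
    intro i
    have := bad_le b (K1 i) (K0 i) (L i) (hK i)
      (fun e => ∀ j, j ≠ i → heavy b (K0 j) (L j) e = S j) (S i) Es U (by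
        intro e
        rw [hEs]
        constructor
        · exact fun h => ⟨h i, fun j _ => h j⟩
        · rintro ⟨h2, h3⟩ j
          by_cases hji : j = i
          · subst hji; exact h2
          · exact h3 j hji)
    convert this using 1
  have hsub : Es \ stepM K0 L S U ⊆ (Es \ U) ∪ (univ : Finset (Fin T)).biUnion
      (fun i => Es.filter (fun e => ∃ x ∈ S i, ∀ e' ∈ U, K0 i e' = K0 i e → L i e' ≠ x)) := by
    intro e he
    rw [mem_sdiff] at he
    obtain ⟨heE, heS⟩ := he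
    rw [mem_union]
    by_cases heU : e ∈ U
    · right
      by_contra hcon
      apply heS
      rw [mem_stepM]
      refine ⟨heU, fun i x hx => ?_⟩
      by_contra hno
      apply hcon
      rw [mem_biUnion]
      refine ⟨i, mem_univ _, mem_filter.2 ⟨heE, x, hx, ?_⟩⟩
      intro e' he' hk hl
      exact hno ⟨e', he', hk, hl⟩
    · left
      rw [mem_sdiff]
      exact ⟨heE, heU⟩
  have h3 : (Es \ stepM K0 L S U).card ≤ (Es \ U).card + ∑ i : Fin T,
      (Es.filter (fun e => ∃ x ∈ S i, ∀ e' ∈ U, K0 i e' = K0 i e → L i e' ≠ x)).card :=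
    (card_le_card hsub).trans ((card_union_le _ _).trans (Nat.add_le_add_left card_biUnion_le _))
  have h4 : ((Es \ stepM K0 L S U).card : ℝ) ≤ ((Es \ U).card : ℝ) + ∑ i : Fin T,
      ((Es.filter (fun e => ∃ x ∈ S i, ∀ e' ∈ U, K0 i e' = K0 i e → L i e' ≠ x)).card : ℝ) := by
    exact_mod_cast h3
  refine h4.trans ?_
  have h5 := Finset.sum_le_sum (s := (univ : Finset (Fin T))) (fun i _ => h1 i)
  refine (add_le_add_right h5 _).trans (le_of_eq ?_)
  rw [← mul_sum, sum_add_distrib, sum_const, card_univ, Fintype.card_fin, nsmul_eq_mul]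
  ring

theorem iterM_bad {E κ : Type} [Fintype E] [DecidableEq E] [DecidableEq κ] {T : ℕ}
    (b : ℕ) (hb : 1 ≤ b) (hT : 1 ≤ T) (K1 K0 : Fin T → E → κ) (L : Fin T → E → ℕ)
    (hK : ∀ i e e', K1 i e = K1 i e' ↔ (K0 i e = K0 i e' ∧ L i e = L i e'))
    (S : Fin T → Finset ℕ) (Es : Finset E)
    (hEs : ∀ e, e ∈ Es ↔ ∀ i, heavy b (K0 i) (L i) e = S i) (d : ℕ) :
    ((Es \ (stepM K0 L S)^[d] Es).card : ℝ) ≤ (1 + (T : ℝ) * (b : ℝ) ^ 2) ^ d *
      ∑ i, dsc (K1 i) (K0 i) (fun e => ∀ j, j ≠ i → heavy b (K0 j) (L j) e = S j) := by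
  obtain ⟨X, hX⟩ : ∃ X, X = ∑ i, dsc (K1 i) (K0 i)
      (fun e => ∀ j, j ≠ i → heavy b (K0 j) (L j) e = S j) := ⟨_, rfl⟩
  rw [← hX]
  have hX0 : 0 ≤ X := by
    rw [hX]
    exact Finset.sum_nonneg fun i _ => dsc_nonneg _ _ _
  have hb1 : (1 : ℝ) ≤ (b : ℝ) := by exact_mod_cast hb
  have hT1 : (1 : ℝ) ≤ (T : ℝ) := by exact_mod_cast hT
  have key : ((Es \ (stepM K0 L S)^[d] Es).card : ℝ) ≤
      ((1 + (T : ℝ) * (b : ℝ) ^ 2) ^ d - 1) * X := by
    induction d with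
    | zero => simp
    | succ d ih =>
      rw [Function.iterate_succ_apply']
      have h1 := stepM_bad b K1 K0 L hK S Es ((stepM K0 L S)^[d] Es) hEs
      rw [← hX] at h1
      refine h1.trans ?_
      have h2 : (0 : ℝ) ≤ 1 + (T : ℝ) * (b : ℝ) ^ 2 := by positivity
      have h3 := mul_le_mul_of_nonneg_left ih h2
      have h5 : ((1 + (T : ℝ) * (b : ℝ) ^ 2) ^ (d + 1) - 1) * X =
        (1 + (T : ℝ) * (b : ℝ) ^ 2) * (((1 + (T : ℝ) * (b : ℝ) ^ 2) ^ d - 1) * X) +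
          (T : ℝ) * (b : ℝ) ^ 2 * X := by
        rw [pow_succ (1 + (T : ℝ) * (b : ℝ) ^ 2) d]
        ring
      rw [h5]
      have h6 : (b : ℝ) ^ 2 * X ≤ (T : ℝ) * (b : ℝ) ^ 2 * X := by
        have : (b : ℝ) ^ 2 * X ≤ (T : ℝ) * ((b : ℝ) ^ 2 * X) :=
          le_mul_of_one_le_left (by positivity) hT1
        linarith
      linarith
  refine key.trans ?_
  apply mul_le_mul_of_nonneg_right _ hX0
  linarith

end H152TT
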