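import Mathlib
import Pool.Agent.Helper852.OF.Defs
import Pool.Agent.Helper852.OF.Energy
import Pool.Agent.H152.TT.Bad

set_option autoImplicit false

open Finset

namespace H152TT

open H852OF

theorem dsc_sq_one {E κ : Type} [Fintype E] [DecidableEq E] [DecidableEq κ]
    (K1 K0 : E → κ) (q : E → Prop) :
    (dsc K1 K0 q) ^ 2 ≤ (Fintype.card E : ℝ) *
      ∑ e, (av K1 (indq q) e - av K0 (indq q) e) ^ 2 := by
  unfold dsc
  refine (sq_sum_le_card_mul_sum_sq).trans ?_
  rw [Finset.card_univ]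
  refine mul_le_mul_of_nonneg_left ?_ (Nat.cast_nonneg _)
  refine Finset.sum_le_sum fun e _ => ?_
  rw [sq_abs]

theorem dsc_sq {E κ : Type} [Fintype E] [DecidableEq E] [DecidableEq κ] (K : ℕ → E → κ)
    (hK : ∀ k e e', K (k+1) e = K (k+1) e' → K k e = K k e') (q : E → Prop) (m : ℕ) :
    ∑ k ∈ range m, (dsc (K (k+1)) (K k) q) ^ 2 ≤ (Fintype.card E : ℝ) ^ 2 := by
  have h1 : ∑ k ∈ range m, (dsc (K (k+1)) (K k) q) ^ 2 ≤
      ∑ k ∈ range m, (Fintype.card E : ℝ) *
      ∑ e, (av (K (k+1)) (indq q) e - av (K k) (indq q) e) ^ 2 :=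
    Finset.sum_le_sum fun k _ => dsc_sq_one (K (k+1)) (K k) q
  refine h1.trans ?_
  rw [← Finset.mul_sum, sq]
  exact mul_le_mul_of_nonneg_left (energy K hK (indq q) (indq_abs q) m) (Nat.cast_nonneg _)

/-- resampling one coordinate -/
theorem sum_update {T m : ℕ} (f : (Fin T → Fin m) → ℝ) (i : Fin T) :
    ∑ k : Fin T → Fin m, ∑ a : Fin m, f (Function.update k i a) = (m : ℝ) * ∑ k, f k := by
  classical
  have h1 : ∑ k : Fin T → Fin m, ∑ a : Fin m, f (Function.update k i a) =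
      ∑ p : (Fin T → Fin m) × Fin m, f (Function.update p.1 i p.2) := by
    rw [Fintype.sum_prod_type]
  have h2 : (m : ℝ) * ∑ k, f k = ∑ p : (Fin T → Fin m) × Fin m, f p.1 := by
    rw [Fintype.sum_prod_type, Finset.mul_sum]
    refine Finset.sum_congr rfl fun k _ => ?_
    simp
  rw [h1, h2]
  let φ : (Fin T → Fin m) × Fin m → (Fin T → Fin m) × Fin m :=
    fun p => (Function.update p.1 i p.2, p.1 i)
  have hφ : Function.Involutive φ := by
    rintro ⟨k, a⟩
    simp only [φ, Function.update_idem, Function.update_self, Function.update_eq_self]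
  exact Fintype.sum_bijective φ hφ.bijective _ _ (fun p => rfl)

theorem noninj_count (T m : ℕ) :
    (m : ℝ) * (((univ : Finset (Fin T → Fin m)).filter (fun k => ¬ Function.Injective k)).card : ℝ) ≤
      (T : ℝ) ^ 2 * (m : ℝ) ^ T := by
  classical
  have h1 : ∀ i j : Fin T, i ≠ j →
      (m : ℝ) * ∑ k : Fin T → Fin m, (if k i = k j then (1 : ℝ) else 0) = (m : ℝ) ^ T := by
    intro i j hij
    rw [← sum_update _ i]
    have h2 : ∀ k : Fin T → Fin m, ∑ a : Fin m,
        (if Function.update k i a i = Function.update k i a j then (1 : ℝ) else 0) = 1 := by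
      intro k
      simp only [Function.update_self, Function.update_of_ne hij.symm]
      rw [Finset.sum_ite_eq']
      simp
    rw [Finset.sum_congr rfl (fun k _ => h2 k)]
    simp
  have h3 : (((univ : Finset (Fin T → Fin m)).filter (fun k => ¬ Function.Injective k)).card : ℝ) ≤
      ∑ p ∈ (univ : Finset (Fin T × Fin T)).filter (fun p => p.1 ≠ p.2),
        ∑ k : Fin T → Fin m, (if k p.1 = k p.2 then (1 : ℝ) else 0) := by
    rw [Finset.natCast_card_filter, Finset.sum_comm]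
    refine Finset.sum_le_sum fun k _ => ?_
    by_cases hk : Function.Injective k
    · rw [if_neg (not_not.2 hk)]
      exact Finset.sum_nonneg fun p _ => by split_ifs <;> norm_num
    · rw [if_pos hk]
      simp only [Function.Injective] at hk
      push Not at hk
      obtain ⟨i, j, hij, hne⟩ := hk
      have hmem : (i, j) ∈ (univ : Finset (Fin T × Fin T)).filter (fun p => p.1 ≠ p.2) := by
        simp [hne]
      refine le_trans (le_of_eq ?_) (Finset.single_le_sum (f := fun p : Fin T × Fin T =>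
        (if k p.1 = k p.2 then (1 : ℝ) else 0)) (fun p _ => by split_ifs <;> norm_num) hmem)
      simp [hij]
  have h4 := mul_le_mul_of_nonneg_left h3 (Nat.cast_nonneg (α := ℝ) m)
  refine h4.trans ?_
  rw [Finset.mul_sum]
  rw [Finset.sum_congr rfl (fun p hp => h1 p.1 p.2 (Finset.mem_filter.1 hp).2)]
  rw [Finset.sum_const, nsmul_eq_mul]
  refine mul_le_mul_of_nonneg_right ?_ (by positivity)
  have h5 : ((univ : Finset (Fin T × Fin T)).filter (fun p => p.1 ≠ p.2)).card ≤ T ^ 2 := by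
    refine (Finset.card_le_univ _).trans ?_
    rw [Fintype.card_prod, Fintype.card_fin, sq]
  exact_mod_cast h5

/-- the predicate of the types of the other filtrations -/
def oth {E κ : Type} [Fintype E] [DecidableEq E] [DecidableEq κ] {T m : ℕ} (b : ℕ)
    (K : Fin T → ℕ → E → κ) (L : Fin T → ℕ → E → ℕ) (k : Fin T → Fin m) (S : Fin T → Finset ℕ)
    (i : Fin T) (e : E) : Prop :=
  ∀ j, j ≠ i → heavy b (K j (k j)) (L j (k j)) e = S j

theorem disc_total {E κ : Type} [Fintype E] [DecidableEq E] [DecidableEq κ] {T m : ℕ} (b : ℕ)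
    (K : Fin T → ℕ → E → κ) (L : Fin T → ℕ → E → ℕ)
    (hK : ∀ i k e e', K i (k+1) e = K i (k+1) e' ↔ (K i k e = K i k e' ∧ L i k e = L i k e'))
    (S : Fin T → Finset ℕ) (i : Fin T) :
    (m : ℝ) * ∑ k : Fin T → Fin m, (dsc (K i (k i + 1)) (K i (k i)) (oth b K L k S i)) ^ 2 ≤
      (m : ℝ) ^ T * (Fintype.card E : ℝ) ^ 2 := by
  classical
  rw [← sum_update _ i]
  have h1 : ∀ k : Fin T → Fin m, ∑ a : Fin m,
      (dsc (K i ((Function.update k i a) i + 1)) (K i ((Function.update k i a) i))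
        (oth b K L (Function.update k i a) S i)) ^ 2 ≤ (Fintype.card E : ℝ) ^ 2 := by
    intro k
    have h2 : ∀ a : Fin m, oth b K L (Function.update k i a) S i = oth b K L k S i := by
      intro a
      funext e
      unfold oth
      apply propext
      refine forall_congr' fun j => ?_
      refine imp_congr_right fun hj => ?_
      rw [Function.update_of_ne hj]
    simp only [h2, Function.update_self]
    rw [Fin.sum_univ_eq_sum_range (fun a => (dsc (K i (a + 1)) (K i a) (oth b K L k S i)) ^ 2) m]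
    exact dsc_sq (K i) (fun a e e' h => ((hK i a e e').1 h).1) _ m
  refine (Finset.sum_le_sum fun k _ => h1 k).trans (le_of_eq ?_)
  rw [Finset.sum_const, Finset.card_univ, Fintype.card_fun, Fintype.card_fin, Fintype.card_fin,
    nsmul_eq_mul]
  push_cast
  ring

/-- choice of the levels and of the types -/
theorem choiceM (T b s : ℕ) (c ζ : ℝ) (hc : 0 < c) (hζ : 0 < ζ) :
    ∃ m0 : ℕ, ∀ m : ℕ, m0 ≤ m → ∀ (E κ : Type) [Fintype E] [DecidableEq E] [DecidableEq κ]
      [Nonempty E] (K : Fin T → ℕ → E → κ) (L : Fin T → ℕ → E → ℕ)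
      (_ : ∀ i k e e', K i (k+1) e = K i (k+1) e' ↔ (K i k e = K i k e' ∧ L i k e = L i k e'))
      (_ : c * (m : ℝ) ^ T * (Fintype.card E : ℝ) ≤ ∑ k : Fin T → Fin m,
        (((univ : Finset E).filter (fun e => ∀ i,
          s ≤ (heavy b (K i (k i)) (L i (k i)) e).card)).card : ℝ)),
      ∃ k : Fin T → Fin m, Function.Injective k ∧ ∃ S : Fin T → Finset ℕ,
        (∀ i, S i ⊆ range b) ∧ (∀ i, s ≤ (S i).card) ∧
        c / 2 / ((2 : ℝ) ^ b) ^ T * (Fintype.card E : ℝ) <
          (((univ : Finset E).filter (fun e => ∀ i,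
            heavy b (K i (k i)) (L i (k i)) e = S i)).card : ℝ) ∧
        ∀ i, dsc (K i (k i + 1)) (K i (k i)) (oth b K L k S i) ≤ ζ * (Fintype.card E : ℝ) := by
  classical
  obtain ⟨Q, hQ⟩ : ∃ Q : ℝ, Q = ((2 : ℝ) ^ b) ^ T := ⟨_, rfl⟩
  have hQ0 : 0 < Q := by rw [hQ]; positivity
  obtain ⟨X, hX⟩ : ∃ X : ℝ, X = Q * (T : ℝ) ^ 2 + Q * (T : ℝ) / ζ ^ 2 := ⟨_, rfl⟩
  have hX0 : 0 ≤ X := by rw [hX]; positivity
  refine ⟨⌊2 / c * X⌋₊ + 1, ?_⟩
  intro m hm E κ _ _ _ _ K L hK hsum
  have hmX : X < c / 2 * m := by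
    have h1 : 2 / c * X < (⌊2 / c * X⌋₊ : ℝ) + 1 := Nat.lt_floor_add_one _
    have h2 : ((⌊2 / c * X⌋₊ + 1 : ℕ) : ℝ) ≤ (m : ℝ) := by exact_mod_cast hm
    push_cast at h2
    have h3 : 2 / c * X < m := h1.trans_le h2
    have h4 := mul_lt_mul_of_pos_left h3 (show 0 < c / 2 by positivity)
    have h5 : c / 2 * (2 / c * X) = X := by field_simp
    linarith
  have hm0 : (0 : ℝ) < m := by
    by_contra hcon
    have h1 : (m : ℝ) ≤ 0 := not_lt.1 hcon
    have h2 : c / 2 * m ≤ 0 := mul_nonpos_of_nonneg_of_nonpos (by positivity) h1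
    linarith
  obtain ⟨N, hN⟩ : ∃ N : ℝ, N = (Fintype.card E : ℝ) := ⟨_, rfl⟩
  have hN0 : 0 < N := by
    rw [hN]
    exact_mod_cast Fintype.card_pos
  rw [← hN] at hsum ⊢
  rw [← hQ]
  -- the finite set of types
  obtain ⟨Ty, hTy⟩ : ∃ Ty : Finset (Fin T → Finset ℕ),
    Ty = Fintype.piFinset (fun _ : Fin T => (range b).powerset) := ⟨_, rfl⟩
  have hTyc : (Ty.card : ℝ) = Q := by
    rw [hTy, Fintype.card_piFinset, Finset.prod_const, Finset.card_univ, Fintype.card_fin,
      Finset.card_powerset, Finset.card_range, hQ]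
    push_cast
    rfl
  have hTym : ∀ S : Fin T → Finset ℕ, S ∈ Ty ↔ ∀ i, S i ⊆ range b := by
    intro S
    rw [hTy, Fintype.mem_piFinset]
    simp only [Finset.mem_powerset]
  obtain ⟨Fi, hFi⟩ : ∃ Fi : (Fin T → Fin m) → (Fin T → Finset ℕ) → Finset E, ∀ k S, Fi k S =
      ((univ : Finset E).filter (fun e => ∀ i, s ≤ (heavy b (K i (k i)) (L i (k i)) e).card)).filter
        (fun e => (fun i => heavy b (K i (k i)) (L i (k i)) e) = S) := ⟨_, fun _ _ => rfl⟩
  have hFiN : ∀ k S, ((Fi k S).card : ℝ) ≤ N := by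
    intro k S
    rw [hN]
    exact_mod_cast Finset.card_le_univ _
  have hbo : ∀ k : Fin T → Fin m, (((univ : Finset E).filter (fun e => ∀ i,
          s ≤ (heavy b (K i (k i)) (L i (k i)) e).card)).card : ℝ) = ∑ S ∈ Ty, ((Fi k S).card : ℝ) := by
    intro k
    rw [← Nat.cast_sum]
    congr 1
    simp only [hFi]
    apply Finset.card_eq_sum_card_fiberwise
    intro e _
    rw [Finset.mem_coe, hTym]
    intro i
    exact Finset.filter_subset _ _
  obtain ⟨Di, hDi⟩ : ∃ Di : (Fin T → Fin m) → (Fin T → Finset ℕ) → Fin T → ℝ, ∀ k S i, Di k S i =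
      dsc (K i (k i + 1)) (K i (k i)) (oth b K L k S i) := ⟨_, fun _ _ _ => rfl⟩
  have hDt : ∀ S i, (m : ℝ) * ∑ k : Fin T → Fin m, (Di k S i) ^ 2 ≤ (m : ℝ) ^ T * N ^ 2 := by
    intro S i
    simp only [hDi]
    rw [hN]
    exact disc_total b K L hK S i
  have hex : ∃ k : Fin T → Fin m, ∃ S ∈ Ty, Function.Injective k ∧
      c / 2 / Q * N < ((Fi k S).card : ℝ) ∧ ∀ i, Di k S i ≤ ζ * N := by
    by_contra hcon
    push Not at hcon
    have hpt : ∀ k : Fin T → Fin m, ∀ S ∈ Ty, ((Fi k S).card : ℝ) ≤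
        N * (if ¬ Function.Injective k then 1 else 0) +
        (∑ i, N * ((Di k S i) ^ 2 / (ζ * N) ^ 2)) + c / 2 / Q * N := by
      intro k S hS
      have e1 : ∀ i, 0 ≤ N * ((Di k S i) ^ 2 / (ζ * N) ^ 2) := fun i => by positivity
      have e2 : 0 ≤ ∑ i, N * ((Di k S i) ^ 2 / (ζ * N) ^ 2) := Finset.sum_nonneg fun i _ => e1 i
      have e3 : 0 < c / 2 / Q * N := by positivity
      have e4 : 0 ≤ N * (if ¬ Function.Injective k then (1 : ℝ) else 0) := by
        split_ifs
        · simp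
        · linarith
      by_cases hk : Function.Injective k
      · by_cases h1 : c / 2 / Q * N < ((Fi k S).card : ℝ)
        · obtain ⟨i, hi⟩ := hcon k S hS hk h1
          have h0 : 0 < ζ * N := by positivity
          have h2 : 1 ≤ (Di k S i) ^ 2 / (ζ * N) ^ 2 := by
            rw [le_div_iff₀ (by positivity), one_mul]
            exact pow_le_pow_left₀ h0.le hi.le 2
          have h3 : N ≤ N * ((Di k S i) ^ 2 / (ζ * N) ^ 2) := le_mul_of_one_le_right hN0.le h2
          have h4 := Finset.single_le_sum (f := fun i => N * ((Di k S i) ^ 2 / (ζ * N) ^ 2))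
            (fun i _ => e1 i) (Finset.mem_univ i)
          have := hFiN k S
          linarith
        · have := not_lt.1 h1
          linarith
      · rw [if_pos hk, mul_one]
        have := hFiN k S
        linarith
    have hS : ∑ k : Fin T → Fin m, ∑ S ∈ Ty, ((Fi k S).card : ℝ) ≤
        ∑ k : Fin T → Fin m, ∑ S ∈ Ty, (N * (if ¬ Function.Injective k then 1 else 0) +
        (∑ i, N * ((Di k S i) ^ 2 / (ζ * N) ^ 2)) + c / 2 / Q * N) :=
      Finset.sum_le_sum (fun k _ => Finset.sum_le_sum (fun S hS => hpt k S hS))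
    have hsum' : c * (m : ℝ) ^ T * N ≤ ∑ k : Fin T → Fin m, ∑ S ∈ Ty, ((Fi k S).card : ℝ) := by
      refine hsum.trans (le_of_eq ?_)
      exact Finset.sum_congr rfl fun k _ => hbo k
    simp only [Finset.sum_add_distrib] at hS
    have t1 : (m : ℝ) * ∑ k : Fin T → Fin m, ∑ _S ∈ Ty,
        N * (if ¬ Function.Injective k then (1 : ℝ) else 0) ≤ Q * N * ((T : ℝ) ^ 2 * (m : ℝ) ^ T) := by
      have h1 : ∑ k : Fin T → Fin m, ∑ _S ∈ Ty,
        N * (if ¬ Function.Injective k then (1 : ℝ) else 0) = Q * N *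
          (((univ : Finset (Fin T → Fin m)).filter (fun k => ¬ Function.Injective k)).card : ℝ) := by
        rw [Finset.natCast_card_filter, Finset.mul_sum]
        refine Finset.sum_congr rfl fun k _ => ?_
        rw [Finset.sum_const, nsmul_eq_mul, hTyc]
        ring
      rw [h1]
      have h2 := mul_le_mul_of_nonneg_left (noninj_count T m) (show 0 ≤ Q * N by positivity)
      linarith
    have t2 : (m : ℝ) * ∑ k : Fin T → Fin m, ∑ S ∈ Ty, ∑ i, N * ((Di k S i) ^ 2 / (ζ * N) ^ 2) ≤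
        Q * (T : ℝ) * N * (m : ℝ) ^ T / ζ ^ 2 := by
      have h1 : (m : ℝ) * ∑ k : Fin T → Fin m, ∑ S ∈ Ty, ∑ i, N * ((Di k S i) ^ 2 / (ζ * N) ^ 2) =
          ∑ S ∈ Ty, ∑ i, N / (ζ * N) ^ 2 * ((m : ℝ) * ∑ k : Fin T → Fin m, (Di k S i) ^ 2) := by
        rw [Finset.sum_comm, Finset.mul_sum]
        refine Finset.sum_congr rfl fun S _ => ?_
        rw [Finset.sum_comm, Finset.mul_sum]
        refine Finset.sum_congr rfl fun i _ => ?_
        rw [Finset.mul_sum, Finset.mul_sum, Finset.mul_sum]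
        refine Finset.sum_congr rfl fun k _ => ?_
        ring
      rw [h1]
      have h2 : ∀ S ∈ Ty, ∀ i ∈ (univ : Finset (Fin T)),
          N / (ζ * N) ^ 2 * ((m : ℝ) * ∑ k : Fin T → Fin m, (Di k S i) ^ 2) ≤
          N / (ζ * N) ^ 2 * ((m : ℝ) ^ T * N ^ 2) := by
        intro S _ i _
        exact mul_le_mul_of_nonneg_left (hDt S i) (by positivity)
      refine (Finset.sum_le_sum fun S hS => Finset.sum_le_sum fun i hi => h2 S hS i hi).trans
        (le_of_eq ?_)
      rw [Finset.sum_const, Finset.sum_const, Finset.card_univ, Fintype.card_fin, nsmul_eq_mul,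
        nsmul_eq_mul, hTyc]
      have h3 : N ≠ 0 := hN0.ne'
      have h4 : ζ ≠ 0 := hζ.ne'
      field_simp
    have t3 : ∑ _k : Fin T → Fin m, ∑ _S ∈ Ty, c / 2 / Q * N = (m : ℝ) ^ T * (c / 2 * N) := by
      rw [Finset.sum_const, Finset.sum_const, Finset.card_univ, Fintype.card_fun, Fintype.card_fin,
        Fintype.card_fin, nsmul_eq_mul, nsmul_eq_mul, hTyc]
      push_cast
      have h4 : Q ≠ 0 := hQ0.ne'
      field_simp
    rw [t3] at hS
    have t4 := mul_le_mul_of_nonneg_left (hsum'.trans hS) hm0.le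
    have t5 : (m : ℝ) * (c * (m : ℝ) ^ T * N) ≤ Q * N * ((T : ℝ) ^ 2 * (m : ℝ) ^ T) +
        Q * (T : ℝ) * N * (m : ℝ) ^ T / ζ ^ 2 + (m : ℝ) * ((m : ℝ) ^ T * (c / 2 * N)) := by
      rw [mul_add, mul_add] at t4
      linarith
    have t6 : ((m : ℝ) ^ T * N) * (c / 2 * m) ≤ ((m : ℝ) ^ T * N) * X := by
      have h1 : ((m : ℝ) ^ T * N) * X = Q * N * ((T : ℝ) ^ 2 * (m : ℝ) ^ T) +
        Q * (T : ℝ) * N * (m : ℝ) ^ T / ζ ^ 2 := by
        rw [hX]; ring
      rw [h1]
      linarith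
    have t7 := le_of_mul_le_mul_left t6 (by positivity)
    linarith
  obtain ⟨k, S, hS, hk, hbig, hd⟩ := hex
  refine ⟨k, hk, S, (hTym S).1 hS, ?_, ?_, ?_⟩
  · have hpos : 0 < ((Fi k S).card : ℝ) := lt_trans (by positivity) hbig
    have hne : (Fi k S).Nonempty := by
      rw [← Finset.card_pos]
      exact_mod_cast hpos
    obtain ⟨e, he⟩ := hne
    rw [hFi, Finset.mem_filter, Finset.mem_filter] at he
    intro i
    rw [← he.2]
    exact he.1.2 i
  · refine hbig.trans_le ?_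
    have h3 : (Fi k S).card ≤ ((univ : Finset E).filter (fun e => ∀ i,
            heavy b (K i (k i)) (L i (k i)) e = S i)).card := by
      apply Finset.card_le_card
      intro e he
      rw [hFi, Finset.mem_filter] at he
      rw [Finset.mem_filter]
      exact ⟨Finset.mem_univ _, fun i => congrFun he.2 i⟩
    exact_mod_cast h3
  · intro i
    rw [← hDi]
    exact hd i

/-- abstract core: a finite family of filtrations of a finite set -/
theorem coreM (T b s D : ℕ) (hb : 1 ≤ b) (hT : 1 ≤ T) (c : ℝ) (hc : 0 < c) :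
    ∃ m0 : ℕ, ∀ m : ℕ, m0 ≤ m → ∀ (E κ : Type) [Fintype E] [DecidableEq E] [DecidableEq κ]
      [Nonempty E] (K : Fin T → ℕ → E → κ) (L : Fin T → ℕ → E → ℕ)
      (_ : ∀ i k e e', K i (k+1) e = K i (k+1) e' ↔ (K i k e = K i k e' ∧ L i k e = L i k e'))
      (_ : c * (m : ℝ) ^ T * (Fintype.card E : ℝ) ≤ ∑ k : Fin T → Fin m,
        (((univ : Finset E).filter (fun e => ∀ i,
          s ≤ (heavy b (K i (k i)) (L i (k i)) e).card)).card : ℝ)),
      ∃ k : Fin T → Fin m, Function.Injective k ∧ ∃ S : Fin T → Finset ℕ,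
        (∀ i, s ≤ (S i).card) ∧ ∃ U : ℕ → Finset E, (U D).Nonempty ∧
          (∀ d, U (d+1) ⊆ U d) ∧
          (∀ d, ∀ e ∈ U (d+1), ∀ i, ∀ x ∈ S i, ∃ e' ∈ U d,
            K i (k i) e' = K i (k i) e ∧ L i (k i) e' = x) := by
  have hTR : (1 : ℝ) ≤ (T : ℝ) := by exact_mod_cast hT
  have hA : (0 : ℝ) < (1 + (T : ℝ) * (b : ℝ) ^ 2) ^ D := by positivity
  obtain ⟨A, hAdef⟩ : ∃ A : ℝ, A = (1 + (T : ℝ) * (b : ℝ) ^ 2) ^ D := ⟨_, rfl⟩
  obtain ⟨Q, hQ⟩ : ∃ Q : ℝ, Q = ((2 : ℝ) ^ b) ^ T := ⟨_, rfl⟩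
  have hQ0 : 0 < Q := by rw [hQ]; positivity
  rw [← hAdef] at hA
  obtain ⟨m0, hm0⟩ := choiceM T b s c (c / 2 / Q / (2 * (T : ℝ) * A)) hc (by positivity)
  refine ⟨m0, ?_⟩
  intro m hm E κ i1 i2 i3 i4 K L hK hsum
  obtain ⟨k, hk, S, hS, hsS, hcard, hd⟩ := hm0 m hm E κ K L hK hsum
  refine ⟨k, hk, S, hsS, ?_⟩
  obtain ⟨Es, hEs⟩ : ∃ Es : Finset E, Es = (univ : Finset E).filter (fun e =>
      ∀ i, heavy b (K i (k i)) (L i (k i)) e = S i) := ⟨_, rfl⟩
  have hEs' : ∀ e, e ∈ Es ↔ ∀ i, heavy b (K i (k i)) (L i (k i)) e = S i := by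
    intro e
    rw [hEs]
    simp
  rw [← hEs, ← hQ] at hcard
  have hN : (0 : ℝ) < (Fintype.card E : ℝ) := by exact_mod_cast Fintype.card_pos
  refine ⟨fun d => (stepM (fun i => K i (k i)) (fun i => L i (k i)) S)^[d] Es, ?_, ?_, ?_⟩
  · have h2 := iterM_bad b hb hT (fun i => K i (k i + 1)) (fun i => K i (k i)) (fun i => L i (k i))
      (fun i e e' => hK i (k i) e e') S Es hEs' D
    by_contra hcon
    rw [Finset.not_nonempty_iff_eq_empty] at hcon
    simp only at hcon
    rw [hcon, Finset.sdiff_empty, ← hAdef] at h2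
    have h3 : ∑ i, dsc (K i (k i + 1)) (K i (k i))
        (fun e => ∀ j, j ≠ i → heavy b (K j (k j)) (L j (k j)) e = S j) ≤
        ∑ _i : Fin T, (c / 2 / Q / (2 * (T : ℝ) * A)) * (Fintype.card E : ℝ) :=
      Finset.sum_le_sum fun i _ => hd i
    rw [Finset.sum_const, Finset.card_univ, Fintype.card_fin, nsmul_eq_mul] at h3
    have h4 := mul_le_mul_of_nonneg_left h3 hA.le
    have h5 : A * ((T : ℝ) * ((c / 2 / Q / (2 * (T : ℝ) * A)) * (Fintype.card E : ℝ))) =
        (c / 2 / Q * (Fintype.card E : ℝ)) / 2 := by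
      field_simp
    have h6 : 0 < c / 2 / Q * (Fintype.card E : ℝ) := by positivity
    linarith
  · intro d e he
    simp only [Function.iterate_succ_apply'] at he
    exact (mem_stepM.1 he).1
  · intro d e he i x hx
    simp only [Function.iterate_succ_apply'] at he
    exact (mem_stepM.1 he).2 i x hx

end H152TT
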