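import Mathlib
import Pool.Agent.Helper852.OF.Defs
import Pool.Agent.Helper852.OF.PoorLe

set_option autoImplicit false

open Finset

namespace H152TT

open H852OF

/-- many tuples of rich levels -/
theorem rich_sumM {E κ : Type} [Fintype E] [DecidableEq E] [DecidableEq κ]
    (T b s : ℕ) (hT : 1 ≤ T) (hb : 1 ≤ b) (hs : 1 ≤ s) (K : Fin T → ℕ → E → κ)
    (L : Fin T → ℕ → E → ℕ)
    (hK : ∀ i k e e', K i (k+1) e = K i (k+1) e' ↔ (K i k e = K i k e' ∧ L i k e = L i k e'))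
    (hL : ∀ i k e, L i k e < b) (m M : ℕ) (hM : 1 ≤ M) (hbM : 4 * T * m ≤ b * M)
    (hinj : ∀ i, Function.Injective (K i m))
    (h1 : ∀ i, 4 * (T : ℝ) * ((((univ : Finset E).image (K i 0)).card : ℝ) * (2 * (b : ℝ) ^ 2) ^ M *
      (2 * (s : ℝ)) ^ m) ≤ (Fintype.card E : ℝ)) :
    1 / 2 * (4 * (T : ℝ) / b) ^ T * (m : ℝ) ^ T * (Fintype.card E : ℝ) ≤
      ∑ k : Fin T → Fin m, (((univ : Finset E).filter (fun e => ∀ i,
          s ≤ (heavy b (K i (k i)) (L i (k i)) e).card)).card : ℝ) := by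
  classical
  set N : ℝ := (Fintype.card E : ℝ) with hN
  have hbR : (0 : ℝ) < b := by exact_mod_cast hb
  have hTR : (0 : ℝ) < T := by exact_mod_cast hT
  have hMR : (0 : ℝ) < M := by exact_mod_cast hM
  have hN0 : 0 ≤ N := Nat.cast_nonneg _
  have hbMR : 4 * (T : ℝ) * (m : ℝ) ≤ b * M := by exact_mod_cast hbM
  have hfrac : (m : ℝ) * N / ((b : ℝ) * (M : ℝ)) ≤ N / (4 * T) := by
    rw [div_le_div_iff₀ (mul_pos hbR hMR) (by positivity)]
    nlinarith
  let a : Fin T → E → ℕ := fun i e =>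
    ((range m).filter (fun k => s ≤ (heavy b (K i k) (L i k) e).card)).card
  have p1 : ∀ i, (((univ : Finset E).filter (fun e => a i e < M)).card : ℝ) ≤ N / (2 * T) := by
    intro i
    have h2 := poor_le b s hb hs (K i) (L i) (hK i) (hL i) m M hM (hinj i)
    change (((univ : Finset E).filter (fun e => a i e < M)).card : ℝ) ≤ _ at h2
    have h3 := h1 i
    have h4 : ((((univ : Finset E).image (K i 0)).card : ℝ) * (2 * (b : ℝ) ^ 2) ^ M *
      (2 * (s : ℝ)) ^ m) ≤ N / (4 * T) := by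
      rw [le_div_iff₀ (by positivity)]
      linarith
    have h5 : N / (4 * (T : ℝ)) + N / (4 * T) = N / (2 * T) := by
      field_simp
      ring
    linarith
  set W : Finset E := (univ : Finset E).filter (fun e => ∀ i, M ≤ a i e) with hW
  have hcov : (univ : Finset E) ⊆ W ∪ (univ : Finset (Fin T)).biUnion
      (fun i => (univ : Finset E).filter (fun e => a i e < M)) := by
    intro e _
    rw [mem_union]
    by_cases h : ∀ i, M ≤ a i e
    · left
      rw [hW, mem_filter]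
      exact ⟨mem_univ _, h⟩
    · right
      push Not at h
      obtain ⟨i, hi⟩ := h
      rw [mem_biUnion]
      exact ⟨i, mem_univ _, mem_filter.2 ⟨mem_univ _, hi⟩⟩
  have hWc : N / 2 ≤ (W.card : ℝ) := by
    have h3 := (card_le_card hcov).trans ((card_union_le _ _).trans
      (Nat.add_le_add_left card_biUnion_le _))
    rw [card_univ] at h3
    have h4 : N ≤ (W.card : ℝ) + ∑ i : Fin T,
        (((univ : Finset E).filter (fun e => a i e < M)).card : ℝ) := by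
      rw [hN]
      exact_mod_cast h3
    have h5 : ∑ i : Fin T, (((univ : Finset E).filter (fun e => a i e < M)).card : ℝ) ≤
        ∑ _i : Fin T, N / (2 * T) := sum_le_sum fun i _ => p1 i
    rw [sum_const, card_univ, Fintype.card_fin, nsmul_eq_mul] at h5
    have h6 : (T : ℝ) * (N / (2 * T)) = N / 2 := by
      field_simp
    linarith
  have hsum : ∑ k : Fin T → Fin m, (((univ : Finset E).filter (fun e => ∀ i,
          s ≤ (heavy b (K i (k i)) (L i (k i)) e).card)).card : ℝ) = ∑ e, ∏ i, (a i e : ℝ) := by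
    have e1 : ∀ e, ∏ i, (a i e : ℝ) = ∑ k : Fin T → Fin m,
        (if ∀ i, s ≤ (heavy b (K i (k i)) (L i (k i)) e).card then (1 : ℝ) else 0) := by
      intro e
      have e2 : ∀ i, (a i e : ℝ) = ∑ j : Fin m,
          (if s ≤ (heavy b (K i j) (L i j) e).card then (1 : ℝ) else 0) := by
        intro i
        simp only [a, Finset.natCast_card_filter]
        rw [Fin.sum_univ_eq_sum_range
          (fun j => if s ≤ (heavy b (K i j) (L i j) e).card then (1 : ℝ) else 0) m]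
      rw [Finset.prod_congr rfl (fun i _ => e2 i), Finset.prod_univ_sum,
        Fintype.piFinset_univ]
      refine Finset.sum_congr rfl fun k _ => ?_
      rw [Finset.prod_boole]
      simp
    simp only [e1, Finset.natCast_card_filter]
    exact Finset.sum_comm
  rw [hsum]
  have hlow : ∑ e ∈ W, (M : ℝ) ^ T ≤ ∑ e, ∏ i, (a i e : ℝ) := by
    refine (sum_le_sum fun e he => ?_).trans
      (sum_le_sum_of_subset_of_nonneg (subset_univ W) fun e _ _ =>
        Finset.prod_nonneg fun i _ => Nat.cast_nonneg _)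
    have := (mem_filter.1 he).2
    have h5 : ∏ _i : Fin T, (M : ℝ) ≤ ∏ i, (a i e : ℝ) := by
      refine Finset.prod_le_prod (fun i _ => hMR.le) (fun i _ => ?_)
      exact_mod_cast this i
    rwa [Finset.prod_const, Finset.card_univ, Fintype.card_fin] at h5
  rw [sum_const, nsmul_eq_mul] at hlow
  refine le_trans ?_ hlow
  have hM8 : 4 * (T : ℝ) * (m : ℝ) / b ≤ M := by
    rw [div_le_iff₀ hbR]; linarith
  have hM2 : (4 * (T : ℝ) / b) ^ T * (m : ℝ) ^ T ≤ (M : ℝ) ^ T := by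
    rw [← mul_pow]
    refine pow_le_pow_left₀ (by positivity) ?_ T
    calc 4 * (T : ℝ) / b * m = 4 * (T : ℝ) * (m : ℝ) / b := by ring
      _ ≤ _ := hM8
  calc 1 / 2 * (4 * (T : ℝ) / b) ^ T * (m : ℝ) ^ T * N =
        N / 2 * ((4 * (T : ℝ) / b) ^ T * (m : ℝ) ^ T) := by ring
    _ ≤ (W.card : ℝ) * (M : ℝ) ^ T :=
        mul_le_mul hWc hM2 (by positivity) (Nat.cast_nonneg _)

theorem numeric_chooseb (A : ℕ) (ε : ℝ) (hε : 0 < ε) (s : ℕ) :
    ∃ b : ℕ, 2 ≤ b ∧ A * Real.log (2 * (b : ℝ) ^ 2) / b + Real.log (2 * (s : ℝ)) ≤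
      (ε / 2) * Real.log b := by
  obtain ⟨N, hN⟩ := exists_nat_ge (Real.exp ((3 * A + Real.log (2 * (s : ℝ))) * 2 / ε))
  refine ⟨max 2 N, le_max_left _ _, ?_⟩
  set b := max 2 N with hb
  have hb2 : (2 : ℝ) ≤ (b : ℝ) := by
    have : 2 ≤ b := le_max_left _ _
    exact_mod_cast this
  have hbN : (N : ℝ) ≤ (b : ℝ) := by
    have : N ≤ b := le_max_right _ _
    exact_mod_cast this
  have hbpos : (0 : ℝ) < b := by linarith
  have h1 : (3 * A + Real.log (2 * (s : ℝ))) * 2 / ε ≤ Real.log b := by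
    rw [Real.le_log_iff_exp_le hbpos]
    linarith
  have h2 : 3 * A + Real.log (2 * (s : ℝ)) ≤ (ε / 2) * Real.log b := by
    rw [div_le_iff₀ hε] at h1
    linarith
  have h3 : Real.log (2 * (b : ℝ) ^ 2) ≤ 3 * b := by
    have e1 : Real.log (2 * (b : ℝ) ^ 2) = Real.log 2 + 2 * Real.log b := by
      rw [Real.log_mul (by norm_num) (by positivity), Real.log_pow]
      norm_num
    have e2 : Real.log 2 ≤ Real.log b := Real.log_le_log (by norm_num) hb2
    have e3 : Real.log b ≤ b - 1 := Real.log_le_sub_one_of_pos hbpos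
    rw [e1]
    linarith
  have h4 : A * Real.log (2 * (b : ℝ) ^ 2) / b ≤ 3 * A := by
    rw [div_le_iff₀ hbpos]
    have := mul_le_mul_of_nonneg_left h3 (Nat.cast_nonneg (α := ℝ) A)
    linarith
  linarith

theorem numeric_main (A C : ℕ) (hC : 1 ≤ C) (ε : ℝ) (hε : 0 < ε) (s : ℕ) (hs : 1 ≤ s) (b : ℕ)
    (hb : 2 ≤ b)
    (hb1 : A * Real.log (2 * (b : ℝ) ^ 2) / b + Real.log (2 * (s : ℝ)) ≤
      (ε / 2) * Real.log b) (m : ℕ) (hm1 : 1 ≤ m)
    (hm : Real.log C + Real.log (2 * (b : ℝ) ^ 2) + ε * Real.log b ≤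
      (ε / 2) * Real.log b * m) :
    C * ((2 * (b : ℝ) ^ 2) ^ (A * m / b + 1) * (2 * (s : ℝ)) ^ m) ≤
      ((b : ℝ) ^ (m - 1)) ^ ε := by
  have hb2 : (2 : ℝ) ≤ (b : ℝ) := by exact_mod_cast hb
  have hbpos : (0 : ℝ) < b := by linarith
  have hspos : (0 : ℝ) < s := by exact_mod_cast hs
  have hCpos : (0 : ℝ) < C := by exact_mod_cast hC
  have hL : 0 ≤ Real.log (2 * (b : ℝ) ^ 2) := by
    apply Real.log_nonneg
    nlinarith
  have hpow : (0 : ℝ) < (b : ℝ) ^ (m - 1) := by positivity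
  have hlhs : (0 : ℝ) < C * ((2 * (b : ℝ) ^ 2) ^ (A * m / b + 1) * (2 * (s : ℝ)) ^ m) := by
    positivity
  have hrhs : (0 : ℝ) < ((b : ℝ) ^ (m - 1)) ^ ε := Real.rpow_pos_of_pos hpow ε
  rw [← Real.log_le_log_iff hlhs hrhs]
  rw [Real.log_rpow hpow, Real.log_pow, Real.log_mul hCpos.ne' (by positivity),
    Real.log_mul (by positivity) (by positivity), Real.log_pow, Real.log_pow]
  have hq : ((A * m / b + 1 : ℕ) : ℝ) ≤ A * m / b + 1 := by
    push_cast
    have := @Nat.cast_div_le ℝ _ _ _ (A * m) b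
    push_cast at this
    linarith
  have h1 : ((A * m / b + 1 : ℕ) : ℝ) * Real.log (2 * (b : ℝ) ^ 2) ≤
      (A * m / b + 1) * Real.log (2 * (b : ℝ) ^ 2) := mul_le_mul_of_nonneg_right hq hL
  have h2 : (m : ℝ) * (A * Real.log (2 * (b : ℝ) ^ 2) / b + Real.log (2 * (s : ℝ))) ≤
      m * ((ε / 2) * Real.log b) := mul_le_mul_of_nonneg_left hb1 (by positivity)
  have h3 : ((m - 1 : ℕ) : ℝ) = m - 1 := by
    rw [Nat.cast_sub hm1]
    norm_num
  rw [h3]
  have h4 : (A * (m : ℝ) / b + 1) * Real.log (2 * (b : ℝ) ^ 2) =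
      m * (A * Real.log (2 * (b : ℝ) ^ 2) / b) + Real.log (2 * (b : ℝ) ^ 2) := by
    field_simp
  nlinarith

/-- choice of the base -/
theorem numeric (A C : ℕ) (hC : 1 ≤ C) (ε : ℝ) (hε : 0 < ε) (s : ℕ) (hs : 1 ≤ s) :
    ∃ b : ℕ, 2 ≤ b ∧ ∃ m0 : ℕ, ∀ m n : ℕ, m0 ≤ m → b ^ (m - 1) < n → n ≤ b ^ m →
      C * ((2 * (b : ℝ) ^ 2) ^ (A * m / b + 1) * (2 * (s : ℝ)) ^ m) ≤ (n : ℝ) ^ ε := by
  obtain ⟨b, hb, hb1⟩ := numeric_chooseb A ε hε s
  refine ⟨b, hb, ?_⟩
  have hb2 : (2 : ℝ) ≤ (b : ℝ) := by exact_mod_cast hb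
  have hlogb : 0 < Real.log b := Real.log_pos (by linarith)
  have hc : 0 < (ε / 2) * Real.log b := by positivity
  obtain ⟨M, hM⟩ := exists_nat_ge
    ((Real.log C + Real.log (2 * (b : ℝ) ^ 2) + ε * Real.log b) / ((ε / 2) * Real.log b))
  refine ⟨max 1 M, ?_⟩
  intro m n hm hn1 _
  have hm1 : 1 ≤ m := le_trans (le_max_left _ _) hm
  have hmM : (M : ℝ) ≤ m := by
    have : M ≤ m := le_trans (le_max_right _ _) hm
    exact_mod_cast this
  have hkey : Real.log C + Real.log (2 * (b : ℝ) ^ 2) + ε * Real.log b ≤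
      (ε / 2) * Real.log b * m := by
    rw [div_le_iff₀ hc] at hM
    have := mul_le_mul_of_nonneg_right hmM hc.le
    linarith
  have hmain := numeric_main A C hC ε hε s hs b hb hb1 m hm1 hkey
  have hbn : ((b : ℝ) ^ (m - 1)) ≤ (n : ℝ) := by
    have : b ^ (m - 1) ≤ n := hn1.le
    exact_mod_cast this
  have hbpow : (0 : ℝ) ≤ (b : ℝ) ^ (m - 1) := by positivity
  have hle : ((b : ℝ) ^ (m - 1)) ^ ε ≤ (n : ℝ) ^ ε := Real.rpow_le_rpow hbpow hbn hε.le
  exact hmain.trans hle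

end H152TT
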