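import Mathlib
import Pool.Agent.Helper852.OF.Main
import Pool.Agent.H152.TT.Choice
import Pool.Agent.H152.TT.Rich
import Pool.Agent.H152.TT.Embed
import Pool.Agent.H152.TT.Count

set_option autoImplicit false

open Finset

namespace H152TT

/-- the copies of `K_{t+1,t+1}` are many more than those of `K_{t+1,t}` -/
theorem ratio_grow {n : ℕ} (hn : 1 ≤ n) (R : Fin n → Fin n → Prop) (t : ℕ) (ε : ℝ) (hε : 0 < ε)
    (he : (n : ℝ) ^ (2 - 1 / ((t : ℝ) + 1) + ε) < (edg R : ℝ)) :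
    (n : ℝ) ^ ε * ((hom R (t+1) t).card : ℝ) ≤ ((hom R (t+1) (t+1)).card : ℝ) := by
  have hn0 : (0 : ℝ) < n := by exact_mod_cast hn
  have hn1 : (1 : ℝ) ≤ n := by exact_mod_cast hn
  have h1 := hom_grow R t t
  have ht : (0 : ℝ) < (t : ℝ) + 1 := by positivity
  have h2 : (n : ℝ) ^ (2 * t + 1) * (n : ℝ) ^ ε ≤ (edg R : ℝ) ^ (t+1) := by
    have h3 : ((n : ℝ) ^ (2 - 1 / ((t : ℝ) + 1) + ε)) ^ (t+1) ≤ (edg R : ℝ) ^ (t+1) :=
      pow_le_pow_left₀ (Real.rpow_nonneg hn0.le _) he.le _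
    refine le_trans ?_ h3
    rw [← Real.rpow_natCast ((n : ℝ) ^ (2 - 1 / ((t : ℝ) + 1) + ε)) (t+1), ← Real.rpow_mul hn0.le,
      ← Real.rpow_natCast (n : ℝ) (2 * t + 1), ← Real.rpow_add hn0]
    refine Real.rpow_le_rpow_of_exponent_le hn1 ?_
    push_cast
    have h4 : (2 - 1 / ((t : ℝ) + 1) + ε) * ((t : ℝ) + 1) = 2 * t + 1 + ε * (t + 1) := by
      field_simp
      ring
    rw [h4]
    have h5 : ε ≤ ε * ((t : ℝ) + 1) := le_mul_of_one_le_right hε.le (by linarith [Nat.cast_nonneg (α := ℝ) t])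
    linarith
  have h6 : (0 : ℝ) ≤ ((hom R (t+1) t).card : ℝ) := Nat.cast_nonneg _
  have h7 : (n : ℝ) ^ (2 * t + 1) * ((n : ℝ) ^ ε * ((hom R (t+1) t).card : ℝ)) ≤
      (n : ℝ) ^ (2 * t + 1) * ((hom R (t+1) (t+1)).card : ℝ) := by
    refine le_trans ?_ h1
    rw [← mul_assoc]
    exact mul_le_mul_of_nonneg_right h2 h6
  exact le_of_mul_le_mul_left h7 (by positivity)

theorem main (kk t : ℕ) (P H : SimpleGraph (Fin kk)) (hPH : P ≤ H) (ord : Equiv.Perm (Fin kk))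
    (hch : ∀ u v w, H.Adj u w → H.Adj v w → ord u < ord w → ord v < ord w → u ≠ v → H.Adj u v)
    (τ : Fin kk → Fin ((t+1)+(t+1))) (hτ : ∀ u v, H.Adj u v → τ u ≠ τ v) (hτm : Monotone τ)
    (hside : ∀ u v, P.Adj u v → ((τ u).val < t+1 ↔ t+1 ≤ (τ v).val))
    (ε : ℝ) (hε : 0 < ε) : ∃ N : ℕ, ∀ n : ℕ, N ≤ n → ∀ G : SimpleGraph (Fin n),
        (¬ ∃ f : Fin kk → Fin n, StrictMono f ∧ ∀ i j : Fin kk, P.Adj i j → G.Adj (f i) (f j)) →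
        (G.edgeSet.ncard : ℝ) ≤ (n : ℝ) ^ (2 - 1 / ((t : ℝ) + 1) + ε) := by
  classical
  obtain ⟨T, hT⟩ : ∃ T : ℕ, T = (t+1)+(t+1) := ⟨_, rfl⟩
  obtain ⟨fc, hfc⟩ : ∃ fc : ℕ, fc = ((t+1).factorial) ^ 2 := ⟨_, rfl⟩
  have hfc1 : 1 ≤ fc := by rw [hfc]; exact Nat.one_le_pow _ _ (Nat.factorial_pos _)
  obtain ⟨sq, hsq⟩ : ∃ sq : ℕ, sq = (t+1) ^ 2 := ⟨_, rfl⟩
  obtain ⟨Cst, hCst⟩ : ∃ Cst : ℕ, Cst = 4 * T * (2 * fc) + 4 * sq := ⟨_, rfl⟩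
  have hC1 : 1 ≤ Cst := by
    rw [hCst, hT]
    have : 1 ≤ (t + 1 + (t + 1)) * fc := Nat.mul_pos (by omega) hfc1
    nlinarith
  obtain ⟨b, hb2, m0, hnum⟩ := numeric (4 * T) Cst hC1 ε hε (kk + T) (by omega)
  have hb1 : 1 ≤ b := by omega
  have hT1 : 1 ≤ T := by omega
  have hTR : (0 : ℝ) < (T : ℝ) := by exact_mod_cast hT1
  have hbR : (0 : ℝ) < (b : ℝ) := by exact_mod_cast hb1
  obtain ⟨m1, hcore⟩ := coreM T b (kk + T) kk hb1 hT1 (1 / 2 * (4 * (T : ℝ) / b) ^ T) (by positivity)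
  refine ⟨b ^ (m0 + m1 + 1) + 2, ?_⟩
  intro n hn G hno
  by_contra hcon
  push Not at hcon
  set m := Nat.clog b n with hm
  have hbb : 1 < b := by omega
  have hn1 : 1 < n := by
    have : 0 < b ^ (m0 + m1 + 1) := by positivity
    omega
  have hmlt : b ^ (m - 1) < n := by
    have := Nat.pow_pred_clog_lt_self hbb hn1
    simpa using this
  have hmle : n ≤ b ^ m := Nat.le_pow_clog hbb n
  have hmbig : m0 + m1 + 1 ≤ m := by
    by_contra hlt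
    have h3 : b ^ m ≤ b ^ (m0 + m1 + 1) := Nat.pow_le_pow_right hb1 (by omega)
    omega
  have hnumm := hnum m n (by omega) hmlt hmle
  obtain ⟨W, hW⟩ : ∃ W : ℝ, W = (2 * (b : ℝ) ^ 2) ^ (4 * T * m / b + 1) *
    (2 * ((kk + T : ℕ) : ℝ)) ^ m := ⟨_, rfl⟩
  have hkT : (1 : ℝ) ≤ ((kk + T : ℕ) : ℝ) := by
    have : 1 ≤ kk + T := by omega
    exact_mod_cast this
  have hbR1 : (1 : ℝ) ≤ (b : ℝ) := by exact_mod_cast hb1
  have hW1 : 1 ≤ W := by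
    rw [hW]
    have e1 : (1 : ℝ) ≤ 2 * (b : ℝ) ^ 2 := by nlinarith
    have e2 : (1 : ℝ) ≤ 2 * ((kk + T : ℕ) : ℝ) := by linarith
    exact one_le_mul_of_one_le_of_one_le (one_le_pow₀ e1) (one_le_pow₀ e2)
  rw [← hW] at hnumm
  rw [← edg_fwd] at hcon
  -- counting
  obtain ⟨Y, hY⟩ : ∃ Y : ℝ, Y = ((hom (fwd G) (t+1) (t+1)).card : ℝ) := ⟨_, rfl⟩
  obtain ⟨Y1, hY1⟩ : ∃ Y1 : ℝ, Y1 = ((hom (fwd G) (t+1) t).card : ℝ) := ⟨_, rfl⟩
  obtain ⟨Y2, hY2⟩ : ∃ Y2 : ℝ, Y2 = ((hom (fwd G) t (t+1)).card : ℝ) := ⟨_, rfl⟩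
  obtain ⟨q, hq⟩ : ∃ q : ℝ, q = (n : ℝ) ^ ε := ⟨_, rfl⟩
  have hg1 : q * Y1 ≤ Y := by
    rw [hq, hY1, hY]
    exact ratio_grow hn1.le (fwd G) t ε hε hcon
  have hg2 : q * Y2 ≤ Y := by
    rw [hq, hY2, hY, hom_swap (fwd G) t (t+1), hom_swap (fwd G) (t+1) (t+1)]
    exact ratio_grow hn1.le (fun u v => fwd G v u) t ε hε (by rw [← edg_swap]; exact hcon)
  have hepos : 0 < edg (fwd G) := by
    have h1 : (0 : ℝ) ≤ (n : ℝ) ^ (2 - 1 / ((t : ℝ) + 1) + ε) :=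
      Real.rpow_nonneg (Nat.cast_nonneg _) _
    have h2 : (0 : ℝ) < (edg (fwd G) : ℝ) := lt_of_le_of_lt h1 hcon
    exact_mod_cast h2
  have hYpos : 0 < Y := by
    rw [hY]
    exact_mod_cast hom_pos (fwd G) hepos t (t+1)
  have hY10 : 0 ≤ Y1 := by rw [hY1]; exact Nat.cast_nonneg _
  have hY20 : 0 ≤ Y2 := by rw [hY2]; exact Nat.cast_nonneg _
  obtain ⟨N, hN⟩ : ∃ N : ℝ, N = (Fintype.card (Cfg G ((t+1)+(t+1)) (t+1)) : ℝ) := ⟨_, rfl⟩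
  have hlow : Y ≤ fc * N + (sq * Y2 + sq * Y1) := by
    have := hom_le_cfg (t := t) G
    rw [← hfc, ← hsq] at this
    rw [hY, hY1, hY2, hN]
    exact_mod_cast this
  have hfcR : (1 : ℝ) ≤ (fc : ℝ) := by exact_mod_cast hfc1
  have hsqR : (0 : ℝ) ≤ (sq : ℝ) := Nat.cast_nonneg _
  have hCR : (Cst : ℝ) = 4 * T * (2 * fc) + 4 * sq := by rw [hCst]; push_cast; ring
  have hCq : (4 * (T : ℝ) * (2 * fc) + 4 * sq) * W ≤ q := by
    rw [← hCR, hq]; exact hnumm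
  have hq4 : 4 * (sq : ℝ) ≤ q := by
    have : (4 * (T : ℝ) * (2 * fc) + 4 * sq) * 1 ≤ (4 * (T : ℝ) * (2 * fc) + 4 * sq) * W :=
      mul_le_mul_of_nonneg_left hW1 (by positivity)
    have h8 : 0 ≤ 4 * (T : ℝ) * (2 * fc) := by positivity
    linarith
  have hqT : 4 * (T : ℝ) * (2 * fc) * W ≤ q := by
    have : 0 ≤ 4 * (sq : ℝ) * W := by positivity
    linarith
  have hhalf : Y ≤ 2 * fc * N := by
    have e1 : 4 * (sq : ℝ) * Y1 ≤ Y := (mul_le_mul_of_nonneg_right hq4 hY10).trans hg1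
    have e2 : 4 * (sq : ℝ) * Y2 ≤ Y := (mul_le_mul_of_nonneg_right hq4 hY20).trans hg2
    linarith
  have hNpos : 0 < N := by
    by_contra hc
    have : 2 * (fc : ℝ) * N ≤ 0 := mul_nonpos_of_nonneg_of_nonpos (by positivity) (not_lt.1 hc)
    linarith
  have hcardpos : 0 < Fintype.card (Cfg G ((t+1)+(t+1)) (t+1)) := by
    rw [hN] at hNpos
    exact_mod_cast hNpos
  have : Nonempty (Cfg G ((t+1)+(t+1)) (t+1)) := Fintype.card_pos_iff.1 hcardpos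
  have hkey : ∀ Z : ℝ, 0 ≤ Z → q * Z ≤ Y → 4 * (T : ℝ) * (Z * W) ≤ N := by
    intro Z hZ hZY
    have e1 : 4 * (T : ℝ) * (2 * fc) * W * Z ≤ q * Z := mul_le_mul_of_nonneg_right hqT hZ
    have e2 : (2 * (fc : ℝ)) * (4 * (T : ℝ) * (Z * W)) ≤ (2 * fc) * N := by
      calc (2 * (fc : ℝ)) * (4 * (T : ℝ) * (Z * W)) = 4 * (T : ℝ) * (2 * fc) * W * Z := by ring
        _ ≤ q * Z := e1
        _ ≤ Y := hZY
        _ ≤ _ := hhalf
    exact le_of_mul_le_mul_left e2 (by positivity)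
  subst hT
  have himg : ∀ i : Fin ((t+1)+(t+1)), ((((univ : Finset (Cfg G ((t+1)+(t+1)) (t+1))).image
      (Kt G ((t+1)+(t+1)) (t+1) b m i 0)).card : ℕ) : ℝ) ≤ Y1 ∨
      ((((univ : Finset (Cfg G ((t+1)+(t+1)) (t+1))).image
      (Kt G ((t+1)+(t+1)) (t+1) b m i 0)).card : ℕ) : ℝ) ≤ Y2 := by
    intro i
    refine Fin.addCases (fun i' => ?_) (fun i' => ?_) i
    · right
      rw [hY2]
      exact_mod_cast image_left G hmle i'
    · left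
      rw [hY1]
      exact_mod_cast image_right G hmle i'
  have hrich := rich_sumM ((t+1)+(t+1)) b (kk + ((t+1)+(t+1))) hT1 hb1 (by omega)
    (Kt G ((t+1)+(t+1)) (t+1) b m) (Lt G ((t+1)+(t+1)) (t+1) b m)
    (Kt_iff G ((t+1)+(t+1)) (t+1) b m) (fun i k e => Nat.mod_lt _ (by omega)) m
    (4 * ((t+1)+(t+1)) * m / b + 1) (Nat.le_add_left 1 _)
    (by
      have h3 := Nat.div_add_mod (4 * ((t+1)+(t+1)) * m) b
      have h4 := Nat.mod_lt (4 * ((t+1)+(t+1)) * m) (show 0 < b by omega)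
      have h5 : b * (4 * ((t+1)+(t+1)) * m / b + 1) = b * (4 * ((t+1)+(t+1)) * m / b) + b := by ring
      rw [h5]
      omega)
    (Kt_inj G ((t+1)+(t+1)) (t+1) b m)
    (by
      intro i
      rw [← hN]
      have h0 : (0 : ℝ) ≤ ((((univ : Finset (Cfg G ((t+1)+(t+1)) (t+1))).image
        (Kt G ((t+1)+(t+1)) (t+1) b m i 0)).card : ℕ) : ℝ) := Nat.cast_nonneg _
      rw [mul_assoc (((univ.image _).card : ℕ) : ℝ) _ _, ← hW]
      have hq0 : 0 ≤ q := by rw [hq]; exact Real.rpow_nonneg (Nat.cast_nonneg _) _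
      rcases himg i with h | h
      · exact hkey _ h0 ((mul_le_mul_of_nonneg_left h hq0).trans hg1)
      · exact hkey _ h0 ((mul_le_mul_of_nonneg_left h hq0).trans hg2))
  obtain ⟨k, hk, S, hs, U, hU, hmono, hmove⟩ :=
    hcore m (by omega) (Cfg G ((t+1)+(t+1)) (t+1)) (Fin ((t+1)+(t+1)) → ℕ)
      (Kt G ((t+1)+(t+1)) (t+1) b m) (Lt G ((t+1)+(t+1)) (t+1) b m)
      (Kt_iff G ((t+1)+(t+1)) (t+1) b m) hrich
  exact hno (finishM G P H hPH ord hch τ hτ hτm hside k hk S hs U hU hmono hmove)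

end H152TT
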