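import Mathlib

set_option autoImplicit false

namespace H152TT

/-- ordered containment: an increasing map of the vertices sending edges to edges -/
def OContains {k n : ℕ} (P : SimpleGraph (Fin k)) (G : SimpleGraph (Fin n)) : Prop :=
  ∃ f : Fin k → Fin n, StrictMono f ∧ ∀ i j, P.Adj i j → G.Adj (f i) (f j)

/-- the ordered extremal number: the maximum number of edges of a graph on the ordered vertex
set `Fin n` that avoids `P` -/
noncomputable def exOrd {k : ℕ} (P : SimpleGraph (Fin k)) (n : ℕ) : ℕ :=
  sSup {m : ℕ | ∃ G : SimpleGraph (Fin n), ¬ OContains P G ∧ G.edgeSet.ncard = m}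

/-- the ratio of the ordered and the unordered extremal numbers -/
noncomputable def ratio {k : ℕ} (P : SimpleGraph (Fin k)) (n : ℕ) : ℝ :=
  (exOrd P n : ℝ) / (SimpleGraph.extremalNumber n P : ℝ)

/-- ordered bipartite: for some `m` every edge joins a vertex below `m` to a vertex at least `m` -/
def OrdBip {k : ℕ} (P : SimpleGraph (Fin k)) : Prop :=
  ∃ m : ℕ, ∀ u v, P.Adj u v → (u.val < m ↔ m ≤ v.val)

/-- `P` lies in a graph `H` which has an elimination order `ord` (the neighbours of a vertex that
come before it in `ord` are pairwise adjacent), and the vertices of `H` can be coloured with the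
colours `0, ..., 2s-1` in a way that is non-decreasing along the vertex order, proper for `H`, and
such that every edge of `P` joins a colour below `s` to a colour at least `s` -/
def Tracked {k : ℕ} (s : ℕ) (P : SimpleGraph (Fin k)) : Prop :=
  ∃ (H : SimpleGraph (Fin k)) (ord τ : Fin k → ℕ), P ≤ H ∧ Function.Injective ord ∧
    (∀ u v w, H.Adj u w → H.Adj v w → ord u < ord w → ord v < ord w → u ≠ v → H.Adj u v) ∧
    (∀ u, τ u < 2 * s) ∧ Monotone τ ∧ (∀ u v, H.Adj u v → τ u ≠ τ v) ∧
    (∀ u v, P.Adj u v → (τ u < s ↔ s ≤ τ v))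

/-- `P` is ordered bipartite and deleting one edge destroys all its cycles -/
def OneCycle {k : ℕ} (P : SimpleGraph (Fin k)) : Prop :=
  OrdBip P ∧ ∃ e : Sym2 (Fin k), (P.deleteEdges {e}).IsAcyclic

/-- `P` is ordered bipartite and deleting at most `a` vertices of the initial part and at most
`a` vertices of the final part destroys all its cycles -/
def FewHubs {k : ℕ} (a : ℕ) (P : SimpleGraph (Fin k)) : Prop :=
  ∃ (m : ℕ) (A : Finset (Fin k)), (∀ u v, P.Adj u v → (u.val < m ↔ m ≤ v.val)) ∧
    (A.filter (fun x => x.val < m)).card ≤ a ∧ (A.filter (fun x => m ≤ x.val)).card ≤ a ∧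
    (P.induce ((A : Set (Fin k))ᶜ)).IsAcyclic

end H152TT
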