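import Mathlib
import Pool.Agent.Helper852.OF.Leaf

set_option autoImplicit false

open Finset

namespace H152TT

/-- elimination orders from simplicial vertices -/
theorem exists_ord_aux {k : ℕ} (H : SimpleGraph (Fin k))
    (hs : ∀ S : Finset (Fin k), S.Nonempty → ∃ w ∈ S, ∀ u ∈ S, ∀ v ∈ S, H.Adj w u → H.Adj w v →
      u ≠ v → H.Adj u v) :
    ∀ n : ℕ, ∀ S : Finset (Fin k), S.card = n → ∃ ord : Fin k → ℕ, (∀ u ∈ S, ord u < n) ∧
      (∀ u ∈ S, ∀ v ∈ S, ord u = ord v → u = v) ∧
      (∀ u ∈ S, ∀ v ∈ S, ∀ w ∈ S, H.Adj u w → H.Adj v w → ord u < ord w → ord v < ord w →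
        u ≠ v → H.Adj u v) := by
  classical
  intro n
  induction n with
  | zero =>
    intro S hS
    rw [Finset.card_eq_zero] at hS
    subst hS
    refine ⟨fun _ => 0, ?_, ?_, ?_⟩
    · intro u hu; simp at hu
    · intro u hu; simp at hu
    · intro u hu; simp at hu
  | succ n ih =>
    intro S hS
    have hne : S.Nonempty := by
      rw [← Finset.card_pos]; omega
    obtain ⟨w0, hw0, hcl⟩ := hs S hne
    obtain ⟨ord, h1, h2, h3⟩ := ih (S.erase w0) (by rw [Finset.card_erase_of_mem hw0, hS]; rfl)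
    refine ⟨Function.update ord w0 n, ?_, ?_, ?_⟩
    · intro u hu
      by_cases h : u = w0
      · subst h; rw [Function.update_self]; omega
      · rw [Function.update_of_ne h]
        have := h1 u (Finset.mem_erase.2 ⟨h, hu⟩)
        omega
    · intro u hu v hv huv
      by_cases h : u = w0
      · by_cases h' : v = w0
        · rw [h, h']
        · rw [h, Function.update_self, Function.update_of_ne h'] at huv
          have := h1 v (Finset.mem_erase.2 ⟨h', hv⟩)
          omega
      · by_cases h' : v = w0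
        · rw [h', Function.update_self, Function.update_of_ne h] at huv
          have := h1 u (Finset.mem_erase.2 ⟨h, hu⟩)
          omega
        · rw [Function.update_of_ne h, Function.update_of_ne h'] at huv
          exact h2 u (Finset.mem_erase.2 ⟨h, hu⟩) v (Finset.mem_erase.2 ⟨h', hv⟩) huv
    · intro u hu v hv w hw huw hvw ho1 ho2 huv
      by_cases hw' : w = w0
      · subst hw'
        exact hcl u hu v hv huw.symm hvw.symm huv
      · have hwn := h1 w (Finset.mem_erase.2 ⟨hw', hw⟩)
        have hu' : u ≠ w0 := by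
          rintro rfl
          rw [Function.update_self, Function.update_of_ne hw'] at ho1
          omega
        have hv' : v ≠ w0 := by
          rintro rfl
          rw [Function.update_self, Function.update_of_ne hw'] at ho2
          omega
        rw [Function.update_of_ne hw', Function.update_of_ne hu'] at ho1
        rw [Function.update_of_ne hw', Function.update_of_ne hv'] at ho2
        exact h3 u (Finset.mem_erase.2 ⟨hu', hu⟩) v (Finset.mem_erase.2 ⟨hv', hv⟩) w
          (Finset.mem_erase.2 ⟨hw', hw⟩) huw hvw ho1 ho2 huv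

theorem exists_ord {k : ℕ} (H : SimpleGraph (Fin k))
    (hs : ∀ S : Finset (Fin k), S.Nonempty → ∃ w ∈ S, ∀ u ∈ S, ∀ v ∈ S, H.Adj w u → H.Adj w v →
      u ≠ v → H.Adj u v) :
    ∃ ord : Fin k → ℕ, Function.Injective ord ∧ ∀ u v w, H.Adj u w → H.Adj v w →
      ord u < ord w → ord v < ord w → u ≠ v → H.Adj u v := by
  obtain ⟨ord, _, h2, h3⟩ := exists_ord_aux H hs _ univ rfl
  exact ⟨ord, fun u v h => h2 u (mem_univ _) v (mem_univ _) h,
    fun u v w => h3 u (mem_univ _) v (mem_univ _) w (mem_univ _)⟩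

/-- an injective rank function gives a permutation with the same order -/
theorem perm_of_rank {k : ℕ} (ord : Fin k → ℕ) (hinj : Function.Injective ord) :
    ∃ σ : Equiv.Perm (Fin k), ∀ u v, σ u < σ v ↔ ord u < ord v := by
  classical
  have hlt : ∀ u : Fin k, ((univ : Finset (Fin k)).filter (fun v => ord v < ord u)).card < k := by
    intro u
    have h1 : (univ : Finset (Fin k)).filter (fun v => ord v < ord u) ⊂ univ := by
      rw [Finset.ssubset_univ_iff]
      intro h
      have : u ∈ (univ : Finset (Fin k)).filter (fun v => ord v < ord u) := by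
        rw [h]; exact mem_univ _
      exact lt_irrefl _ (mem_filter.1 this).2
    have h2 := Finset.card_lt_card h1
    rwa [Finset.card_univ, Fintype.card_fin] at h2
  let f : Fin k → Fin k := fun u =>
    ⟨((univ : Finset (Fin k)).filter (fun v => ord v < ord u)).card, hlt u⟩
  have hmono : ∀ u v, ord u < ord v → f u < f v := by
    intro u v h
    rw [Fin.lt_def]
    refine Finset.card_lt_card (s := (univ : Finset (Fin k)).filter (fun w => ord w < ord u))
      (t := (univ : Finset (Fin k)).filter (fun w => ord w < ord v)) ?_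
    rw [Finset.ssubset_iff_of_subset]
    · exact ⟨u, mem_filter.2 ⟨mem_univ _, h⟩, fun h' => lt_irrefl _ (mem_filter.1 h').2⟩
    · intro w hw
      exact mem_filter.2 ⟨mem_univ _, (mem_filter.1 hw).2.trans h⟩
  have hfinj : Function.Injective f := by
    intro u v h
    by_contra hne
    rcases lt_trichotomy (ord u) (ord v) with h1 | h1 | h1
    · exact (hmono u v h1).ne h
    · exact hne (hinj h1)
    · exact (hmono v u h1).ne h.symm
  refine ⟨Equiv.ofBijective f (Finite.injective_iff_bijective.1 hfinj), ?_⟩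
  intro u v
  simp only [Equiv.ofBijective_apply]
  constructor
  · intro h
    by_contra hcon
    rcases lt_or_eq_of_le (not_lt.1 hcon) with h1 | h1
    · exact lt_asymm h (hmono v u h1)
    · rw [hinj h1] at h
      exact lt_irrefl _ h
  · exact hmono u v

theorem cycleGraph_nbr (n : ℕ) (hn : 2 ≤ n) (i : Fin n) : ∃ j, (SimpleGraph.cycleGraph n).Adj i j := by
  obtain ⟨m, rfl⟩ : ∃ m, n = m + 2 := ⟨n - 2, by omega⟩
  exact ⟨i + 1, by rw [SimpleGraph.cycleGraph_adj]; right; simp⟩

/-- a graph obtained by isolating the vertices of a set -/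
def isolate {k : ℕ} (P : SimpleGraph (Fin k)) (A : Finset (Fin k)) : SimpleGraph (Fin k) where
  Adj u v := P.Adj u v ∧ u ∉ A ∧ v ∉ A
  symm := ⟨fun _ _ h => ⟨h.1.symm, h.2.2, h.2.1⟩⟩
  loopless := ⟨fun _ h => h.1.ne rfl⟩

theorem isolate_acyclic {k : ℕ} (P : SimpleGraph (Fin k)) (A : Finset (Fin k))
    (hA : (P.induce ((A : Set (Fin k))ᶜ)).IsAcyclic) : (isolate P A).IsAcyclic := by
  rw [SimpleGraph.isAcyclic_iff_free_cycleGraph] at hA ⊢
  intro n hn hcon
  apply hA n hn
  obtain ⟨f⟩ := hcon
  have hex : ∀ i : Fin n, f i ∉ A := by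
    intro i
    obtain ⟨j, hj⟩ := cycleGraph_nbr n (by omega) i
    exact (f.toHom.map_adj hj).2.1
  refine ⟨⟨⟨fun i => ⟨f i, hex i⟩, ?_⟩, ?_⟩⟩
  · intro i j hij
    exact (f.toHom.map_adj hij).1
  · intro i j hij
    apply f.injective
    exact congrArg Subtype.val hij

/-- deleting hubs leaves a forest: the hubs joined to everything give a chordal graph -/
theorem hub_simplicial {k : ℕ} (P : SimpleGraph (Fin k)) (A : Finset (Fin k))
    (hA : (isolate P A).IsAcyclic) :
    ∀ S : Finset (Fin k), S.Nonempty → ∃ w ∈ S, ∀ u ∈ S, ∀ v ∈ S,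
      (w ≠ u ∧ (P.Adj w u ∨ w ∈ A ∨ u ∈ A)) → (w ≠ v ∧ (P.Adj w v ∨ w ∈ A ∨ v ∈ A)) →
      u ≠ v → (u ≠ v ∧ (P.Adj u v ∨ u ∈ A ∨ v ∈ A)) := by
  classical
  intro S hS
  by_cases hSA : (S \ A).Nonempty
  · obtain ⟨w, hw, hl⟩ := H852OF.leaf (isolate P A) hA (S \ A) hSA
    have hwA : w ∉ A := (mem_sdiff.1 hw).2
    refine ⟨w, (mem_sdiff.1 hw).1, ?_⟩
    intro u hu v hv h1 h2 huv
    refine ⟨huv, ?_⟩
    by_cases huA : u ∈ A
    · exact Or.inr (Or.inl huA)
    · by_cases hvA : v ∈ A
      · exact Or.inr (Or.inr hvA)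
      · exfalso
        apply huv
        have a1 : P.Adj w u := by
          rcases h1.2 with h | h | h
          · exact h
          · exact absurd h hwA
          · exact absurd h huA
        have a2 : P.Adj w v := by
          rcases h2.2 with h | h | h
          · exact h
          · exact absurd h hwA
          · exact absurd h hvA
        exact hl u (mem_sdiff.2 ⟨hu, huA⟩) v (mem_sdiff.2 ⟨hv, hvA⟩) ⟨a1, hwA, huA⟩ ⟨a2, hwA, hvA⟩
  · obtain ⟨w, hw⟩ := hS
    have hall : ∀ u ∈ S, u ∈ A := by
      intro u hu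
      by_contra h
      exact hSA ⟨u, mem_sdiff.2 ⟨hu, h⟩⟩
    refine ⟨w, hw, ?_⟩
    intro u hu v _ _ _ huv
    exact ⟨huv, Or.inr (Or.inl (hall u hu))⟩

end H152TT
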