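import Mathlib
import Pool.Agent.H152.TT.Order

set_option autoImplicit false

open Finset

namespace H152TT

/-- in an acyclic graph, outside a connected set, some vertex has at most one neighbour -/
theorem leaf_outside {k : ℕ} (F : SimpleGraph (Fin k)) (hF : F.IsAcyclic) (C S : Finset (Fin k))
    (a : Fin k) (hC : ∀ c ∈ C, ∃ p : F.Walk a c, ∀ x ∈ p.support, x ∈ C)
    (hS : (S \ C).Nonempty) :
    ∃ w ∈ S \ C, ∀ u ∈ S ∪ C, ∀ v ∈ S ∪ C, F.Adj w u → F.Adj w v → u = v := by
  classical
  have hC' : ∀ c ∈ C, ∃ p : F.Walk a c, p.IsPath ∧ ∀ x ∈ p.support, x ∈ C := by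
    intro c hc
    obtain ⟨p, hp⟩ := hC c hc
    exact ⟨p.bypass, p.bypass_isPath, fun x hx => hp x (p.support_bypass_subset_support hx)⟩
  let Q : ℕ → Prop := fun L => ∃ w ∈ S \ C, ∃ p : F.Walk a w, p.IsPath ∧ p.length = L ∧
    ∀ x ∈ p.support, x ∈ S ∪ C
  by_cases hQ : ∃ L, Q L
  · have hbound : ∀ L, Q L → L < k := by
      rintro L ⟨w, _, p, hp, hl, _⟩
      have := hp.length_lt
      rw [Fintype.card_fin] at this
      omega
    let A := (Finset.range k).filter (fun L => Q L)
    have hA : A.Nonempty := by
      obtain ⟨L, hL⟩ := hQ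
      exact ⟨L, mem_filter.2 ⟨mem_range.2 (hbound L hL), hL⟩⟩
    obtain ⟨L, hL, hmax⟩ := Finset.exists_max_image A (fun L => L) hA
    obtain ⟨w, hw, p, hp, hl, hsup⟩ := (mem_filter.1 hL).2
    have hwC : w ∉ C := (mem_sdiff.1 hw).2
    have key : ∀ u ∈ S ∪ C, F.Adj w u → u = p.penultimate := by
      intro u hu hadj
      apply hF.eq_penultimate_of_adj_end hp hadj
      by_contra hns
      have hcp := hp.concat hns hadj
      by_cases huC : u ∈ C
      · obtain ⟨q, hq, hqC⟩ := hC' u huC
        have he : p.concat hadj = q :=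
          Subtype.mk.inj <| (hF.subsingleton_path a u).elim ⟨p.concat hadj, hcp⟩ ⟨q, hq⟩
        apply hwC
        apply hqC
        rw [← he]
        exact p.support_subset_support_concat _ p.end_mem_support
      · have huS : u ∈ S \ C := by
          rcases mem_union.1 hu with h | h
          · exact mem_sdiff.2 ⟨h, huC⟩
          · exact absurd h huC
        have hQ1 : Q (L + 1) := by
          refine ⟨u, huS, p.concat hadj, hcp, ?_, ?_⟩
          · rw [SimpleGraph.Walk.length_concat, hl]
          · intro x hx
            rw [SimpleGraph.Walk.support_concat, List.mem_append, List.mem_singleton] at hx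
            rcases hx with h | h
            · exact hsup x h
            · rw [h]; exact hu
        have := hmax (L + 1) (mem_filter.2 ⟨mem_range.2 (hbound _ hQ1), hQ1⟩)
        omega
    exact ⟨w, hw, fun u hu v hv h1 h2 => (key u hu h1).trans (key v hv h2).symm⟩
  · obtain ⟨w, hw, hl⟩ := H852OF.leaf F hF (S \ C) hS
    have hwC : w ∉ C := (mem_sdiff.1 hw).2
    have hno : ∀ c ∈ C, ¬ F.Adj w c := by
      intro c hc hadj
      apply hQ
      obtain ⟨q, hq, hqC⟩ := hC' c hc
      have hwq : w ∉ q.support := fun h => hwC (hqC w h)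
      refine ⟨_, w, hw, q.concat hadj.symm, hq.concat hwq hadj.symm, rfl, ?_⟩
      intro x hx
      rw [SimpleGraph.Walk.support_concat, List.mem_append, List.mem_singleton] at hx
      rcases hx with h | h
      · exact mem_union_right _ (hqC x h)
      · rw [h]; exact mem_union_left _ (mem_sdiff.1 hw).1
    refine ⟨w, hw, ?_⟩
    intro u hu v hv h1 h2
    have huS : u ∈ S \ C := by
      by_cases h : u ∈ C
      · exact absurd h1 (hno u h)
      · rcases mem_union.1 hu with h' | h'
        · exact mem_sdiff.2 ⟨h', h⟩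
        · exact absurd h' h
    have hvS : v ∈ S \ C := by
      by_cases h : v ∈ C
      · exact absurd h2 (hno v h)
      · rcases mem_union.1 hv with h' | h'
        · exact mem_sdiff.2 ⟨h', h⟩
        · exact absurd h' h
    exact hl u huS v hvS h1 h2

/-- isolating a vertex of the unique cycle gives an acyclic graph -/
theorem isolate_path_acyclic {k : ℕ} (P F : SimpleGraph (Fin k)) (a b : Fin k)
    (hF : F.IsAcyclic) (hP : ∀ u v, P.Adj u v → F.Adj u v ∨ (u = a ∧ v = b) ∨ (u = b ∧ v = a))
    (π : F.Walk a b) (hπ : π.IsPath) (p : Fin k) (hp : p ∈ π.support) :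
    (isolate P {p}).IsAcyclic := by
  classical
  have hle : isolate F {p} ≤ F := fun u v h => h.1
  have hac : (isolate F {p}).IsAcyclic := hF.anti hle
  by_cases hab : a = p ∨ b = p
  · refine hac.anti ?_
    intro u v h
    rcases hP u v h.1 with h' | h' | h'
    · exact ⟨h', h.2.1, h.2.2⟩
    · exfalso
      rcases hab with e | e
      · exact h.2.1 (by rw [h'.1, e]; exact mem_singleton_self _)
      · exact h.2.2 (by rw [h'.2, e]; exact mem_singleton_self _)
    · exfalso
      rcases hab with e | e
      · exact h.2.2 (by rw [h'.2, e]; exact mem_singleton_self _)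
      · exact h.2.1 (by rw [h'.1, e]; exact mem_singleton_self _)
  · rw [not_or] at hab
    have hnr : ¬ (isolate F {p}).Reachable a b := by
      rintro ⟨q⟩
      have hq : (q.bypass.mapLe hle).IsPath := q.bypass_isPath.mapLe hle
      have he : q.bypass.mapLe hle = π :=
        Subtype.mk.inj <| (hF.subsingleton_path a b).elim ⟨_, hq⟩ ⟨π, hπ⟩
      have hmem : p ∈ q.bypass.support := by
        rw [← SimpleGraph.Walk.support_mapLe_eq_support hle, he]
        exact hp
      -- every vertex of a walk of positive length has a neighbour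
      have hnbr : ∀ {x y : Fin k} (r : (isolate F {p}).Walk x y), x ≠ p → p ∉ r.support := by
        intro x y r
        induction r with
        | nil =>
          intro hx h
          rw [SimpleGraph.Walk.support_nil, List.mem_singleton] at h
          exact hx h.symm
        | @cons u v w h r ih =>
          intro hx h'
          rw [SimpleGraph.Walk.support_cons, List.mem_cons] at h'
          rcases h' with h' | h'
          · exact hx h'.symm
          · refine ih ?_ h'
            intro e
            exact h.2.2 (by rw [e]; exact mem_singleton_self _)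
      exact hnbr _ hab.1 hmem
    refine (hac.sup_edge_of_not_reachable hnr).anti ?_
    intro u v h
    rw [SimpleGraph.sup_adj]
    rcases hP u v h.1 with h' | h' | h'
    · exact Or.inl ⟨h', h.2.1, h.2.2⟩
    · right
      rw [SimpleGraph.edge_adj]
      exact ⟨Or.inl h', h.1.ne⟩
    · right
      rw [SimpleGraph.edge_adj]
      exact ⟨Or.inr h', h.1.ne⟩

/-- one cycle with trees attached: joining a vertex of the cycle to the whole cycle gives a
chordal graph -/
theorem uni_simplicial {k : ℕ} (P F : SimpleGraph (Fin k)) (a b : Fin k)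
    (hF : F.IsAcyclic) (hP : ∀ u v, P.Adj u v → F.Adj u v ∨ (u = a ∧ v = b) ∨ (u = b ∧ v = a))
    (π : F.Walk a b) (hπ : π.IsPath) (p : Fin k) (hp : p ∈ π.support) :
    ∀ S : Finset (Fin k), S.Nonempty → ∃ w ∈ S, ∀ u ∈ S, ∀ v ∈ S,
      (w ≠ u ∧ (P.Adj w u ∨ (w = p ∧ u ∈ π.support) ∨ (u = p ∧ w ∈ π.support))) →
      (w ≠ v ∧ (P.Adj w v ∨ (w = p ∧ v ∈ π.support) ∨ (v = p ∧ w ∈ π.support))) →
      u ≠ v → (u ≠ v ∧ (P.Adj u v ∨ (u = p ∧ v ∈ π.support) ∨ (v = p ∧ u ∈ π.support))) := by
  classical
  intro S hS
  let C : Finset (Fin k) := π.support.toFinset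
  have hmC : ∀ x, x ∈ C ↔ x ∈ π.support := fun x => List.mem_toFinset
  have hC : ∀ c ∈ C, ∃ q : F.Walk a c, ∀ x ∈ q.support, x ∈ C := by
    intro c hc
    refine ⟨π.takeUntil c ((hmC c).1 hc), ?_⟩
    intro x hx
    exact (hmC x).2 (π.support_takeUntil_subset_support _ hx)
  by_cases h1 : (S \ C).Nonempty
  · obtain ⟨w, hw, hl⟩ := leaf_outside F hF C S a hC h1
    have hwC : w ∉ π.support := fun h => (mem_sdiff.1 hw).2 ((hmC w).2 h)
    have hwp : w ≠ p := by rintro rfl; exact hwC hp
    have hwa : w ≠ a := by rintro rfl; exact hwC π.start_mem_support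
    have hwb : w ≠ b := by rintro rfl; exact hwC π.end_mem_support
    have key : ∀ u, (w ≠ u ∧ (P.Adj w u ∨ (w = p ∧ u ∈ π.support) ∨ (u = p ∧ w ∈ π.support))) →
        F.Adj w u := by
      intro u hu
      rcases hu.2 with h | h | h
      · rcases hP w u h with h' | h' | h'
        · exact h'
        · exact absurd h'.1 hwa
        · exact absurd h'.1 hwb
      · exact absurd h.1 hwp
      · exact absurd h.2 hwC
    refine ⟨w, (mem_sdiff.1 hw).1, ?_⟩
    intro u hu v hv h2 h3 huv
    exact absurd (hl u (mem_union_left _ hu) v (mem_union_left _ hv) (key u h2) (key v h3)) huv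
  · have hSC : ∀ x ∈ S, x ∈ π.support := by
      intro x hx
      by_contra h
      exact h1 ⟨x, mem_sdiff.2 ⟨hx, fun h' => h ((hmC x).1 h')⟩⟩
    by_cases h2 : (S.erase p).Nonempty
    · obtain ⟨w, hw, hl⟩ := H852OF.leaf (isolate P {p}) (isolate_path_acyclic P F a b hF hP π hπ p hp)
        (S.erase p) h2
      have hwp : w ≠ p := (mem_erase.1 hw).1
      refine ⟨w, (mem_erase.1 hw).2, ?_⟩
      intro u hu v hv h3 h4 huv
      refine ⟨huv, ?_⟩
      by_cases hup : u = p
      · exact Or.inr (Or.inl ⟨hup, hSC v hv⟩)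
      · by_cases hvp : v = p
        · exact Or.inr (Or.inr ⟨hvp, hSC u hu⟩)
        · exfalso
          apply huv
          have a1 : (isolate P {p}).Adj w u := by
            refine ⟨?_, by rw [mem_singleton]; exact hwp, by rw [mem_singleton]; exact hup⟩
            rcases h3.2 with h | h | h
            · exact h
            · exact absurd h.1 hwp
            · exact absurd h.1 hup
          have a2 : (isolate P {p}).Adj w v := by
            refine ⟨?_, by rw [mem_singleton]; exact hwp, by rw [mem_singleton]; exact hvp⟩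
            rcases h4.2 with h | h | h
            · exact h
            · exact absurd h.1 hwp
            · exact absurd h.1 hvp
          exact hl u (mem_erase.2 ⟨hup, hu⟩) v (mem_erase.2 ⟨hvp, hv⟩) a1 a2
    · obtain ⟨w, hw⟩ := hS
      have hall : ∀ x ∈ S, x = p := by
        intro x hx
        by_contra h
        exact h2 ⟨x, mem_erase.2 ⟨h, hx⟩⟩
      refine ⟨w, hw, ?_⟩
      intro u hu v hv _ _ huv
      exact absurd ((hall u hu).trans (hall v hv).symm) huv

end H152TT
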