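import Mathlib
import Pool.Agent.H152.TT.Defs
import Pool.Agent.H152.TT.Main
import Pool.Agent.H152.TT.Uni

set_option autoImplicit false

open Finset

namespace H152TT

theorem tracked_upper {k : ℕ} (s : ℕ) (hs : 1 ≤ s) (P : SimpleGraph (Fin k)) (h : Tracked s P)
    (ε : ℝ) (hε : 0 < ε) : ∃ N : ℕ, ∀ n : ℕ, N ≤ n → ∀ G : SimpleGraph (Fin n),
      ¬ OContains P G → (G.edgeSet.ncard : ℝ) ≤ (n : ℝ) ^ (2 - 1 / (s : ℝ) + ε) := by
  obtain ⟨H, ord, τ, hPH, hinj, hch, hlt, hmono, hprop, hside⟩ := h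
  obtain ⟨σ, hσ⟩ := perm_of_rank ord hinj
  obtain ⟨t, rfl⟩ : ∃ t, s = t + 1 := ⟨s - 1, by omega⟩
  obtain ⟨N, hN⟩ := main k t P H hPH σ
    (by
      intro u v w h1 h2 h3 h4 h5
      exact hch u v w h1 h2 ((hσ u w).1 h3) ((hσ v w).1 h4) h5)
    (fun u => ⟨τ u, by have := hlt u; omega⟩)
    (by
      intro u v huv h
      exact hprop u v huv (by simpa using congrArg Fin.val h))
    (by
      intro u v huv
      exact hmono huv)
    (by
      intro u v huv
      exact hside u v huv)
    ε hε
  refine ⟨N, fun n hn G hG => ?_⟩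
  have := hN n hn G hG
  push_cast
  exact this

theorem exOrd_le {k : ℕ} (P : SimpleGraph (Fin k)) (n : ℕ) (x : ℝ) (hx : 0 ≤ x)
    (h : ∀ G : SimpleGraph (Fin n), ¬ OContains P G → (G.edgeSet.ncard : ℝ) ≤ x) :
    (exOrd P n : ℝ) ≤ x := by
  by_cases hne : {m : ℕ | ∃ G : SimpleGraph (Fin n), ¬ OContains P G ∧ G.edgeSet.ncard = m}.Nonempty
  · have hb : BddAbove {m : ℕ | ∃ G : SimpleGraph (Fin n), ¬ OContains P G ∧ G.edgeSet.ncard = m} := by
      refine ⟨⌊x⌋₊, ?_⟩
      rintro m ⟨G, hG, rfl⟩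
      exact Nat.le_floor (h G hG)
    obtain ⟨G, hG, hm⟩ := Nat.sSup_mem hne hb
    unfold exOrd
    rw [← hm]
    exact h G hG
  · rw [Set.not_nonempty_iff_eq_empty] at hne
    unfold exOrd
    rw [hne]
    simpa using hx

/-- one cycle with trees attached -/
theorem oneCycle_tracked {k : ℕ} (P : SimpleGraph (Fin k)) (h : OneCycle P) (hna : ¬ P.IsAcyclic) :
    Tracked 2 P := by
  classical
  obtain ⟨⟨m, hm⟩, e, he⟩ := h
  induction e using Sym2.ind with
  | _ a b =>
  have hP : ∀ u v, P.Adj u v → (P.deleteEdges {s(a, b)}).Adj u v ∨ (u = a ∧ v = b) ∨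
      (u = b ∧ v = a) := by
    intro u v huv
    by_cases h1 : s(u, v) = s(a, b)
    · right
      exact Sym2.eq_iff.1 h1
    · left
      rw [SimpleGraph.deleteEdges_adj]
      exact ⟨huv, by simpa using h1⟩
  have hadj : P.Adj a b := by
    by_contra hcon
    apply hna
    refine he.anti ?_
    intro u v huv
    rcases hP u v huv with h1 | ⟨rfl, rfl⟩ | ⟨rfl, rfl⟩
    · exact h1
    · exact absurd huv hcon
    · exact absurd huv.symm hcon
  have hr : (P.deleteEdges {s(a, b)}).Reachable a b := by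
    by_contra hcon
    apply hna
    refine (he.sup_edge_of_not_reachable hcon).anti ?_
    intro u v huv
    rw [SimpleGraph.sup_adj]
    rcases hP u v huv with h1 | h1 | h1
    · exact Or.inl h1
    · right
      rw [SimpleGraph.edge_adj]
      exact ⟨Or.inl h1, huv.ne⟩
    · right
      rw [SimpleGraph.edge_adj]
      exact ⟨Or.inr h1, huv.ne⟩
  obtain ⟨q⟩ := hr
  obtain ⟨π, hπ⟩ : ∃ π : (P.deleteEdges {s(a, b)}).Walk a b, π.IsPath := ⟨q.bypass, q.bypass_isPath⟩
  -- the last vertex of the initial part on the cycle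
  obtain ⟨L, hLdef⟩ : ∃ L : Finset (Fin k), L = π.support.toFinset.filter (fun x => x.val < m) :=
    ⟨_, rfl⟩
  have hLne : L.Nonempty := by
    by_cases h1 : a.val < m
    · exact ⟨a, by rw [hLdef, mem_filter, List.mem_toFinset]; exact ⟨π.start_mem_support, h1⟩⟩
    · refine ⟨b, ?_⟩
      rw [hLdef, mem_filter, List.mem_toFinset]
      exact ⟨π.end_mem_support, (hm b a hadj.symm).2 (not_lt.1 h1)⟩
  obtain ⟨p, hpL, hpmax⟩ := Finset.exists_max_image L (fun x => x) hLne
  rw [hLdef, mem_filter, List.mem_toFinset] at hpL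
  obtain ⟨hpπ, hpm⟩ := hpL
  let H : SimpleGraph (Fin k) :=
    { Adj := fun u v => u ≠ v ∧ (P.Adj u v ∨ (u = p ∧ v ∈ π.support) ∨ (v = p ∧ u ∈ π.support))
      symm := ⟨fun u v h => ⟨h.1.symm, by
        rcases h.2 with h' | h' | h'
        · exact Or.inl h'.symm
        · exact Or.inr (Or.inr h')
        · exact Or.inr (Or.inl h')⟩⟩
      loopless := ⟨fun u h => h.1 rfl⟩ }
  obtain ⟨ord, hinj, hch⟩ := exists_ord H (uni_simplicial P _ a b he hP π hπ p hpπ)
  refine ⟨H, ord, fun u => if u < p then 0 else if u.val < m then 1 else 2, ?_, hinj, hch, ?_, ?_, ?_, ?_⟩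
  · intro u v huv
    exact ⟨huv.ne, Or.inl huv⟩
  · intro u
    dsimp only
    split_ifs <;> norm_num
  · intro u v huv
    dsimp only
    have h1 : u.val ≤ v.val := huv
    have hp' : ∀ x : Fin k, x < p ↔ x.val < p.val := fun x => Iff.rfl
    simp only [hp']
    split_ifs <;> omega
  · intro u v huv
    have key : ∀ x, x ∈ π.support → x ≠ p → ¬ (p.val ≤ x.val ∧ x.val < m) := by
      rintro x hx hne ⟨h1, h2⟩
      have h3 := hpmax x (by rw [hLdef, mem_filter, List.mem_toFinset]; exact ⟨hx, h2⟩)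
      exact hne (le_antisymm h3 h1)
    have hp' : ∀ x : Fin k, x < p ↔ x.val < p.val := fun x => Iff.rfl
    dsimp only
    simp only [hp']
    rcases huv.2 with h1 | ⟨rfl, h1⟩ | ⟨rfl, h1⟩
    · have := hm u v h1
      split_ifs <;> omega
    · have := key v h1 huv.1.symm
      split_ifs <;> omega
    · have := key u h1 huv.1
      split_ifs <;> omega
  · intro u v huv
    have hp' : ∀ x : Fin k, x < p ↔ x.val < p.val := fun x => Iff.rfl
    have := hm u v huv
    dsimp only
    simp only [hp']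
    split_ifs <;> omega

/-- few hubs on each side -/
theorem fewHubs_tracked {k : ℕ} (a : ℕ) (P : SimpleGraph (Fin k)) (h : FewHubs a P) :
    Tracked (2 * a + 1) P := by
  classical
  obtain ⟨m, A, hm, hL, hR, hac⟩ := h
  have hiso := isolate_acyclic P A hac
  let H : SimpleGraph (Fin k) :=
    { Adj := fun u v => u ≠ v ∧ (P.Adj u v ∨ u ∈ A ∨ v ∈ A)
      symm := ⟨fun u v h => ⟨h.1.symm, by
        rcases h.2 with h' | h' | h'
        · exact Or.inl h'.symm
        · exact Or.inr (Or.inr h')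
        · exact Or.inr (Or.inl h')⟩⟩
      loopless := ⟨fun u h => h.1 rfl⟩ }
  obtain ⟨ord, hinj, hch⟩ := exists_ord H (hub_simplicial P A hiso)
  let L1 : Fin k → ℕ := fun v => ((A.filter (fun x => x.val < m)).filter (fun x => x < v)).card
  let L2 : Fin k → ℕ := fun v => ((A.filter (fun x => x.val < m)).filter (fun x => x ≤ v)).card
  let R1 : Fin k → ℕ := fun v => ((A.filter (fun x => m ≤ x.val)).filter (fun x => x < v)).card
  let R2 : Fin k → ℕ := fun v => ((A.filter (fun x => m ≤ x.val)).filter (fun x => x ≤ v)).card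
  have cnt : ∀ (B : Finset (Fin k)) (v : Fin k), (B.filter (fun x => x < v)).card ≤ B.card ∧
      (B.filter (fun x => x ≤ v)).card ≤ B.card :=
    fun B v => ⟨card_filter_le _ _, card_filter_le _ _⟩
  have cntm : ∀ (B : Finset (Fin k)) (u v : Fin k), u ≤ v →
      (B.filter (fun x => x < u)).card ≤ (B.filter (fun x => x < v)).card ∧
      (B.filter (fun x => x ≤ u)).card ≤ (B.filter (fun x => x ≤ v)).card := by
    intro B u v huv
    constructor
    · refine card_le_card fun x hx => ?_
      rw [mem_filter] at hx ⊢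
      exact ⟨hx.1, lt_of_lt_of_le hx.2 huv⟩
    · refine card_le_card fun x hx => ?_
      rw [mem_filter] at hx ⊢
      exact ⟨hx.1, hx.2.trans huv⟩
  have cnts1 : ∀ (B : Finset (Fin k)) (u v : Fin k), u < v → u ∈ B →
      (B.filter (fun x => x < u)).card < (B.filter (fun x => x < v)).card := by
    intro B u v huv hu
    refine card_lt_card ?_
    rw [ssubset_iff_of_subset]
    · exact ⟨u, mem_filter.2 ⟨hu, huv⟩, fun h => lt_irrefl _ (mem_filter.1 h).2⟩
    · intro x hx
      rw [mem_filter] at hx ⊢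
      exact ⟨hx.1, hx.2.trans huv⟩
  have cnts2 : ∀ (B : Finset (Fin k)) (u v : Fin k), u < v → v ∈ B →
      (B.filter (fun x => x ≤ u)).card < (B.filter (fun x => x ≤ v)).card := by
    intro B u v huv hv
    refine card_lt_card ?_
    rw [ssubset_iff_of_subset]
    · exact ⟨v, mem_filter.2 ⟨hv, le_rfl⟩, fun h => not_lt.2 (mem_filter.1 h).2 huv⟩
    · intro x hx
      rw [mem_filter] at hx ⊢
      exact ⟨hx.1, hx.2.trans huv.le⟩
  have bL : ∀ v, L1 v + L2 v ≤ 2 * a := by
    intro v
    have := cnt (A.filter (fun x => x.val < m)) v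
    have h1 : L1 v ≤ (A.filter (fun x => x.val < m)).card := this.1
    have h2 : L2 v ≤ (A.filter (fun x => x.val < m)).card := this.2
    omega
  have bR : ∀ v, R1 v + R2 v ≤ 2 * a := by
    intro v
    have := cnt (A.filter (fun x => m ≤ x.val)) v
    have h1 : R1 v ≤ (A.filter (fun x => m ≤ x.val)).card := this.1
    have h2 : R2 v ≤ (A.filter (fun x => m ≤ x.val)).card := this.2
    omega
  -- strict growth across a hub
  have sL : ∀ u v, u < v → u.val < m → v.val < m → (u ∈ A ∨ v ∈ A) → L1 u + L2 u < L1 v + L2 v := by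
    intro u v huv hu hv h
    have h0 := cntm (A.filter (fun x => x.val < m)) u v huv.le
    have h1 : L1 u ≤ L1 v := h0.1
    have h2 : L2 u ≤ L2 v := h0.2
    rcases h with h | h
    · have h3 : L1 u < L1 v := cnts1 _ u v huv (mem_filter.2 ⟨h, hu⟩)
      omega
    · have h3 : L2 u < L2 v := cnts2 _ u v huv (mem_filter.2 ⟨h, hv⟩)
      omega
  have sR : ∀ u v, u < v → m ≤ u.val → m ≤ v.val → (u ∈ A ∨ v ∈ A) → R1 u + R2 u < R1 v + R2 v := by
    intro u v huv hu hv h
    have h0 := cntm (A.filter (fun x => m ≤ x.val)) u v huv.le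
    have h1 : R1 u ≤ R1 v := h0.1
    have h2 : R2 u ≤ R2 v := h0.2
    rcases h with h | h
    · have h3 : R1 u < R1 v := cnts1 _ u v huv (mem_filter.2 ⟨h, hu⟩)
      omega
    · have h3 : R2 u < R2 v := cnts2 _ u v huv (mem_filter.2 ⟨h, hv⟩)
      omega
  have key : ∀ u v : Fin k, u < v → (P.Adj u v ∨ u ∈ A ∨ v ∈ A) →
      (if u.val < m then L1 u + L2 u else 2 * a + 1 + (R1 u + R2 u)) ≠
      (if v.val < m then L1 v + L2 v else 2 * a + 1 + (R1 v + R2 v)) := by
    intro u v huv h
    have hv' : u.val < v.val := huv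
    have b1 := bL u
    have b2 := bL v
    by_cases h1 : u.val < m
    · by_cases h2 : v.val < m
      · rw [if_pos h1, if_pos h2]
        rcases h with h | h
        · exact absurd ((hm u v h).1 h1) (not_le.2 h2)
        · exact (sL u v huv h1 h2 h).ne
      · rw [if_pos h1, if_neg h2]
        omega
    · have h2 : ¬ v.val < m := by omega
      rw [if_neg h1, if_neg h2]
      rcases h with h | h
      · exact absurd ((hm u v h).2 (not_lt.1 h2)) h1
      · have := sR u v huv (not_lt.1 h1) (not_lt.1 h2) h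
        omega
  refine ⟨H, ord, fun v => if v.val < m then L1 v + L2 v else 2 * a + 1 + (R1 v + R2 v), ?_, hinj, hch,
    ?_, ?_, ?_, ?_⟩
  · intro u v huv
    exact ⟨huv.ne, Or.inl huv⟩
  · intro v
    have b1 := bL v
    have b2 := bR v
    dsimp only
    split_ifs <;> omega
  · intro u v huv
    have h1 : u.val ≤ v.val := huv
    have b1 := bL u
    have c1 := cntm (A.filter (fun x => x.val < m)) u v huv
    have c2 := cntm (A.filter (fun x => m ≤ x.val)) u v huv
    have d1 : L1 u ≤ L1 v := c1.1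
    have d2 : L2 u ≤ L2 v := c1.2
    have d3 : R1 u ≤ R1 v := c2.1
    have d4 : R2 u ≤ R2 v := c2.2
    dsimp only
    split_ifs <;> omega
  · intro u v huv
    dsimp only
    rcases lt_or_gt_of_ne huv.1 with h | h
    · exact key u v h huv.2
    · refine (key v u h ?_).symm
      rcases huv.2 with h' | h' | h'
      · exact Or.inl h'.symm
      · exact Or.inr (Or.inr h')
      · exact Or.inr (Or.inl h')
  · intro u v huv
    have b1 := bL u
    have b2 := bL v
    have b3 := bR u
    have b4 := bR v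
    have := hm u v huv
    dsimp only
    split_ifs <;> omega

end H152TT
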