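import Mathlib

set_option autoImplicit false

open Finset

namespace H152TT

/-- consecutive vertices matched -/
def matchG (n : ℕ) : SimpleGraph (Fin n) where
  Adj i j := i ≠ j ∧ i.val / 2 = j.val / 2
  symm := ⟨fun _ _ h => ⟨h.1.symm, h.2.symm⟩⟩
  loopless := ⟨fun _ h => h.1 rfl⟩

/-- all edges at the vertex zero -/
def starG (n : ℕ) : SimpleGraph (Fin n) where
  Adj i j := i ≠ j ∧ (i.val = 0 ∨ j.val = 0)
  symm := ⟨fun _ _ h => ⟨h.1.symm, h.2.symm⟩⟩
  loopless := ⟨fun _ h => h.1 rfl⟩

theorem card_edges_ge {n m : ℕ} (G : SimpleGraph (Fin n)) [DecidableRel G.Adj] (f g : Fin m → Fin n)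
    (hadj : ∀ i, G.Adj (f i) (g i))
    (hinj : ∀ i j, s(f i, g i) = s(f j, g j) → i = j) : m ≤ G.edgeFinset.card := by
  classical
  have : (univ : Finset (Fin m)).card ≤ G.edgeFinset.card := by
    refine Finset.card_le_card_of_injOn (fun i => s(f i, g i)) ?_ ?_
    · intro i _
      simp only [SimpleGraph.coe_edgeFinset, SimpleGraph.mem_edgeSet]
      exact hadj i
    · intro i _ j _ h
      exact hinj i j h
  simpa using this

theorem linear_lower {k : ℕ} (P : SimpleGraph (Fin k)) (hP : 2 ≤ P.edgeSet.ncard) (n : ℕ) :
    n / 2 ≤ SimpleGraph.extremalNumber n P := by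
  classical
  obtain ⟨e1, he1, e2, he2, hne⟩ : ∃ e1 ∈ P.edgeSet, ∃ e2 ∈ P.edgeSet, e1 ≠ e2 := by
    have h1 : 1 < P.edgeSet.ncard := by omega
    obtain ⟨a, ha, b, hb, hab⟩ := (Set.one_lt_ncard (Set.toFinite _)).1 h1
    exact ⟨a, ha, b, hb, hab⟩
  by_cases hdeg : ∃ u v w, v ≠ w ∧ P.Adj u v ∧ P.Adj u w
  · obtain ⟨u, v, w, hvw, h1, h2⟩ := hdeg
    have hfree : P.Free (matchG n) := by
      rintro ⟨f⟩
      have a1 : (matchG n).Adj (f u) (f v) := f.toHom.map_adj h1
      have a2 : (matchG n).Adj (f u) (f w) := f.toHom.map_adj h2
      have a3 : f v ≠ f w := fun h => hvw (f.injective h)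
      have b1 : (f u).val ≠ (f v).val := fun h => a1.1 (Fin.ext h)
      have b2 : (f u).val ≠ (f w).val := fun h => a2.1 (Fin.ext h)
      have b3 : (f v).val ≠ (f w).val := fun h => a3 (Fin.ext h)
      have c1 := a1.2
      have c2 := a2.2
      omega
    have h3 := SimpleGraph.card_edgeFinset_le_extremalNumber hfree
    rw [Fintype.card_fin] at h3
    refine le_trans ?_ h3
    refine card_edges_ge (matchG n) (fun i : Fin (n/2) => ⟨2 * i.val, by omega⟩)
      (fun i => ⟨2 * i.val + 1, by omega⟩) ?_ ?_
    · intro i
      refine ⟨?_, ?_⟩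
      · intro h
        have := congrArg Fin.val h
        simp only at this
        omega
      · simp only
        omega
    · intro i j h
      rw [Sym2.eq_iff] at h
      rcases h with ⟨h, _⟩ | ⟨h, _⟩
      · have := congrArg Fin.val h
        simp only at this
        exact Fin.ext (by omega)
      · have := congrArg Fin.val h
        simp only at this
        omega
  · push Not at hdeg
    rcases Nat.lt_or_ge n 2 with hn | hn
    · have : n / 2 = 0 := by omega
      rw [this]
      exact Nat.zero_le _
    · induction e1 using Sym2.ind with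
      | _ a b =>
      induction e2 using Sym2.ind with
      | _ c d =>
      have ab : P.Adj a b := he1
      have cd : P.Adj c d := he2
      have hac : a ≠ c := by
        rintro rfl
        by_cases h : b = d
        · exact hne (by rw [h])
        · exact hdeg a b d h ab cd
      have had : a ≠ d := by
        rintro rfl
        by_cases h : b = c
        · exact hne (by rw [h, Sym2.eq_swap])
        · exact hdeg a b c h ab cd.symm
      have hbc : b ≠ c := by
        rintro rfl
        by_cases h : a = d
        · exact hne (by rw [h, Sym2.eq_swap])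
        · exact hdeg b a d h ab.symm cd
      have hbd : b ≠ d := by
        rintro rfl
        by_cases h : a = c
        · exact hne (by rw [h])
        · exact hdeg b a c h ab.symm cd.symm
      have hfree : P.Free (starG n) := by
        rintro ⟨f⟩
        have a1 : (starG n).Adj (f a) (f b) := f.toHom.map_adj ab
        have a2 : (starG n).Adj (f c) (f d) := f.toHom.map_adj cd
        have e : ∀ x y, x ≠ y → (f x).val = 0 → (f y).val = 0 → False := by
          intro x y hxy h1 h2
          exact hxy (f.injective (Fin.ext (h1.trans h2.symm)))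
        rcases a1.2 with h1 | h1 <;> rcases a2.2 with h2 | h2
        · exact e a c hac h1 h2
        · exact e a d had h1 h2
        · exact e b c hbc h1 h2
        · exact e b d hbd h1 h2
      have h3 := SimpleGraph.card_edgeFinset_le_extremalNumber hfree
      rw [Fintype.card_fin] at h3
      refine le_trans ?_ h3
      refine card_edges_ge (starG n) (fun _ : Fin (n/2) => ⟨0, by omega⟩)
        (fun i => ⟨i.val + 1, by omega⟩) ?_ ?_
      · intro i
        refine ⟨?_, Or.inl rfl⟩
        intro h
        have := congrArg Fin.val h
        simp only at this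
        omega
      · intro i j h
        rw [Sym2.eq_iff] at h
        rcases h with ⟨_, h⟩ | ⟨h, _⟩
        · have := congrArg Fin.val h
          simp only at this
          exact Fin.ext (by omega)
        · have := congrArg Fin.val h
          simp only at this
          omega

end H152TT
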