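import Mathlib
import Pool.Agent.H152.TT.Defs

set_option autoImplicit false

open Finset

namespace H152TT

/-- deleting `r` edges destroys all cycles: half of the edges are hit on the left, half on the
right -/
theorem fewHubs_of_edges {k : ℕ} (P : SimpleGraph (Fin k)) (hO : OrdBip P)
    (R : Finset (Sym2 (Fin k))) (hR : ∀ e ∈ R, e ∈ P.edgeSet)
    (hac : (P.deleteEdges (R : Set (Sym2 (Fin k)))).IsAcyclic) :
    FewHubs ((R.card + 1) / 2) P := by
  classical
  obtain ⟨m, hm⟩ := hO
  obtain ⟨R1, hR1, hc1⟩ := Finset.exists_subset_card_eq (s := R) (n := R.card / 2) (by omega)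
  obtain ⟨R2, hR2⟩ : ∃ R2, R2 = R \ R1 := ⟨_, rfl⟩
  have hc2 : R2.card = R.card - R.card / 2 := by
    rw [hR2, Finset.card_sdiff_of_subset hR1, hc1]
  have hR2s : R2 ⊆ R := by rw [hR2]; exact Finset.sdiff_subset
  obtain ⟨A1, hA1⟩ : ∃ A1 : Finset (Fin k), A1 =
    R1.biUnion (fun e => univ.filter (fun x => x ∈ e ∧ x.val < m)) := ⟨_, rfl⟩
  obtain ⟨A2, hA2⟩ : ∃ A2 : Finset (Fin k), A2 =
    R2.biUnion (fun e => univ.filter (fun x => x ∈ e ∧ m ≤ x.val)) := ⟨_, rfl⟩
  have hmA1 : ∀ x, (∃ e ∈ R1, x ∈ e ∧ x.val < m) → x ∈ A1 := by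
    rintro x ⟨e, he, hx⟩
    rw [hA1, mem_biUnion]
    exact ⟨e, he, mem_filter.2 ⟨mem_univ _, hx⟩⟩
  have hmA2 : ∀ x, (∃ e ∈ R2, x ∈ e ∧ m ≤ x.val) → x ∈ A2 := by
    rintro x ⟨e, he, hx⟩
    rw [hA2, mem_biUnion]
    exact ⟨e, he, mem_filter.2 ⟨mem_univ _, hx⟩⟩
  have hone1 : ∀ e ∈ R1, (univ.filter (fun x : Fin k => x ∈ e ∧ x.val < m)).card ≤ 1 := by
    intro e he
    have heP := hR e (hR1 he)
    rw [Finset.card_le_one]
    intro x hx y hy
    rw [mem_filter] at hx hy
    by_contra hne
    have hexy : e = s(x, y) := by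
      induction e using Sym2.ind with
      | _ a b =>
        have h1 := Sym2.mem_iff.1 hx.2.1
        have h2 := Sym2.mem_iff.1 hy.2.1
        rcases h1 with rfl | rfl <;> rcases h2 with rfl | rfl
        · exact absurd rfl hne
        · rfl
        · exact Sym2.eq_swap
        · exact absurd rfl hne
    rw [hexy, SimpleGraph.mem_edgeSet] at heP
    have := (hm x y heP).1 hx.2.2
    omega
  have hone2 : ∀ e ∈ R2, (univ.filter (fun x : Fin k => x ∈ e ∧ m ≤ x.val)).card ≤ 1 := by
    intro e he
    have heP := hR e (hR2s he)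
    rw [Finset.card_le_one]
    intro x hx y hy
    rw [mem_filter] at hx hy
    by_contra hne
    have hexy : e = s(x, y) := by
      induction e using Sym2.ind with
      | _ a b =>
        have h1 := Sym2.mem_iff.1 hx.2.1
        have h2 := Sym2.mem_iff.1 hy.2.1
        rcases h1 with rfl | rfl <;> rcases h2 with rfl | rfl
        · exact absurd rfl hne
        · rfl
        · exact Sym2.eq_swap
        · exact absurd rfl hne
    rw [hexy, SimpleGraph.mem_edgeSet] at heP
    have := (hm x y heP).2 hy.2.2
    omega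
  have hcA1 : A1.card ≤ R1.card := by
    rw [hA1]
    have := Finset.card_biUnion_le_card_mul R1
      (fun e => univ.filter (fun x : Fin k => x ∈ e ∧ x.val < m)) 1 hone1
    simpa using this
  have hcA2 : A2.card ≤ R2.card := by
    rw [hA2]
    have := Finset.card_biUnion_le_card_mul R2
      (fun e => univ.filter (fun x : Fin k => x ∈ e ∧ m ≤ x.val)) 1 hone2
    simpa using this
  have hleft : ∀ x ∈ A1, x.val < m := by
    intro x hx
    rw [hA1, mem_biUnion] at hx
    obtain ⟨e, _, he⟩ := hx
    exact (mem_filter.1 he).2.2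
  have hright : ∀ x ∈ A2, m ≤ x.val := by
    intro x hx
    rw [hA2, mem_biUnion] at hx
    obtain ⟨e, _, he⟩ := hx
    exact (mem_filter.1 he).2.2
  refine ⟨m, A1 ∪ A2, hm, ?_, ?_, ?_⟩
  · have : (A1 ∪ A2).filter (fun x => x.val < m) ⊆ A1 := by
      intro x hx
      rw [mem_filter, mem_union] at hx
      rcases hx with ⟨h | h, h'⟩
      · exact h
      · have := hright x h
        omega
    have := card_le_card this
    omega
  · have : (A1 ∪ A2).filter (fun x => m ≤ x.val) ⊆ A2 := by
      intro x hx
      rw [mem_filter, mem_union] at hx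
      rcases hx with ⟨h | h, h'⟩
      · have := hleft x h
        omega
      · exact h
    have := card_le_card this
    omega
  · refine hac.comap (⟨fun x => x.val, ?_⟩ : P.induce ((↑(A1 ∪ A2) : Set (Fin k))ᶜ) →g
      P.deleteEdges (R : Set (Sym2 (Fin k)))) ?_
    · intro x y hxy
      have hP : P.Adj x.val y.val := hxy
      rw [SimpleGraph.deleteEdges_adj]
      refine ⟨hP, ?_⟩
      intro hmem
      have hmem' : s(x.val, y.val) ∈ R := by simpa using hmem
      have hx : x.val ∉ A1 ∪ A2 := by
        have := x.2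
        simpa using this
      have hy : y.val ∉ A1 ∪ A2 := by
        have := y.2
        simpa using this
      rw [mem_union, not_or] at hx hy
      have hside := hm x.val y.val hP
      by_cases h1 : s(x.val, y.val) ∈ R1
      · rcases Nat.lt_or_ge x.val.val m with h | h
        · exact hx.1 (hmA1 _ ⟨_, h1, Sym2.mem_mk_left _ _, h⟩)
        · have hlt : y.val.val < m := by
            by_contra hc
            have := hside.2 (by omega)
            omega
          exact hy.1 (hmA1 _ ⟨_, h1, Sym2.mem_mk_right _ _, hlt⟩)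
      · have h2 : s(x.val, y.val) ∈ R2 := by
          rw [hR2, mem_sdiff]
          exact ⟨hmem', h1⟩
        rcases Nat.lt_or_ge x.val.val m with h | h
        · exact hy.2 (hmA2 _ ⟨_, h2, Sym2.mem_mk_right _ _, hside.1 h⟩)
        · exact hx.2 (hmA2 _ ⟨_, h2, Sym2.mem_mk_left _ _, h⟩)
    · intro x y h
      exact Subtype.ext h

section
variable {V : Type} [Fintype V] [DecidableEq V]

/-- the number of edges inside a set -/
noncomputable def eIn (P : SimpleGraph V) (S : Finset V) : ℕ :=
  {e : Sym2 V | e ∈ P.edgeSet ∧ ∀ x ∈ e, x ∈ S}.ncard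

/-- the local sparsity condition -/
def Sparse (α : ℝ) (P : SimpleGraph V) : Prop :=
  ∀ S : Finset V, 2 ≤ S.card → (eIn P S : ℝ) - 1 ≤ α * ((S.card : ℝ) - 2)

theorem eIn_univ (P : SimpleGraph V) : eIn P univ = P.edgeSet.ncard := by
  unfold eIn
  congr 1
  ext e
  simp

theorem eIn_one (P : SimpleGraph V) (S : Finset V) (h : S.card ≤ 1) : eIn P S = 0 := by
  unfold eIn
  rw [Set.ncard_eq_zero (Set.toFinite _)]
  ext e
  simp only [Set.mem_ofPred_eq, Set.mem_empty_iff_false, iff_false, not_and]
  intro he hS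
  induction e using Sym2.ind with
  | _ a b =>
    have hab : P.Adj a b := he
    exact hab.ne (Finset.card_le_one.1 h a (hS a (by simp)) b (hS b (by simp)))

theorem eIn_two (P : SimpleGraph V) (S : Finset V) (h : S.card = 2) : eIn P S ≤ 1 := by
  unfold eIn
  obtain ⟨u, v, huv, rfl⟩ := Finset.card_eq_two.1 h
  rw [Set.ncard_le_one (Set.toFinite _)]
  intro e he f hf
  have key : ∀ e : Sym2 V, (e ∈ P.edgeSet ∧ ∀ x ∈ e, x ∈ ({u, v} : Finset V)) → e = s(u, v) := by
    intro e he
    induction e using Sym2.ind with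
    | _ a b =>
      have hab : P.Adj a b := he.1
      have ha := he.2 a (by simp)
      have hb := he.2 b (by simp)
      have hne := hab.ne
      rw [mem_insert, mem_singleton] at ha hb
      rcases ha with rfl | rfl <;> rcases hb with rfl | rfl
      · exact absurd rfl hne
      · rfl
      · exact Sym2.eq_swap
      · exact absurd rfl hne
  rw [key e he, key f hf]

/-- adding an edge between two components keeps the sparsity -/
theorem sparse_sup (α : ℝ) (hα : 1 ≤ α) (P : SimpleGraph V) (h : Sparse α P) (u v : V)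
    (huv : ¬ P.Reachable u v) : Sparse α (P ⊔ SimpleGraph.edge u v) := by
  classical
  intro S hS
  obtain ⟨A, hA⟩ : ∃ A, A = S.filter (fun x => P.Reachable u x) := ⟨_, rfl⟩
  obtain ⟨B, hB⟩ : ∃ B, B = S.filter (fun x => ¬ P.Reachable u x) := ⟨_, rfl⟩
  have hAB : A.card + B.card = S.card := by
    rw [hA, hB]
    exact Finset.card_filter_add_card_filter_not _
  -- edges of the larger graph
  have hedge : ∀ e ∈ (P ⊔ SimpleGraph.edge u v).edgeSet, e ∈ P.edgeSet ∨ e = s(u, v) := by
    intro e he
    rw [SimpleGraph.edgeSet_sup] at he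
    rcases he with he | he
    · exact Or.inl he
    · right
      induction e using Sym2.ind with
      | _ a b =>
        rw [SimpleGraph.mem_edgeSet, SimpleGraph.edge_adj] at he
        rcases he.1 with ⟨rfl, rfl⟩ | ⟨rfl, rfl⟩
        · rfl
        · exact Sym2.eq_swap
  by_cases hin : u ∈ S ∧ v ∈ S
  · have hu : u ∈ A := by rw [hA, mem_filter]; exact ⟨hin.1, SimpleGraph.Reachable.refl _⟩
    have hv : v ∈ B := by rw [hB, mem_filter]; exact ⟨hin.2, huv⟩
    have hA1 : 1 ≤ A.card := Finset.card_pos.2 ⟨u, hu⟩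
    have hB1 : 1 ≤ B.card := Finset.card_pos.2 ⟨v, hv⟩
    have hsplit : eIn (P ⊔ SimpleGraph.edge u v) S ≤ eIn P A + eIn P B + 1 := by
      unfold eIn
      have hsub : {e : Sym2 V | e ∈ (P ⊔ SimpleGraph.edge u v).edgeSet ∧ ∀ x ∈ e, x ∈ S} ⊆
          ({e : Sym2 V | e ∈ P.edgeSet ∧ ∀ x ∈ e, x ∈ A} ∪
            {e : Sym2 V | e ∈ P.edgeSet ∧ ∀ x ∈ e, x ∈ B}) ∪ {s(u, v)} := by
        intro e he
        rcases hedge e he.1 with h1 | h1
        · left
          induction e using Sym2.ind with
          | _ a b =>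
            have hab : P.Adj a b := h1
            have ha := he.2 a (by simp)
            have hb := he.2 b (by simp)
            by_cases hr : P.Reachable u a
            · left
              refine ⟨h1, ?_⟩
              intro x hx
              rw [hA, mem_filter]
              rcases Sym2.mem_iff.1 hx with rfl | rfl
              · exact ⟨ha, hr⟩
              · exact ⟨hb, hr.trans hab.reachable⟩
            · right
              refine ⟨h1, ?_⟩
              intro x hx
              rw [hB, mem_filter]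
              rcases Sym2.mem_iff.1 hx with rfl | rfl
              · exact ⟨ha, hr⟩
              · exact ⟨hb, fun h' => hr (h'.trans hab.reachable.symm)⟩
        · right
          exact h1
      refine (Set.ncard_le_ncard hsub (Set.toFinite _)).trans ?_
      refine (Set.ncard_union_le _ _).trans ?_
      rw [Set.ncard_singleton]
      exact Nat.add_le_add_right (Set.ncard_union_le _ _) 1
    have hsplitR : (eIn (P ⊔ SimpleGraph.edge u v) S : ℝ) ≤ eIn P A + eIn P B + 1 := by
      exact_mod_cast hsplit
    have hABR : (A.card : ℝ) + B.card = S.card := by exact_mod_cast hAB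
    have hbound : ∀ X : Finset V, 1 ≤ X.card →
        (eIn P X : ℝ) ≤ (if 2 ≤ X.card then 1 + α * ((X.card : ℝ) - 2) else 0) := by
      intro X hX
      split_ifs with h2
      · have := h X h2
        linarith
      · rw [eIn_one P X (by omega)]
        simp
    have hbA := hbound A hA1
    have hbB := hbound B hB1
    by_cases h2A : 2 ≤ A.card
    · rw [if_pos h2A] at hbA
      by_cases h2B : 2 ≤ B.card
      · rw [if_pos h2B] at hbB
        have : (S.card : ℝ) - 2 = (A.card - 2) + (B.card - 2) + 2 := by linarith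
        rw [this]
        nlinarith
      · rw [if_neg h2B] at hbB
        have hB1' : (B.card : ℝ) = 1 := by
          have : B.card = 1 := by omega
          exact_mod_cast this
        have : (S.card : ℝ) - 2 = (A.card - 2) + 1 := by linarith
        rw [this]
        nlinarith
    · rw [if_neg h2A] at hbA
      have hA1' : (A.card : ℝ) = 1 := by
        have : A.card = 1 := by omega
        exact_mod_cast this
      by_cases h2B : 2 ≤ B.card
      · rw [if_pos h2B] at hbB
        have : (S.card : ℝ) - 2 = (B.card - 2) + 1 := by linarith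
        rw [this]
        nlinarith
      · rw [if_neg h2B] at hbB
        have hB1' : (B.card : ℝ) = 1 := by
          have : B.card = 1 := by omega
          exact_mod_cast this
        have : (S.card : ℝ) - 2 = 0 := by linarith
        rw [this]
        linarith
  · have hle : eIn (P ⊔ SimpleGraph.edge u v) S ≤ eIn P S := by
      unfold eIn
      refine Set.ncard_le_ncard ?_ (Set.toFinite _)
      intro e he
      refine ⟨?_, he.2⟩
      rcases hedge e he.1 with h1 | h1
      · exact h1
      · exfalso
        rw [h1] at he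
        exact hin ⟨he.2 u (by simp), he.2 v (by simp)⟩
    have hleR : (eIn (P ⊔ SimpleGraph.edge u v) S : ℝ) ≤ eIn P S := by exact_mod_cast hle
    have := h S hS
    linarith

/-- the connected case: a spanning tree -/
theorem feedback_conn (α : ℝ) (_hα : 1 ≤ α) (hV : 2 ≤ Fintype.card V) (P : SimpleGraph V)
    (hco : P.Connected) (hS : Sparse α P) :
    ∃ R : Finset (Sym2 V), (∀ e ∈ R, e ∈ P.edgeSet) ∧
      (R.card : ℝ) ≤ (α - 1) * ((Fintype.card V : ℝ) - 2) ∧
      (P.deleteEdges (R : Set (Sym2 V))).IsAcyclic := by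
  classical
  obtain ⟨T, hT, htree⟩ := hco.exists_isTree_le
  have hc := htree.card_edgeFinset
  have hsub : T.edgeFinset ⊆ P.edgeFinset := SimpleGraph.edgeFinset_mono hT
  refine ⟨P.edgeFinset \ T.edgeFinset, ?_, ?_, ?_⟩
  · intro e he
    rw [mem_sdiff, SimpleGraph.mem_edgeFinset] at he
    exact he.1
  · have h1 := hS univ (by rw [card_univ]; exact hV)
    rw [eIn_univ, card_univ] at h1
    have h2 : P.edgeSet.ncard = P.edgeFinset.card := by
      rw [Set.ncard_eq_toFinset_card']
      rfl
    rw [h2] at h1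
    have h3 : (P.edgeFinset \ T.edgeFinset).card + T.edgeFinset.card = P.edgeFinset.card := by
      rw [Finset.card_sdiff_of_subset hsub]
      have := card_le_card hsub
      omega
    have h3R : ((P.edgeFinset \ T.edgeFinset).card : ℝ) + T.edgeFinset.card = P.edgeFinset.card := by
      exact_mod_cast h3
    have hcR : (T.edgeFinset.card : ℝ) + 1 = Fintype.card V := by exact_mod_cast hc
    linarith
  · refine htree.isAcyclic.anti ?_
    intro a b hab
    rw [SimpleGraph.deleteEdges_adj] at hab
    by_contra hc'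
    apply hab.2
    rw [mem_coe, mem_sdiff, SimpleGraph.mem_edgeFinset, SimpleGraph.mem_edgeFinset]
    exact ⟨hab.1, hc'⟩

/-- a locally sparse graph has a small set of edges meeting all cycles -/
theorem feedback (α : ℝ) (hα : 1 ≤ α) (hV : 2 ≤ Fintype.card V) :
    ∀ d : ℕ, ∀ P : SimpleGraph V, (Pᶜ).edgeSet.ncard ≤ d → Sparse α P →
      ∃ R : Finset (Sym2 V), (∀ e ∈ R, e ∈ P.edgeSet) ∧
        (R.card : ℝ) ≤ (α - 1) * ((Fintype.card V : ℝ) - 2) ∧
        (P.deleteEdges (R : Set (Sym2 V))).IsAcyclic := by
  classical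
  intro d
  induction d with
  | zero =>
    intro P hd hS
    -- the graph is complete, hence connected
    have hco : P.Connected := by
      have hne : Nonempty V := Fintype.card_pos_iff.1 (by omega)
      refine ⟨?_⟩
      intro u v
      by_cases huv : u = v
      · rw [huv]
      · have hadj : P.Adj u v := by
          by_contra hc
          have h0 : (Pᶜ).edgeSet = ∅ := by
            rw [← Set.ncard_eq_zero (Set.toFinite _)]
            omega
          have : s(u, v) ∈ (Pᶜ).edgeSet := by
            rw [SimpleGraph.mem_edgeSet, SimpleGraph.compl_adj]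
            exact ⟨huv, hc⟩
          rw [h0] at this
          exact this
        exact hadj.reachable
    exact feedback_conn α hα hV P hco hS
  | succ d ih =>
    intro P hd hS
    by_cases hco : P.Connected
    · exact feedback_conn α hα hV P hco hS
    · have hne : Nonempty V := Fintype.card_pos_iff.1 (by omega)
      obtain ⟨u, v, huv⟩ : ∃ u v, ¬ P.Reachable u v := by
        by_contra hc
        push Not at hc
        exact hco ⟨hc⟩
      have hne' : u ≠ v := fun h => huv (h ▸ SimpleGraph.Reachable.refl _)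
      have hnadj : ¬ P.Adj u v := fun h => huv h.reachable
      have hlt : ((P ⊔ SimpleGraph.edge u v)ᶜ).edgeSet.ncard < (Pᶜ).edgeSet.ncard := by
        refine Set.ncard_lt_ncard ?_ (Set.toFinite _)
        rw [Set.ssubset_iff_of_subset]
        · refine ⟨s(u, v), ?_, ?_⟩
          · rw [SimpleGraph.mem_edgeSet, SimpleGraph.compl_adj]
            exact ⟨hne', hnadj⟩
          · rw [SimpleGraph.mem_edgeSet, SimpleGraph.compl_adj]
            intro h
            apply h.2
            rw [SimpleGraph.sup_adj]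
            right
            rw [SimpleGraph.edge_adj]
            exact ⟨Or.inl ⟨rfl, rfl⟩, hne'⟩
        · intro e he
          induction e using Sym2.ind with
          | _ a b =>
            rw [SimpleGraph.mem_edgeSet, SimpleGraph.compl_adj] at he ⊢
            refine ⟨he.1, fun h => he.2 ?_⟩
            rw [SimpleGraph.sup_adj]
            exact Or.inl h
      obtain ⟨R, hR1, hR2, hR3⟩ := ih (P ⊔ SimpleGraph.edge u v) (by omega)
        (sparse_sup α hα P hS u v huv)
      refine ⟨R.filter (fun e => e ∈ P.edgeSet), ?_, ?_, ?_⟩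
      · intro e he
        exact (mem_filter.1 he).2
      · refine le_trans ?_ hR2
        exact_mod_cast card_filter_le _ _
      · refine hR3.anti ?_
        intro a b hab
        rw [SimpleGraph.deleteEdges_adj] at hab ⊢
        refine ⟨?_, ?_⟩
        · rw [SimpleGraph.sup_adj]
          exact Or.inl hab.1
        · intro h
          apply hab.2
          rw [mem_coe, mem_filter]
          exact ⟨by simpa using h, hab.1⟩

end

/-- the copy of an induced subgraph on `Fin v` -/
theorem copy_eIn {k : ℕ} (P : SimpleGraph (Fin k)) (S : Finset (Fin k)) :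
    ∃ F : SimpleGraph (Fin S.card), F.IsContained P ∧ F.edgeSet.ncard = eIn P S := by
  classical
  obtain ⟨f, hf⟩ : ∃ f : Fin S.card ↪o Fin k, f = S.orderEmbOfFin rfl := ⟨_, rfl⟩
  have hfS : ∀ i, f i ∈ S := by intro i; rw [hf]; exact Finset.orderEmbOfFin_mem S rfl i
  have hsurj : ∀ x ∈ S, ∃ i, f i = x := by
    intro x hx
    have h1 : x ∈ Set.range (S.orderEmbOfFin rfl) := by
      rw [Finset.range_orderEmbOfFin]
      exact hx
    rw [← hf] at h1
    exact h1
  refine ⟨P.comap f, ⟨⟨⟨f, ?_⟩, f.injective⟩⟩, ?_⟩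
  · intro a b hab
    exact hab
  · have himg : Sym2.map f '' (P.comap f).edgeSet =
        {e : Sym2 (Fin k) | e ∈ P.edgeSet ∧ ∀ x ∈ e, x ∈ S} := by
      ext e
      constructor
      · rintro ⟨e', he', rfl⟩
        induction e' using Sym2.ind with
        | _ a b =>
          have hab : P.Adj (f a) (f b) := he'
          refine ⟨hab, ?_⟩
          intro x hx
          rw [Sym2.map_mk] at hx
          rcases Sym2.mem_iff.1 hx with rfl | rfl
          · exact hfS a
          · exact hfS b
      · rintro ⟨he, hS⟩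
        induction e using Sym2.ind with
        | _ a b =>
          obtain ⟨i, rfl⟩ := hsurj a (hS a (Sym2.mem_mk_left _ _))
          obtain ⟨j, rfl⟩ := hsurj b (hS b (Sym2.mem_mk_right _ _))
          exact ⟨s(i, j), he, rfl⟩
    unfold eIn
    rw [← himg]
    exact (Set.ncard_image_of_injective _ (Sym2.map.injective f.injective)).symm

/-- if `r` edges are needed to destroy all cycles, some part of the graph is dense -/
theorem dense_part {k : ℕ} (P : SimpleGraph (Fin k)) (hk : 3 ≤ k) (r : ℕ) (hr : 1 ≤ r)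
    (hmin : ∀ R : Finset (Sym2 (Fin k)), (P.deleteEdges (R : Set (Sym2 (Fin k)))).IsAcyclic →
      r ≤ R.card) :
    ∃ (v : ℕ) (F : SimpleGraph (Fin v)), F.IsContained P ∧ 2 ≤ v ∧ 2 ≤ F.edgeSet.ncard ∧
      ((v : ℝ) - 2) / ((F.edgeSet.ncard : ℝ) - 1) ≤ ((k : ℝ) - 2) / ((k : ℝ) - 2 + r) := by
  classical
  have hkR : (3 : ℝ) ≤ k := by exact_mod_cast hk
  have hrR : (1 : ℝ) ≤ r := by exact_mod_cast hr
  obtain ⟨g, hg⟩ : ∃ g : Finset (Fin k) → ℝ, g =
    fun S => ((eIn P S : ℝ) - 1) / ((S.card : ℝ) - 2) := ⟨_, rfl⟩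
  have hne : ((univ : Finset (Finset (Fin k))).filter (fun S => 3 ≤ S.card)).Nonempty :=
    ⟨univ, mem_filter.2 ⟨mem_univ _, by rw [card_univ, Fintype.card_fin]; exact hk⟩⟩
  obtain ⟨S0, hS0, hmax⟩ := Finset.exists_max_image _ g hne
  have hS03 : 3 ≤ S0.card := (mem_filter.1 hS0).2
  have hS03R : (3 : ℝ) ≤ S0.card := by exact_mod_cast hS03
  have hsparse : Sparse (max 1 (g S0)) P := by
    intro S hS
    rcases Nat.lt_or_ge S.card 3 with h | h
    · have h2 : S.card = 2 := by omega
      have h3 := eIn_two P S h2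
      have h3R : (eIn P S : ℝ) ≤ 1 := by exact_mod_cast h3
      rw [h2]
      norm_num
      linarith
    · have h1 := hmax S (mem_filter.2 ⟨mem_univ _, h⟩)
      have hcR : (3 : ℝ) ≤ S.card := by exact_mod_cast h
      have h2 : ((eIn P S : ℝ) - 1) = g S * ((S.card : ℝ) - 2) := by
        have h3 : (S.card : ℝ) - 2 ≠ 0 := by
          have : (0 : ℝ) < (S.card : ℝ) - 2 := by linarith
          exact this.ne'
        rw [hg]
        exact (div_mul_cancel₀ _ h3).symm
      rw [h2]
      exact mul_le_mul_of_nonneg_right (h1.trans (le_max_right _ _)) (by linarith)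
  obtain ⟨R, _, hR2, hR3⟩ := feedback (V := Fin k) (max 1 (g S0)) (le_max_left _ _)
    (by rw [Fintype.card_fin]; omega) _ P le_rfl hsparse
  have hrR' : (r : ℝ) ≤ R.card := by exact_mod_cast hmin R hR3
  rw [Fintype.card_fin] at hR2
  have hk2 : (0 : ℝ) < (k : ℝ) - 2 := by linarith
  have hgt : 1 < g S0 := by
    by_contra hc
    rw [max_eq_left (not_lt.1 hc)] at hR2
    linarith
  rw [max_eq_right hgt.le] at hR2
  obtain ⟨F, hF, hFe⟩ := copy_eIn P S0
  have hge : g S0 = ((eIn P S0 : ℝ) - 1) / ((S0.card : ℝ) - 2) := by rw [hg]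
  have hv2 : (0 : ℝ) < (S0.card : ℝ) - 2 := by linarith
  have he1 : (S0.card : ℝ) - 2 < (eIn P S0 : ℝ) - 1 := by
    rw [hge, lt_div_iff₀ hv2] at hgt
    linarith
  refine ⟨S0.card, F, hF, by omega, ?_, ?_⟩
  · rw [hFe]
    have : (2 : ℝ) ≤ (eIn P S0 : ℝ) := by linarith
    exact_mod_cast this
  · rw [hFe, div_le_div_iff₀ (by linarith) (by linarith)]
    have h5 : g S0 * ((S0.card : ℝ) - 2) = (eIn P S0 : ℝ) - 1 := by
      rw [hge]
      exact div_mul_cancel₀ _ hv2.ne'
    have h4 : (r : ℝ) ≤ (g S0 - 1) * ((k : ℝ) - 2) := by linarith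
    have h6 : (r : ℝ) * ((S0.card : ℝ) - 2) ≤
        (g S0 - 1) * ((k : ℝ) - 2) * ((S0.card : ℝ) - 2) := mul_le_mul_of_nonneg_right h4 hv2.le
    have h7 : (g S0 - 1) * ((k : ℝ) - 2) * ((S0.card : ℝ) - 2) =
        (((eIn P S0 : ℝ) - 1) - ((S0.card : ℝ) - 2)) * ((k : ℝ) - 2) := by
      rw [← h5]
      ring
    rw [h7] at h6
    linarith

end H152TT
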