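import Mathlib
import Pool.Agent.H152.TT.Defs

set_option autoImplicit false

namespace H152TT

/-- `P` is ordered bipartite and deleting some at most `r` edges destroys all its cycles (that is,
`P` has at most `r` independent cycles) -/
def FewCycles {k : ℕ} (r : ℕ) (P : SimpleGraph (Fin k)) : Prop :=
  OrdBip P ∧ ∃ R : Finset (Sym2 (Fin k)), R.card ≤ r ∧
    (P.deleteEdges (R : Set (Sym2 (Fin k)))).IsAcyclic

end H152TT
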