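import Mathlib
import Pool.Agent.H152.TT.Defs
import Pool.Agent.H152.TT.Feedback

set_option autoImplicit false

open Finset

namespace H152TT

/-- two vertices with two common neighbours give a four-cycle -/
theorem c4_of_common {V : Type} (F : SimpleGraph V) (x x' y y' : V) (hx : x ≠ x') (hy : y ≠ y')
    (h1 : F.Adj x y) (h2 : F.Adj x y') (h3 : F.Adj x' y) (h4 : F.Adj x' y') :
    (SimpleGraph.cycleGraph (2 * 2)).IsContained F := by
  have hxy : x ≠ y := h1.ne
  have hxy' : x ≠ y' := h2.ne
  have hx'y : x' ≠ y := h3.ne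
  have hx'y' : x' ≠ y' := h4.ne
  obtain ⟨f, hf⟩ : ∃ f : Fin 4 → V, f = ![x, y, x', y'] := ⟨_, rfl⟩
  have f0 : f 0 = x := by rw [hf]; rfl
  have f1 : f 1 = y := by rw [hf]; rfl
  have f2 : f 2 = x' := by rw [hf]; rfl
  have f3 : f 3 = y' := by rw [hf]; rfl
  refine ⟨⟨⟨f, ?_⟩, ?_⟩⟩
  · intro a b hab
    have hab' : (SimpleGraph.cycleGraph (2 + 2)).Adj a b := hab
    rw [SimpleGraph.cycleGraph_adj] at hab'
    revert hab'
    fin_cases a <;> fin_cases b <;> intro hab'
    · exact absurd hab' (by decide)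
    · show F.Adj (f 0) (f 1)
      rw [f0, f1]; exact h1
    · exact absurd hab' (by decide)
    · show F.Adj (f 0) (f 3)
      rw [f0, f3]; exact h2
    · show F.Adj (f 1) (f 0)
      rw [f0, f1]; exact h1.symm
    · exact absurd hab' (by decide)
    · show F.Adj (f 1) (f 2)
      rw [f1, f2]; exact h3.symm
    · exact absurd hab' (by decide)
    · exact absurd hab' (by decide)
    · show F.Adj (f 2) (f 1)
      rw [f1, f2]; exact h3
    · exact absurd hab' (by decide)
    · show F.Adj (f 2) (f 3)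
      rw [f2, f3]; exact h4
    · show F.Adj (f 3) (f 0)
      rw [f0, f3]; exact h2.symm
    · exact absurd hab' (by decide)
    · show F.Adj (f 3) (f 2)
      rw [f2, f3]; exact h4.symm
    · exact absurd hab' (by decide)
  · intro a b hab
    have hab' : f a = f b := hab
    revert hab'
    fin_cases a <;> fin_cases b <;> intro hab'
    · rfl
    · exact absurd (f0 ▸ f1 ▸ hab' : x = y) hxy
    · exact absurd (f0 ▸ f2 ▸ hab' : x = x') hx
    · exact absurd (f0 ▸ f3 ▸ hab' : x = y') hxy'
    · exact absurd (f0 ▸ f1 ▸ hab' : y = x) hxy.symm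
    · rfl
    · exact absurd (f1 ▸ f2 ▸ hab' : y = x') hx'y.symm
    · exact absurd (f1 ▸ f3 ▸ hab' : y = y') hy
    · exact absurd (f0 ▸ f2 ▸ hab' : x' = x) hx.symm
    · exact absurd (f1 ▸ f2 ▸ hab' : x' = y) hx'y
    · rfl
    · exact absurd (f2 ▸ f3 ▸ hab' : x' = y') hx'y'
    · exact absurd (f0 ▸ f3 ▸ hab' : y' = x) hxy'.symm
    · exact absurd (f1 ▸ f3 ▸ hab' : y' = y) hy.symm
    · exact absurd (f2 ▸ f3 ▸ hab' : y' = x') hx'y'.symm
    · rfl

/-- counting the pairs of neighbours in a bipartite graph without four-cycles -/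
theorem c4free_count {V : Type} [Fintype V] [DecidableEq V] (F : SimpleGraph V)
    [DecidableRel F.Adj] (s t : Finset V) (h : F.IsBipartiteWith (s : Set V) (t : Set V))
    (hfree : ¬ (SimpleGraph.cycleGraph (2 * 2)).IsContained F) :
    ∑ v ∈ s, (F.degree v).choose 2 ≤ t.card.choose 2 := by
  have h1 : ∀ v ∈ s, (F.degree v).choose 2 = ((F.neighborFinset v).powersetCard 2).card := by
    intro v _
    rw [Finset.card_powersetCard, SimpleGraph.card_neighborFinset_eq_degree]
  rw [Finset.sum_congr rfl h1, ← Finset.card_biUnion, ← Finset.card_powersetCard]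
  · refine Finset.card_le_card ?_
    intro A hA
    rw [mem_biUnion] at hA
    obtain ⟨v, hv, hA⟩ := hA
    rw [Finset.mem_powersetCard] at hA ⊢
    exact ⟨hA.1.trans (SimpleGraph.isBipartiteWith_neighborFinset_subset h hv), hA.2⟩
  · intro v _ w _ hvw
    rw [Function.onFun, Finset.disjoint_left]
    intro A hA hA'
    rw [Finset.mem_powersetCard] at hA hA'
    obtain ⟨y, y', hyy, rfl⟩ := Finset.card_eq_two.1 hA.2
    apply hfree
    have e1 := hA.1 (Finset.mem_insert_self y {y'})
    have e2 := hA.1 (Finset.mem_insert_of_mem (Finset.mem_singleton_self y'))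
    have e3 := hA'.1 (Finset.mem_insert_self y {y'})
    have e4 := hA'.1 (Finset.mem_insert_of_mem (Finset.mem_singleton_self y'))
    rw [SimpleGraph.mem_neighborFinset] at e1 e2 e3 e4
    exact c4_of_common F v w y y' hvw hyy e1 e2 e3 e4

theorem tangent2 (d : ℕ) : 2 * d ≤ d.choose 2 + 3 := by
  rw [Nat.choose_two_right]
  rcases Nat.lt_or_ge d 3 with h | h
  · interval_cases d <;> norm_num
  · have h1 : 2 * (d * (d - 1) / 2) = d * (d - 1) :=
      Nat.mul_div_cancel' (Nat.even_mul_pred_self d).two_dvd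
    obtain ⟨e, rfl⟩ : ∃ e, d = e + 3 := ⟨d - 3, by omega⟩
    have h2 : (e + 3) * (e + 3 - 1) = e * e + 5 * e + 6 := by
      have : e + 3 - 1 = e + 2 := by omega
      rw [this]; ring
    rw [h2] at h1 ⊢
    nlinarith [Nat.zero_le (e * e)]

theorem tangent1 (d : ℕ) : d ≤ d.choose 2 + 1 := by
  rw [Nat.choose_two_right]
  rcases Nat.lt_or_ge d 3 with h | h
  · interval_cases d <;> norm_num
  · have h1 : 2 * (d * (d - 1) / 2) = d * (d - 1) :=
      Nat.mul_div_cancel' (Nat.even_mul_pred_self d).two_dvd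
    obtain ⟨e, rfl⟩ : ∃ e, d = e + 3 := ⟨d - 3, by omega⟩
    have h2 : (e + 3) * (e + 3 - 1) = e * e + 5 * e + 6 := by
      have : e + 3 - 1 = e + 2 := by omega
      rw [this]; ring
    rw [h2] at h1 ⊢
    nlinarith [Nat.zero_le (e * e)]

/-- the number of edges of a bipartite graph without four-cycles -/
theorem c4free_edges {V : Type} [Fintype V] [DecidableEq V] (F : SimpleGraph V)
    [DecidableRel F.Adj] (s t : Finset V) (h : F.IsBipartiteWith (s : Set V) (t : Set V))
    (hfree : ¬ (SimpleGraph.cycleGraph (2 * 2)).IsContained F) :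
    2 * F.edgeFinset.card ≤ t.card.choose 2 + 3 * s.card ∧
      F.edgeFinset.card ≤ t.card.choose 2 + s.card := by
  have h1 := c4free_count F s t h hfree
  have h2 := SimpleGraph.isBipartiteWith_sum_degrees_eq_card_edges h
  have h3 : ∑ v ∈ s, 2 * F.degree v ≤ ∑ v ∈ s, ((F.degree v).choose 2 + 3) :=
    Finset.sum_le_sum fun v _ => tangent2 _
  have h4 : ∑ v ∈ s, F.degree v ≤ ∑ v ∈ s, ((F.degree v).choose 2 + 1) :=
    Finset.sum_le_sum fun v _ => tangent1 _
  rw [← Finset.mul_sum, Finset.sum_add_distrib, Finset.sum_const, smul_eq_mul, h2] at h3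
  rw [Finset.sum_add_distrib, Finset.sum_const, smul_eq_mul, h2] at h4
  constructor <;> omega

theorem small_numeric (a b m : ℕ) (hab : a + b ≤ 9) (h2 : 2 ≤ m)
    (hm : 10 * (a + b) ≤ 7 * m + 13)
    (h3 : 2 * m ≤ b.choose 2 + 3 * a) (h4 : m ≤ b.choose 2 + a)
    (h5 : 2 * m ≤ a.choose 2 + 3 * b) (h6 : m ≤ a.choose 2 + b) (h7 : m ≤ a * b) : False := by
  have ha : a ≤ 9 := by omega
  have hb : b ≤ 9 := by omega
  rw [Nat.choose_two_right] at h3 h4 h5 h6
  interval_cases a <;> interval_cases b <;> omega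


/-- the number of edges of a bipartite graph is at most the product of the sides -/
theorem bip_edges_le {V : Type} [Fintype V] [DecidableEq V] (F : SimpleGraph V)
    [DecidableRel F.Adj] (s t : Finset V) (h : F.IsBipartiteWith (s : Set V) (t : Set V)) :
    F.edgeFinset.card ≤ s.card * t.card := by
  rw [← SimpleGraph.isBipartiteWith_sum_degrees_eq_card_edges h, ← smul_eq_mul]
  exact Finset.sum_le_card_nsmul s _ _ fun v hv => SimpleGraph.isBipartiteWith_degree_le h hv

/-- a bipartite pattern on at most nine vertices which needs at least three edges to be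
deleted contains a four-cycle -/
theorem small_c4 {k : ℕ} (P : SimpleGraph (Fin k)) (hO : OrdBip P) (hk : 3 ≤ k) (hk9 : k ≤ 9)
    (hmin : ∀ R : Finset (Sym2 (Fin k)), (P.deleteEdges (R : Set (Sym2 (Fin k)))).IsAcyclic →
      3 ≤ R.card) : (SimpleGraph.cycleGraph (2 * 2)).IsContained P := by
  classical
  by_contra hfree
  obtain ⟨v, F, hF, hv2, hm2, hd⟩ := dense_part P hk 3 (by norm_num) hmin
  obtain ⟨m, hm⟩ := hO
  obtain ⟨⟨f, hf⟩⟩ := hF
  have hvk : v ≤ k := by
    have := Fintype.card_le_of_injective f hf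
    simpa using this
  have hfree' : ¬ (SimpleGraph.cycleGraph (2 * 2)).IsContained F := fun h =>
    hfree (h.trans ⟨⟨f, hf⟩⟩)
  obtain ⟨s, hs⟩ : ∃ s : Finset (Fin v), s = univ.filter (fun x => (f x).val < m) := ⟨_, rfl⟩
  obtain ⟨t, ht⟩ : ∃ t : Finset (Fin v), t = univ.filter (fun x => ¬ (f x).val < m) := ⟨_, rfl⟩
  have hst : s.card + t.card = v := by
    rw [hs, ht, Finset.card_filter_add_card_filter_not, card_univ, Fintype.card_fin]
  have hbip : F.IsBipartiteWith (s : Set (Fin v)) (t : Set (Fin v)) := by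
    refine ⟨?_, ?_⟩
    · rw [Finset.disjoint_coe, hs, ht]
      exact Finset.disjoint_filter_filter_not _ _ _
    · intro x y hxy
      have h1 : P.Adj (f x) (f y) := f.map_adj hxy
      have h2 := hm _ _ h1
      simp only [hs, ht, Finset.coe_filter, Set.mem_ofPred_eq, mem_univ, true_and]
      by_cases h3 : (f x).val < m
      · left
        exact ⟨h3, by have := h2.1 h3; omega⟩
      · right
        refine ⟨h3, ?_⟩
        by_contra h4
        exact h3 (h2.2 (by omega))
  have h1 := c4free_edges F s t hbip hfree'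
  have h2 := c4free_edges F t s hbip.symm hfree'
  have h3 := bip_edges_le F s t hbip
  have he : F.edgeSet.ncard = F.edgeFinset.card := by
    rw [Set.ncard_eq_toFinset_card']
    rfl
  rw [he] at hm2 hd
  refine small_numeric s.card t.card F.edgeFinset.card (by omega) hm2 ?_ h1.1 h1.2 h2.1 h2.2 h3
  have hkR : (k : ℝ) ≤ 9 := by exact_mod_cast hk9
  have hkR3 : (3 : ℝ) ≤ k := by exact_mod_cast hk
  have hm2R : (2 : ℝ) ≤ F.edgeFinset.card := by exact_mod_cast hm2
  have h4 : ((v : ℝ) - 2) / ((F.edgeFinset.card : ℝ) - 1) ≤ 7 / 10 := by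
    refine hd.trans ?_
    push_cast
    rw [div_le_div_iff₀ (by linarith) (by norm_num)]
    linarith
  rw [div_le_div_iff₀ (by linarith) (by norm_num)] at h4
  have h5 : (10 : ℝ) * v ≤ 7 * F.edgeFinset.card + 13 := by linarith
  rw [hst]
  exact_mod_cast h5

end H152TT
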