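import Mathlib
import Pool.Agent.H152.TT.Defs
import Pool.Agent.H152.TT.Order

set_option autoImplicit false

open Finset

namespace H152TT

/-- the graph induced on a set, with all the other vertices isolated -/
def onSet {k : ℕ} (P : SimpleGraph (Fin k)) (S : Finset (Fin k)) : SimpleGraph (Fin k) where
  Adj u v := P.Adj u v ∧ u ∈ S ∧ v ∈ S
  symm := ⟨fun _ _ h => ⟨h.1.symm, h.2.2, h.2.1⟩⟩
  loopless := ⟨fun _ h => h.1.ne rfl⟩

theorem onSet_erase_le {k : ℕ} (P : SimpleGraph (Fin k)) (S : Finset (Fin k)) (a : Fin k) :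
    onSet P (S.erase a) ≤ onSet P S := by
  intro u v h
  exact ⟨h.1, (mem_erase.1 h.2.1).2, (mem_erase.1 h.2.2).2⟩

/-- in every subset of `S` there is a simplicial vertex different from a given vertex -/
def Dirac {k : ℕ} (H : SimpleGraph (Fin k)) (S : Finset (Fin k)) : Prop :=
  ∀ T : Finset (Fin k), T ⊆ S → 2 ≤ T.card → ∀ z : Fin k, ∃ w ∈ T, w ≠ z ∧
    ∀ u ∈ T, ∀ v ∈ T, H.Adj w u → H.Adj w v → u ≠ v → H.Adj u v

/-- the invariant of the construction -/
structure Good {k : ℕ} (P : SimpleGraph (Fin k)) (S : Finset (Fin k)) (H : SimpleGraph (Fin k)) :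
    Prop where
  le : onSet P S ≤ H
  mem : ∀ u v, H.Adj u v → u ∈ S ∧ v ∈ S
  reach : ∀ u v, H.Adj u v → (onSet P S).Reachable u v
  dirac : Dirac H S

/-- a hub is joined to its whole component -/
theorem hub_step {k : ℕ} (P : SimpleGraph (Fin k)) (S : Finset (Fin k)) (a : Fin k) (ha : a ∈ S)
    (H' : SimpleGraph (Fin k)) (hG : Good P (S.erase a) H') :
    ∃ H, Good P S H ∧ ∀ u v, H.Adj u v → H'.Adj u v ∨ u = a ∨ v = a := by
  classical
  obtain ⟨H, hH⟩ : ∃ H : SimpleGraph (Fin k), ∀ u v, H.Adj u v ↔ H'.Adj u v ∨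
      (u = a ∧ v ∈ S ∧ v ≠ a ∧ (onSet P S).Reachable a v) ∨
      (v = a ∧ u ∈ S ∧ u ≠ a ∧ (onSet P S).Reachable a u) := by
    refine ⟨⟨fun u v => H'.Adj u v ∨
      (u = a ∧ v ∈ S ∧ v ≠ a ∧ (onSet P S).Reachable a v) ∨
      (v = a ∧ u ∈ S ∧ u ≠ a ∧ (onSet P S).Reachable a u), ⟨?_⟩, ⟨?_⟩⟩, fun u v => Iff.rfl⟩
    · rintro u v (h | h | h)
      · exact Or.inl h.symm
      · exact Or.inr (Or.inr h)
      · exact Or.inr (Or.inl h)
    · rintro u (h | h | h)
      · exact h.ne rfl
      · exact h.2.2.1 h.1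
      · exact h.2.2.1 h.1
  have hmono : ∀ u v, (onSet P (S.erase a)).Reachable u v → (onSet P S).Reachable u v :=
    fun u v h => h.mono (onSet_erase_le P S a)
  refine ⟨H, ⟨?_, ?_, ?_, ?_⟩, ?_⟩
  · intro u v h
    rw [hH]
    by_cases hu : u = a
    · right; left
      refine ⟨hu, h.2.2, ?_, ?_⟩
      · rintro rfl
        exact h.1.ne hu
      · rw [← hu]
        exact h.reachable
    · by_cases hv : v = a
      · right; right
        refine ⟨hv, h.2.1, hu, ?_⟩
        rw [← hv]
        exact h.reachable.symm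
      · left
        exact hG.le ⟨h.1, mem_erase.2 ⟨hu, h.2.1⟩, mem_erase.2 ⟨hv, h.2.2⟩⟩
  · intro u v h
    rw [hH] at h
    rcases h with h | h | h
    · have := hG.mem u v h
      exact ⟨(mem_erase.1 this.1).2, (mem_erase.1 this.2).2⟩
    · exact ⟨h.1 ▸ ha, h.2.1⟩
    · exact ⟨h.2.1, h.1 ▸ ha⟩
  · intro u v h
    rw [hH] at h
    rcases h with h | h | h
    · exact hmono _ _ (hG.reach u v h)
    · rw [h.1]; exact h.2.2.2
    · rw [h.1]; exact h.2.2.2.symm
  · intro T hT hc z
    by_cases haT : a ∈ T
    · rcases Nat.lt_or_ge (T.erase a).card 2 with h2 | h2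
      · -- two vertices
        have h1 : T.card = 2 := by
          rw [card_erase_of_mem haT] at h2
          omega
        obtain ⟨x, y, hxy, rfl⟩ := Finset.card_eq_two.1 h1
        obtain ⟨w, hw, hwz⟩ : ∃ w ∈ ({x, y} : Finset (Fin k)), w ≠ z := by
          by_cases hx : x = z
          · exact ⟨y, by simp, fun h => hxy (hx.trans h.symm)⟩
          · exact ⟨x, by simp, hx⟩
        refine ⟨w, hw, hwz, ?_⟩
        intro u hu v hv hwu hwv huv
        exfalso
        rw [mem_insert, mem_singleton] at hw hu hv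
        have h3 := hwu.ne
        have h4 := hwv.ne
        rcases hw with rfl | rfl <;> rcases hu with rfl | rfl <;> rcases hv with rfl | rfl <;>
          simp_all
      · obtain ⟨w, hw, hwz, hcl⟩ := hG.dirac (T.erase a) (erase_subset_erase a hT) h2 z
        refine ⟨w, (mem_erase.1 hw).2, hwz, ?_⟩
        have hwa : w ≠ a := (mem_erase.1 hw).1
        have key : ∀ u ∈ T, ∀ v ∈ T, H.Adj w u → H.Adj w v → u ≠ v → u ≠ a → H.Adj u v := by
          intro u hu v hv hwu hwv huv hua
          rw [hH] at hwu hwv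
          have h1 : H'.Adj w u := by
            rcases hwu with h | h | h
            · exact h
            · exact absurd h.1 hwa
            · exact absurd h.1 hua
          rcases hwv with h | h | h
          · have hva : v ≠ a := (mem_erase.1 (hG.mem w v h).2).1
            rw [hH]
            left
            exact hcl u (mem_erase.2 ⟨hua, hu⟩) v (mem_erase.2 ⟨hva, hv⟩) h1 h huv
          · exact absurd h.1 hwa
          · rw [hH]
            right; right
            refine ⟨h.1, (mem_erase.1 (hG.mem w u h1).2).2, hua, ?_⟩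
            exact h.2.2.2.trans (hmono _ _ (hG.reach w u h1))
        intro u hu v hv hwu hwv huv
        by_cases hua : u = a
        · have hva : v ≠ a := fun h => huv (hua.trans h.symm)
          exact (key v hv u hu hwv hwu huv.symm hva).symm
        · exact key u hu v hv hwu hwv huv hua
    · obtain ⟨w, hw, hwz, hcl⟩ := hG.dirac T (fun x hx => mem_erase.2
        ⟨fun h => haT (h ▸ hx), hT hx⟩) hc z
      refine ⟨w, hw, hwz, ?_⟩
      intro u hu v hv hwu hwv huv
      have hne : ∀ x ∈ T, x ≠ a := fun x hx h => haT (h ▸ hx)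
      have key : ∀ x ∈ T, H.Adj w x → H'.Adj w x := by
        intro x hx h
        rw [hH] at h
        rcases h with h | h | h
        · exact h
        · exact absurd h.1 (hne w hw)
        · exact absurd h.1 (hne x hx)
      rw [hH]
      left
      exact hcl u hu v hv (key u hu hwu) (key v hv hwv) huv
  · intro u v h
    rw [hH] at h
    rcases h with h | h | h
    · exact Or.inl h
    · exact Or.inr (Or.inl h.1)
    · exact Or.inr (Or.inr h.1)

/-- a vertex which is on no cycle is joined to its neighbours only -/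
theorem free_step {k : ℕ} (P : SimpleGraph (Fin k)) (S : Finset (Fin k)) (a : Fin k) (ha : a ∈ S)
    (H' : SimpleGraph (Fin k)) (hG : Good P (S.erase a) H')
    (hfree : ∀ b c, P.Adj a b → P.Adj a c → b ∈ S → c ∈ S → b ≠ c →
      ¬ (onSet P (S.erase a)).Reachable b c) :
    ∃ H, Good P S H ∧ ∀ u v, H.Adj u v → H'.Adj u v ∨ P.Adj u v := by
  classical
  obtain ⟨H, hH⟩ : ∃ H : SimpleGraph (Fin k), ∀ u v, H.Adj u v ↔ H'.Adj u v ∨
      (u = a ∧ v ∈ S ∧ P.Adj a v) ∨ (v = a ∧ u ∈ S ∧ P.Adj a u) := by
    refine ⟨⟨fun u v => H'.Adj u v ∨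
      (u = a ∧ v ∈ S ∧ P.Adj a v) ∨ (v = a ∧ u ∈ S ∧ P.Adj a u), ⟨?_⟩, ⟨?_⟩⟩, fun u v => Iff.rfl⟩
    · rintro u v (h | h | h)
      · exact Or.inl h.symm
      · exact Or.inr (Or.inr h)
      · exact Or.inr (Or.inl h)
    · rintro u (h | h | h)
      · exact h.ne rfl
      · exact h.2.2.ne h.1.symm
      · exact h.2.2.ne h.1.symm
  have hmono : ∀ u v, (onSet P (S.erase a)).Reachable u v → (onSet P S).Reachable u v :=
    fun u v h => h.mono (onSet_erase_le P S a)
  have hnbr : ∀ x, H.Adj a x ↔ x ∈ S ∧ P.Adj a x := by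
    intro x
    rw [hH]
    constructor
    · rintro (h | h | h)
      · exact absurd rfl (mem_erase.1 (hG.mem a x h).1).1
      · exact h.2
      · exact absurd rfl h.2.2.ne
    · intro h
      exact Or.inr (Or.inl ⟨rfl, h⟩)
  have hoff : ∀ u v, u ≠ a → v ≠ a → (H.Adj u v ↔ H'.Adj u v) := by
    intro u v hu hv
    rw [hH]
    constructor
    · rintro (h | h | h)
      · exact h
      · exact absurd h.1 hu
      · exact absurd h.1 hv
    · intro h
      exact Or.inl h
  refine ⟨H, ⟨?_, ?_, ?_, ?_⟩, ?_⟩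
  · intro u v h
    rw [hH]
    by_cases hu : u = a
    · right; left
      exact ⟨hu, h.2.2, hu ▸ h.1⟩
    · by_cases hv : v = a
      · right; right
        exact ⟨hv, h.2.1, hv ▸ h.1.symm⟩
      · left
        exact hG.le ⟨h.1, mem_erase.2 ⟨hu, h.2.1⟩, mem_erase.2 ⟨hv, h.2.2⟩⟩
  · intro u v h
    rw [hH] at h
    rcases h with h | h | h
    · have := hG.mem u v h
      exact ⟨(mem_erase.1 this.1).2, (mem_erase.1 this.2).2⟩
    · exact ⟨h.1 ▸ ha, h.2.1⟩
    · exact ⟨h.2.1, h.1 ▸ ha⟩
  · intro u v h
    rw [hH] at h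
    have h2 : ∀ x, x ∈ S → P.Adj a x → (onSet P S).Adj a x := fun x hx hP => ⟨hP, ha, hx⟩
    rcases h with h | h | h
    · exact hmono _ _ (hG.reach u v h)
    · rw [h.1]; exact (h2 v h.2.1 h.2.2).reachable
    · rw [h.1]; exact (h2 u h.2.1 h.2.2).symm.reachable
  · intro T hT hc z
    by_cases haT : a ∈ T
    · -- the part of `T` attached at a neighbour of `a`
      have part : ∀ q ∈ T, P.Adj a q → (z ≠ a → z ∈ T → ¬ (onSet P (S.erase a)).Reachable q z) →
          ∃ w ∈ T, w ≠ z ∧ ∀ u ∈ T, ∀ v ∈ T, H.Adj w u → H.Adj w v → u ≠ v → H.Adj u v := by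
        intro q hq haq hz
        have hqa : q ≠ a := haq.ne.symm
        obtain ⟨D, hD⟩ : ∃ D : Finset (Fin k), D =
          (T.erase a).filter (fun x => (onSet P (S.erase a)).Reachable q x) := ⟨_, rfl⟩
        have hmemD : ∀ x, x ∈ D ↔ x ≠ a ∧ x ∈ T ∧ (onSet P (S.erase a)).Reachable q x := by
          intro x
          rw [hD, mem_filter, mem_erase, and_assoc]
        have hqD : q ∈ D := (hmemD q).2 ⟨hqa, hq, SimpleGraph.Reachable.refl _⟩
        -- the only neighbour of `a` in the part is `q`
        have honly : ∀ x ∈ D, P.Adj a x → x = q := by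
          intro x hx hax
          by_contra hne
          rw [hmemD] at hx
          exact hfree q x haq hax (hT hq) (hT hx.2.1) (Ne.symm hne) hx.2.2
        have hDS : D ⊆ S.erase a := by
          intro x hx
          rw [hmemD] at hx
          exact mem_erase.2 ⟨hx.1, hT hx.2.1⟩
        have hclos : ∀ w ∈ D, ∀ x ∈ T, x ≠ a → H'.Adj w x → x ∈ D := by
          intro w hw x hx hxa h
          rw [hmemD] at hw ⊢
          exact ⟨hxa, hx, hw.2.2.trans (hG.reach w x h)⟩
        rcases Nat.lt_or_ge D.card 2 with h2 | h2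
        · -- the part is a single vertex
          have hDq : ∀ x ∈ D, x = q := fun x hx => Finset.card_le_one.1 (by omega) x hx q hqD
          have hqz : q ≠ z := by
            rintro rfl
            exact hz hqa hq (SimpleGraph.Reachable.refl _)
          refine ⟨q, hq, hqz, ?_⟩
          have hone : ∀ x ∈ T, H.Adj q x → x = a := by
            intro x hx h
            by_contra hxa
            rw [hoff q x hqa hxa] at h
            exact h.ne (hDq x (hclos q hqD x hx hxa h)).symm
          intro u hu v hv h3 h4 huv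
          exact absurd ((hone u hu h3).trans (hone v hv h4).symm) huv
        · obtain ⟨w, hw, hwq, hcl⟩ := hG.dirac D hDS h2 q
          have hw' := (hmemD w).1 hw
          have hwz : w ≠ z := by
            rintro rfl
            exact hz hw'.1 hw'.2.1 hw'.2.2
          refine ⟨w, hw'.2.1, hwz, ?_⟩
          have hadj : ∀ x ∈ T, H.Adj w x → x ≠ a ∧ x ∈ D ∧ H'.Adj w x := by
            intro x hx h
            have hxa : x ≠ a := by
              rintro rfl
              exact hwq (honly w hw ((hnbr w).1 h.symm).2)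
            rw [hoff w x hw'.1 hxa] at h
            exact ⟨hxa, hclos w hw x hx hxa h, h⟩
          intro u hu v hv h3 h4 huv
          have h5 := hadj u hu h3
          have h6 := hadj v hv h4
          rw [hoff u v h5.1 h6.1]
          exact hcl u h5.2.1 v h6.2.1 h5.2.2 h6.2.2 huv
      by_cases hz : z = a
      · by_cases hq : ∃ q ∈ T, P.Adj a q
        · obtain ⟨q, hqT, haq⟩ := hq
          exact part q hqT haq (fun h => absurd hz h)
        · push Not at hq
          rcases Nat.lt_or_ge (T.erase a).card 2 with h2 | h2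
          · have h1 : (T.erase a).card = 1 := by
              have := card_erase_of_mem haT
              omega
            obtain ⟨t, ht⟩ := Finset.card_eq_one.1 h1
            have htm : t ∈ T.erase a := by rw [ht]; exact mem_singleton_self t
            refine ⟨t, (mem_erase.1 htm).2, hz ▸ (mem_erase.1 htm).1, ?_⟩
            intro u hu v hv h3 h4 huv
            exfalso
            have key : ∀ x ∈ T, ¬ H.Adj t x := by
              intro x hx h
              by_cases hxa : x = a
              · rw [hxa] at h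
                exact hq t (mem_erase.1 htm).2 ((hnbr t).1 h.symm).2
              · have : x ∈ T.erase a := mem_erase.2 ⟨hxa, hx⟩
                rw [ht, mem_singleton] at this
                exact h.ne this.symm
            exact key u hu h3
          · obtain ⟨w, hw, hwz, hcl⟩ := hG.dirac (T.erase a) (erase_subset_erase a hT) h2 z
            have hwa : w ≠ a := (mem_erase.1 hw).1
            have hwT : w ∈ T := (mem_erase.1 hw).2
            refine ⟨w, hwT, hwz, ?_⟩
            have hadj : ∀ x ∈ T, H.Adj w x → x ≠ a ∧ H'.Adj w x := by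
              intro x hx h
              have hxa : x ≠ a := by
                rintro rfl
                exact hq w hwT ((hnbr w).1 h.symm).2
              rw [hoff w x hwa hxa] at h
              exact ⟨hxa, h⟩
            intro u hu v hv h3 h4 huv
            have h5 := hadj u hu h3
            have h6 := hadj v hv h4
            rw [hoff u v h5.1 h6.1]
            exact hcl u (mem_erase.2 ⟨h5.1, hu⟩) v (mem_erase.2 ⟨h6.1, hv⟩) h5.2 h6.2 huv
      · by_cases hq : ∃ q ∈ T, P.Adj a q ∧ ¬ (onSet P (S.erase a)).Reachable q z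
        · obtain ⟨q, hqT, haq, hqz⟩ := hq
          exact part q hqT haq (fun _ _ => hqz)
        · push Not at hq
          refine ⟨a, haT, Ne.symm hz, ?_⟩
          intro u hu v hv h3 h4 huv
          exfalso
          rw [hnbr] at h3 h4
          exact hfree u v h3.2 h4.2 h3.1 h4.1 huv ((hq u hu h3.2).trans (hq v hv h4.2).symm)
    · obtain ⟨w, hw, hwz, hcl⟩ := hG.dirac T (fun x hx => mem_erase.2
        ⟨fun h => haT (h ▸ hx), hT hx⟩) hc z
      refine ⟨w, hw, hwz, ?_⟩
      intro u hu v hv hwu hwv huv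
      have hne : ∀ x ∈ T, x ≠ a := fun x hx h => haT (h ▸ hx)
      rw [hoff w u (hne w hw) (hne u hu)] at hwu
      rw [hoff w v (hne w hw) (hne v hv)] at hwv
      rw [hoff u v (hne u hu) (hne v hv)]
      exact hcl u hu v hv hwu hwv huv
  · intro u v h
    rw [hH] at h
    rcases h with h | h | h
    · exact Or.inl h
    · exact Or.inr (h.1 ▸ h.2.2)
    · exact Or.inr (h.1 ▸ h.2.2.symm)


/-- removing a hub lowers the number of edges needed to destroy all cycles -/
theorem drop {k : ℕ} (P : SimpleGraph (Fin k)) (S : Finset (Fin k)) (a : Fin k) (ha : a ∈ S)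
    (R : Finset (Sym2 (Fin k)))
    (hac : ((onSet P S).deleteEdges (R : Set (Sym2 (Fin k)))).IsAcyclic)
    (b c : Fin k) (hab : P.Adj a b) (hac' : P.Adj a c) (hb : b ∈ S) (hc : c ∈ S) (hbc : b ≠ c)
    (hr : (onSet P (S.erase a)).Reachable b c) :
    ∃ R' : Finset (Sym2 (Fin k)), R'.card + 1 ≤ R.card ∧
      ((onSet P (S.erase a)).deleteEdges (R' : Set (Sym2 (Fin k)))).IsAcyclic := by
  classical
  by_cases hR : ∃ e ∈ R, a ∈ e
  · obtain ⟨e, he, hae⟩ := hR
    refine ⟨R.erase e, by rw [card_erase_of_mem he]; have := card_pos.2 ⟨e, he⟩; omega, ?_⟩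
    refine hac.anti ?_
    intro u v h
    rw [SimpleGraph.deleteEdges_adj] at h ⊢
    refine ⟨onSet_erase_le P S a h.1, ?_⟩
    intro hmem
    apply h.2
    rw [mem_coe] at hmem ⊢
    refine mem_erase.2 ⟨?_, hmem⟩
    rintro rfl
    rcases Sym2.mem_iff.1 hae with h1 | h1
    · exact (mem_erase.1 h.1.2.1).1 h1.symm
    · exact (mem_erase.1 h.1.2.2).1 h1.symm
  · push Not at hR
    obtain ⟨F, hF⟩ : ∃ F, F = (onSet P S).deleteEdges (R : Set (Sym2 (Fin k))) := ⟨_, rfl⟩
    obtain ⟨F', hF'⟩ : ∃ F', F' = (onSet P (S.erase a)).deleteEdges (R : Set (Sym2 (Fin k))) :=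
      ⟨_, rfl⟩
    rw [← hF] at hac
    have hle : F' ≤ F := by
      intro u v h
      rw [hF', SimpleGraph.deleteEdges_adj] at h
      rw [hF, SimpleGraph.deleteEdges_adj]
      exact ⟨onSet_erase_le P S a h.1, h.2⟩
    have hFab : F.Adj a b := by
      rw [hF, SimpleGraph.deleteEdges_adj]
      exact ⟨⟨hab, ha, hb⟩, fun h => hR _ (by simpa using h) (Sym2.mem_mk_left _ _)⟩
    have hFac : F.Adj a c := by
      rw [hF, SimpleGraph.deleteEdges_adj]
      exact ⟨⟨hac', ha, hc⟩, fun h => hR _ (by simpa using h) (Sym2.mem_mk_left _ _)⟩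
    -- `b` and `c` are in different components of the smaller forest
    have hnr : ¬ F'.Reachable b c := by
      intro h
      have hbr := (SimpleGraph.isAcyclic_iff_forall_adj_isBridge.1 hac) hFab
      rw [SimpleGraph.isBridge_iff] at hbr
      apply hbr
      have h1 : F' ≤ F \ SimpleGraph.fromEdgeSet {s(a, b)} := by
        intro u v huv
        rw [SimpleGraph.sdiff_adj]
        refine ⟨hle huv, ?_⟩
        intro h2
        rw [SimpleGraph.fromEdgeSet_adj] at h2
        rw [hF', SimpleGraph.deleteEdges_adj] at huv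
        have h3 : a ∈ s(u, v) := by
          rw [Set.mem_singleton_iff.1 h2.1]
          exact Sym2.mem_mk_left _ _
        rcases Sym2.mem_iff.1 h3 with h4 | h4
        · exact (mem_erase.1 huv.1.2.1).1 h4.symm
        · exact (mem_erase.1 huv.1.2.2).1 h4.symm
      have h5 : (F \ SimpleGraph.fromEdgeSet {s(a, b)}).Adj a c := by
        rw [SimpleGraph.sdiff_adj]
        refine ⟨hFac, ?_⟩
        intro h2
        rw [SimpleGraph.fromEdgeSet_adj] at h2
        have h3 : s(a, c) = s(a, b) := h2.1
        rw [Sym2.eq_iff] at h3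
        rcases h3 with h3 | h3
        · exact hbc h3.2.symm
        · exact hab.ne h3.1
      exact h5.reachable.trans (h.mono h1).symm
    obtain ⟨x, y, hxy, hxyn⟩ : ∃ x y, (onSet P (S.erase a)).Adj x y ∧ ¬ F'.Reachable x y := by
      by_contra hcon
      push Not at hcon
      apply hnr
      obtain ⟨w⟩ := hr
      clear hbc hac' hc hb hab hnr hFab hFac
      induction w with
      | nil => exact SimpleGraph.Reachable.refl _
      | cons h _ ih => exact (hcon _ _ h).trans ih
    have hxyR : s(x, y) ∈ R := by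
      by_contra hn
      apply hxyn
      have : F'.Adj x y := by
        rw [hF', SimpleGraph.deleteEdges_adj]
        exact ⟨hxy, fun h => hn (by simpa using h)⟩
      exact this.reachable
    refine ⟨R.erase s(x, y), by
      rw [card_erase_of_mem hxyR]; have := card_pos.2 ⟨_, hxyR⟩; omega, ?_⟩
    have hac2 : (F' ⊔ SimpleGraph.edge x y).IsAcyclic :=
      SimpleGraph.IsAcyclic.sup_edge_of_not_reachable hxyn (hac.anti hle)
    refine hac2.anti ?_
    intro u v h
    rw [SimpleGraph.deleteEdges_adj] at h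
    rw [SimpleGraph.sup_adj]
    by_cases huv : s(u, v) = s(x, y)
    · right
      rw [SimpleGraph.edge_adj]
      rw [Sym2.eq_iff] at huv
      refine ⟨?_, h.1.1.ne⟩
      rcases huv with h1 | h1
      · exact Or.inl ⟨h1.1, h1.2⟩
      · exact Or.inr ⟨h1.1, h1.2⟩
    · left
      rw [hF', SimpleGraph.deleteEdges_adj]
      refine ⟨h.1, fun hm => h.2 ?_⟩
      rw [mem_coe] at hm ⊢
      exact mem_erase.2 ⟨huv, hm⟩

end H152TT
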