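import Mathlib
import Pool.Agent.H152.TT.Cyclo

set_option autoImplicit false

open Finset

namespace H152TT

theorem tracks_aux {k : ℕ} (P : SimpleGraph (Fin k)) (m : ℕ)
    (hm : ∀ u v, P.Adj u v → (u.val < m ↔ m ≤ v.val)) :
    ∀ n : ℕ, ∀ S : Finset (Fin k), S.card = n → ∀ ρ κ : ℕ,
      (∃ R : Finset (Sym2 (Fin k)), R.card ≤ ρ + κ ∧
        ((onSet P S).deleteEdges (R : Set (Sym2 (Fin k)))).IsAcyclic) →
      ∃ (H : SimpleGraph (Fin k)) (A B : Finset (Fin k)), A.card ≤ ρ ∧ B.card ≤ κ ∧ Good P S H ∧
        (∀ x y : Fin k, H.Adj x y → x < y → y.val < m → ∃ c ∈ A, x ≤ c ∧ c < y) ∧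
        (∀ x y : Fin k, H.Adj x y → x < y → m ≤ x.val → ∃ c ∈ B, x ≤ c ∧ c < y) := by
  classical
  intro n
  induction n with
  | zero =>
    intro S hS ρ κ _
    rw [Finset.card_eq_zero] at hS
    subst hS
    refine ⟨⊥, ∅, ∅, by simp, by simp, ⟨?_, ?_, ?_, ?_⟩, ?_, ?_⟩
    · intro u v h
      exact absurd h.2.1 (Finset.notMem_empty _)
    · intro u v h
      exact absurd h (by simp)
    · intro u v h
      exact absurd h (by simp)
    · intro T hT hc
      rw [Finset.subset_empty] at hT
      rw [hT] at hc
      simp at hc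
    · intro u v h
      exact absurd h (by simp)
    · intro u v h
      exact absurd h (by simp)
  | succ n ih =>
    intro S hS ρ κ hR
    have hne : S.Nonempty := by rw [← Finset.card_pos]; omega
    obtain ⟨R, hRc, hRa⟩ := hR
    -- the step at a vertex on no cycle
    have hfreestep : ∀ a ∈ S, (∀ b c, P.Adj a b → P.Adj a c → b ∈ S → c ∈ S → b ≠ c →
        ¬ (onSet P (S.erase a)).Reachable b c) →
        ∃ (H : SimpleGraph (Fin k)) (A B : Finset (Fin k)), A.card ≤ ρ ∧ B.card ≤ κ ∧ Good P S H ∧
        (∀ x y : Fin k, H.Adj x y → x < y → y.val < m → ∃ c ∈ A, x ≤ c ∧ c < y) ∧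
        (∀ x y : Fin k, H.Adj x y → x < y → m ≤ x.val → ∃ c ∈ B, x ≤ c ∧ c < y) := by
      intro a ha hfree
      obtain ⟨H', A, B, hA, hB, hG, h1, h2⟩ := ih (S.erase a)
        (by rw [card_erase_of_mem ha, hS]; rfl) ρ κ ⟨R, hRc, hRa.anti (by
          intro u v h
          rw [SimpleGraph.deleteEdges_adj] at h ⊢
          exact ⟨onSet_erase_le P S a h.1, h.2⟩)⟩
      obtain ⟨H, hGH, hHH⟩ := free_step P S a ha H' hG hfree
      refine ⟨H, A, B, hA, hB, hGH, ?_, ?_⟩
      · intro x y hxy hlt hy
        rcases hHH x y hxy with h | h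
        · exact h1 x y h hlt hy
        · exfalso
          have := (hm x y h).1 (by rw [Fin.lt_def] at hlt; omega)
          omega
      · intro x y hxy hlt hx
        rcases hHH x y hxy with h | h
        · exact h2 x y h hlt hx
        · exfalso
          have := (hm x y h).2 (by rw [Fin.lt_def] at hlt; omega)
          omega
    -- the drop at a hub
    have hdrop : ∀ a ∈ S, ¬ (∀ b c, P.Adj a b → P.Adj a c → b ∈ S → c ∈ S → b ≠ c →
        ¬ (onSet P (S.erase a)).Reachable b c) → (∃ b ∈ S, P.Adj a b) ∧
        ∃ R' : Finset (Sym2 (Fin k)), R'.card + 1 ≤ R.card ∧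
          ((onSet P (S.erase a)).deleteEdges (R' : Set (Sym2 (Fin k)))).IsAcyclic := by
      intro a ha hn
      push Not at hn
      obtain ⟨b, c, hab, hac, hb, hc, hbc, hr⟩ := hn
      exact ⟨⟨b, hb, hab⟩, drop P S a ha R hRa b c hab hac hb hc hbc hr⟩
    by_cases hrow : 1 ≤ ρ ∧ (S.filter (fun x => x.val < m)).Nonempty
    · obtain ⟨hρ, hrow⟩ := hrow
      obtain ⟨a, haf, hmin⟩ := Finset.exists_min_image _ (fun x : Fin k => x) hrow
      have haS : a ∈ S := (mem_filter.1 haf).1
      have ham : a.val < m := (mem_filter.1 haf).2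
      by_cases hfree : ∀ b c, P.Adj a b → P.Adj a c → b ∈ S → c ∈ S → b ≠ c →
        ¬ (onSet P (S.erase a)).Reachable b c
      · exact hfreestep a haS hfree
      · obtain ⟨_, R', hR'c, hR'a⟩ := hdrop a haS hfree
        obtain ⟨H', A, B, hA, hB, hG, h1, h2⟩ := ih (S.erase a)
          (by rw [card_erase_of_mem haS, hS]; rfl) (ρ - 1) κ ⟨R', by omega, hR'a⟩
        obtain ⟨H, hGH, hHH⟩ := hub_step P S a haS H' hG
        refine ⟨H, insert a A, B, ?_, hB, hGH, ?_, ?_⟩
        · have := Finset.card_insert_le a A
          omega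
        · intro x y hxy hlt hy
          rcases hHH x y hxy with h | h | h
          · obtain ⟨c, hc, hc'⟩ := h1 x y h hlt hy
            exact ⟨c, mem_insert_of_mem hc, hc'⟩
          · rw [h] at hlt ⊢
            exact ⟨a, mem_insert_self _ _, le_rfl, hlt⟩
          · exfalso
            have hxS := (hGH.mem x y hxy).1
            have hxm : x.val < m := by rw [Fin.lt_def] at hlt; omega
            have := hmin x (mem_filter.2 ⟨hxS, hxm⟩)
            rw [h] at hlt
            exact absurd hlt (not_lt.2 this)
        · intro x y hxy hlt hx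
          rcases hHH x y hxy with h | h | h
          · exact h2 x y h hlt hx
          · exfalso
            rw [h] at hx
            omega
          · exfalso
            rw [h, Fin.lt_def] at hlt
            omega
    · by_cases hcol : (S.filter (fun x => m ≤ x.val)).Nonempty
      · obtain ⟨a, haf, hmin⟩ := Finset.exists_min_image _ (fun x : Fin k => x) hcol
        have haS : a ∈ S := (mem_filter.1 haf).1
        have ham : m ≤ a.val := (mem_filter.1 haf).2
        by_cases hfree : ∀ b c, P.Adj a b → P.Adj a c → b ∈ S → c ∈ S → b ≠ c →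
          ¬ (onSet P (S.erase a)).Reachable b c
        · exact hfreestep a haS hfree
        · obtain ⟨⟨b, hbS, hab⟩, R', hR'c, hR'a⟩ := hdrop a haS hfree
          have hbm : b.val < m := (hm b a hab.symm).2 ham
          have hρ0 : ρ = 0 := by
            by_contra hne0
            exact hrow ⟨by omega, ⟨b, mem_filter.2 ⟨hbS, hbm⟩⟩⟩
          obtain ⟨H', A, B, hA, hB, hG, h1, h2⟩ := ih (S.erase a)
            (by rw [card_erase_of_mem haS, hS]; rfl) 0 (κ - 1) ⟨R', by omega, hR'a⟩
          obtain ⟨H, hGH, hHH⟩ := hub_step P S a haS H' hG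
          refine ⟨H, A, insert a B, by omega, ?_, hGH, ?_, ?_⟩
          · have := Finset.card_insert_le a B
            omega
          · intro x y hxy hlt hy
            rcases hHH x y hxy with h | h | h
            · exact h1 x y h hlt hy
            · exfalso
              rw [h, Fin.lt_def] at hlt
              omega
            · exfalso
              rw [h] at hy
              omega
          · intro x y hxy hlt hx
            rcases hHH x y hxy with h | h | h
            · obtain ⟨c, hc, hc'⟩ := h2 x y h hlt hx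
              exact ⟨c, mem_insert_of_mem hc, hc'⟩
            · rw [h] at hlt ⊢
              exact ⟨a, mem_insert_self _ _, le_rfl, hlt⟩
            · exfalso
              have hxS := (hGH.mem x y hxy).1
              have := hmin x (mem_filter.2 ⟨hxS, hx⟩)
              rw [h] at hlt
              exact absurd hlt (not_lt.2 this)
      · obtain ⟨a, haS⟩ := hne
        refine hfreestep a haS ?_
        intro b c hab _ hb _ _
        exfalso
        rcases Nat.lt_or_ge a.val m with h | h
        · exact hcol ⟨b, mem_filter.2 ⟨hb, (hm a b hab).1 h⟩⟩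
        · exact hcol ⟨a, mem_filter.2 ⟨haS, h⟩⟩

/-- if deleting `r` edges destroys all cycles then `⌈r/2⌉ + 1` tracks on each side suffice -/
theorem tracked_of_edges {k : ℕ} (P : SimpleGraph (Fin k)) (hO : OrdBip P) (r : ℕ)
    (h : ∃ R : Finset (Sym2 (Fin k)), R.card ≤ r ∧
      (P.deleteEdges (R : Set (Sym2 (Fin k)))).IsAcyclic) :
    Tracked ((r + 1) / 2 + 1) P := by
  classical
  obtain ⟨m, hm⟩ := hO
  obtain ⟨R, hRr, hRa⟩ := h
  obtain ⟨H, A, B, hA, hB, hG, h1, h2⟩ := tracks_aux P m hm _ univ rfl ((r + 1) / 2) (r / 2)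
    ⟨R, by omega, hRa.anti (by
      intro u v h
      rw [SimpleGraph.deleteEdges_adj] at h ⊢
      exact ⟨h.1.1, h.2⟩)⟩
  obtain ⟨s, hs⟩ : ∃ s, s = (r + 1) / 2 + 1 := ⟨_, rfl⟩
  rw [← hs]
  obtain ⟨ord, hinj, hord⟩ := exists_ord H (by
    intro S hne
    rcases Nat.lt_or_ge S.card 2 with h | h
    · obtain ⟨w, hw⟩ := hne
      refine ⟨w, hw, ?_⟩
      intro u hu v hv _ _ huv
      exact absurd (Finset.card_le_one.1 (by omega) u hu v hv) huv
    · obtain ⟨z, hz⟩ := hne
      obtain ⟨w, hw, _, hcl⟩ := hG.dirac S (subset_univ S) h z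
      exact ⟨w, hw, hcl⟩)
  obtain ⟨τ, hτ⟩ : ∃ τ : Fin k → ℕ, ∀ x, τ x = if x.val < m then (A.filter (fun a => a < x)).card
      else s + (B.filter (fun b => b < x)).card := ⟨_, fun _ => rfl⟩
  have hleft : ∀ x : Fin k, x.val < m → τ x < s := by
    intro x hx
    rw [hτ, if_pos hx]
    have := card_filter_le A (fun a => a < x)
    omega
  have hright : ∀ x : Fin k, m ≤ x.val → s ≤ τ x := by
    intro x hx
    rw [hτ, if_neg (by omega)]
    omega
  refine ⟨H, ord, τ, ?_, hinj, hord, ?_, ?_, ?_, ?_⟩
  · intro u v huv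
    exact hG.le ⟨huv, mem_univ _, mem_univ _⟩
  · intro u
    rcases Nat.lt_or_ge u.val m with h | h
    · have := hleft u h
      omega
    · rw [hτ, if_neg (by omega)]
      have := card_filter_le B (fun b => b < u)
      omega
  · intro u v huv
    rcases Nat.lt_or_ge u.val m with h | h
    · rcases Nat.lt_or_ge v.val m with h' | h'
      · rw [hτ, hτ, if_pos h, if_pos h']
        refine card_le_card ?_
        intro a ha
        rw [mem_filter] at ha ⊢
        exact ⟨ha.1, ha.2.trans_le huv⟩
      · have := hleft u h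
        have := hright v h'
        omega
    · have h' : m ≤ v.val := h.trans huv
      rw [hτ, hτ, if_neg (by omega), if_neg (by omega)]
      refine Nat.add_le_add_left (card_le_card ?_) s
      intro a ha
      rw [mem_filter] at ha ⊢
      exact ⟨ha.1, ha.2.trans_le huv⟩
  · -- adjacent vertices have different colours
    have key : ∀ u v : Fin k, u < v → H.Adj u v → τ u ≠ τ v := by
      intro u v hlt huv
      rcases Nat.lt_or_ge u.val m with h | h
      · rcases Nat.lt_or_ge v.val m with h' | h'
        · obtain ⟨c, hc, hc1, hc2⟩ := h1 u v huv hlt h'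
          rw [hτ, hτ, if_pos h, if_pos h']
          refine ne_of_lt (card_lt_card ?_)
          rw [Finset.ssubset_iff_of_subset]
          · exact ⟨c, mem_filter.2 ⟨hc, hc2⟩, fun h => absurd (mem_filter.1 h).2 (not_lt.2 hc1)⟩
          · intro a ha
            rw [mem_filter] at ha ⊢
            exact ⟨ha.1, ha.2.trans hlt⟩
        · have := hleft u h
          have := hright v h'
          omega
      · have h' : m ≤ v.val := h.trans hlt.le
        obtain ⟨c, hc, hc1, hc2⟩ := h2 u v huv hlt h
        rw [hτ, hτ, if_neg (by omega), if_neg (by omega)]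
        refine ne_of_lt (Nat.add_lt_add_left (card_lt_card ?_) s)
        rw [Finset.ssubset_iff_of_subset]
        · exact ⟨c, mem_filter.2 ⟨hc, hc2⟩, fun h => absurd (mem_filter.1 h).2 (not_lt.2 hc1)⟩
        · intro a ha
          rw [mem_filter] at ha ⊢
          exact ⟨ha.1, ha.2.trans hlt⟩
    intro u v huv
    rcases lt_trichotomy u v with h | h | h
    · exact key u v h huv
    · exact absurd h huv.ne
    · exact (key v u h huv.symm).symm
  · intro u v huv
    have hside := hm u v huv
    constructor
    · intro h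
      have hu : u.val < m := by
        by_contra hc
        have := hright u (by omega)
        omega
      exact hright v (hside.1 hu)
    · intro h
      have hv : m ≤ v.val := by
        by_contra hc
        have := hleft v (by omega)
        omega
      exact hleft u (hside.2 hv)

end H152TT
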