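import Mathlib

set_option autoImplicit false

open Finset

namespace H152TT

section
variable {n q : ℕ} [NeZero q]

/-- the graph of the pairs of colour zero -/
def colG (χ : Sym2 (Fin n) → Fin q) : SimpleGraph (Fin n) where
  Adj i j := i ≠ j ∧ χ s(i, j) = 0
  symm := ⟨fun i j h => ⟨h.1.symm, by rw [Sym2.eq_swap]; exact h.2⟩⟩
  loopless := ⟨fun _ h => h.1 rfl⟩

instance (χ : Sym2 (Fin n) → Fin q) : DecidableRel (colG χ).Adj :=
  fun i j => inferInstanceAs (Decidable (i ≠ j ∧ χ s(i, j) = 0))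

theorem zero_on (T : Finset (Sym2 (Fin n))) :
    (((univ : Finset (Sym2 (Fin n) → Fin q)).filter (fun χ => ∀ ε ∈ T, χ ε = 0)).card : ℝ) =
      (q : ℝ) ^ Fintype.card (Sym2 (Fin n)) / (q : ℝ) ^ T.card := by
  classical
  have hq : (q : ℝ) ≠ 0 := Nat.cast_ne_zero.2 (NeZero.ne q)
  have h1 : (univ : Finset (Sym2 (Fin n) → Fin q)).filter (fun χ => ∀ ε ∈ T, χ ε = 0) =
      Fintype.piFinset (fun ε => if ε ∈ T then {0} else univ) := by
    ext χ
    rw [mem_filter, Fintype.mem_piFinset]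
    constructor
    · intro h ε
      split_ifs with h'
      · rw [mem_singleton]; exact h.2 ε h'
      · exact mem_univ _
    · intro h
      refine ⟨mem_univ _, fun ε hε => ?_⟩
      have := h ε
      rw [if_pos hε, mem_singleton] at this
      exact this
  rw [h1, Fintype.card_piFinset]
  have h2 : ∀ ε : Sym2 (Fin n), (if ε ∈ T then ({0} : Finset (Fin q)) else univ).card =
      if ε ∈ T then 1 else q := by
    intro ε
    split_ifs
    · exact card_singleton _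
    · rw [card_univ, Fintype.card_fin]
  rw [Finset.prod_congr rfl (fun ε _ => h2 ε), Finset.prod_ite, Finset.prod_const_one, one_mul,
    Finset.prod_const]
  have h3 : (univ.filter (fun ε : Sym2 (Fin n) => ¬ ε ∈ T)).card + T.card =
      Fintype.card (Sym2 (Fin n)) := by
    have := Finset.card_filter_add_card_filter_not (s := (univ : Finset (Sym2 (Fin n))))
      (fun ε => ε ∈ T)
    rw [card_univ] at this
    have h4 : univ.filter (fun ε : Sym2 (Fin n) => ε ∈ T) = T := by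
      ext ε; simp
    rw [h4] at this
    omega
  rw [eq_div_iff (pow_ne_zero _ hq), Nat.cast_pow, ← pow_add, h3]

open Classical in
theorem ex_ge_col {v : ℕ} (F : SimpleGraph (Fin v)) (ε0 : Sym2 (Fin v)) (hε0 : ε0 ∈ F.edgeSet)
    (χ : Sym2 (Fin n) → Fin q) :
    ((univ.filter (fun ε : Sym2 (Fin n) => ¬ ε.IsDiag ∧ χ ε = 0)).card : ℝ) -
      ((univ.filter (fun f : Fin v ↪ Fin n => ∀ i j, F.Adj i j → χ s(f i, f j) = 0)).card : ℝ) ≤
      (SimpleGraph.extremalNumber n F : ℝ) := by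
  obtain ⟨D, hD⟩ : ∃ D : Finset (Sym2 (Fin n)), D =
    (univ.filter (fun f : Fin v ↪ Fin n => ∀ i j, F.Adj i j → χ s(f i, f j) = 0)).image
      (fun f : Fin v ↪ Fin n => Sym2.map f ε0) := ⟨_, rfl⟩
  have hDm : ∀ f : Fin v ↪ Fin n, (∀ i j, F.Adj i j → χ s(f i, f j) = 0) →
      Sym2.map f ε0 ∈ D := by
    intro f hf
    rw [hD]
    exact mem_image_of_mem _ (mem_filter.2 ⟨mem_univ _, hf⟩)
  have hDc : D.card ≤
      (univ.filter (fun f : Fin v ↪ Fin n => ∀ i j, F.Adj i j → χ s(f i, f j) = 0)).card := by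
    rw [hD]; exact card_image_le
  have hfree : F.Free ((colG χ).deleteEdges (D : Set (Sym2 (Fin n)))) := by
    rintro ⟨f⟩
    have hf : ∀ i j, F.Adj i j → (colG χ).Adj (f i) (f j) ∧ s(f i, f j) ∉ D := by
      intro i j hij
      have := f.toHom.map_adj hij
      have h1 := (SimpleGraph.deleteEdges_adj.1 this)
      exact ⟨h1.1, by simpa using h1.2⟩
    have hmem : Sym2.map f ε0 ∈ D :=
      hDm ⟨f, f.injective⟩ (fun i j hij => (hf i j hij).1.2)
    induction ε0 using Sym2.ind with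
    | _ a b =>
      exact (hf a b hε0).2 (by simpa using hmem)
  have hle := SimpleGraph.card_edgeFinset_le_extremalNumber hfree
  rw [Fintype.card_fin] at hle
  have hsub : (univ.filter (fun ε : Sym2 (Fin n) => ¬ ε.IsDiag ∧ χ ε = 0)) \ D ⊆
      ((colG χ).deleteEdges (D : Set (Sym2 (Fin n)))).edgeFinset := by
    intro ε hε
    rw [mem_sdiff, mem_filter] at hε
    rw [SimpleGraph.mem_edgeFinset]
    induction ε using Sym2.ind with
    | _ a b =>
      rw [SimpleGraph.mem_edgeSet, SimpleGraph.deleteEdges_adj]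
      exact ⟨⟨fun h => hε.1.2.1 h, hε.1.2.2⟩, by simpa using hε.2⟩
  have h1 := card_le_card hsub
  have h2 := le_card_sdiff D (univ.filter (fun ε : Sym2 (Fin n) => ¬ ε.IsDiag ∧ χ ε = 0))
  have h3 : ((univ.filter (fun ε : Sym2 (Fin n) => ¬ ε.IsDiag ∧ χ ε = 0)).card : ℝ) ≤
      (SimpleGraph.extremalNumber n F : ℝ) + D.card := by
    have h4 : (univ.filter (fun ε : Sym2 (Fin n) => ¬ ε.IsDiag ∧ χ ε = 0)).card ≤
        SimpleGraph.extremalNumber n F + D.card := by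
      have h5 : ((colG χ).deleteEdges (D : Set (Sym2 (Fin n)))).edgeFinset.card ≤
          SimpleGraph.extremalNumber n F := by convert! hle
      omega
    exact_mod_cast h4
  have h6 : (D.card : ℝ) ≤
      ((univ.filter (fun f : Fin v ↪ Fin n => ∀ i j, F.Adj i j → χ s(f i, f j) = 0)).card : ℝ) := by
    exact_mod_cast hDc
  linarith

/-- the deletion bound -/
theorem deletion {v : ℕ} (F : SimpleGraph (Fin v)) (e : ℕ) (he : F.edgeSet.ncard = e) (h1e : 1 ≤ e) :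
    ((n : ℝ) * ((n : ℝ) - 1) / 2) / q - (n : ℝ) ^ v / (q : ℝ) ^ e ≤
      (SimpleGraph.extremalNumber n F : ℝ) := by
  classical
  have hq : (0 : ℝ) < q := by exact_mod_cast NeZero.pos q
  obtain ⟨ε0, hε0⟩ : F.edgeSet.Nonempty := by
    rw [Set.nonempty_iff_ne_empty]
    intro h
    rw [h, Set.ncard_empty] at he
    omega
  have hM : (0 : ℝ) < (q : ℝ) ^ Fintype.card (Sym2 (Fin n)) := by positivity
  -- the number of colourings
  have hcol : ((univ : Finset (Sym2 (Fin n) → Fin q)).card : ℝ) =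
      (q : ℝ) ^ Fintype.card (Sym2 (Fin n)) := by
    rw [card_univ, Fintype.card_fun, Fintype.card_fin]
    push_cast
    rfl
  -- the number of pairs
  have hpairs : ((univ.filter (fun ε : Sym2 (Fin n) => ¬ ε.IsDiag)).card : ℝ) =
      (n : ℝ) * ((n : ℝ) - 1) / 2 := by
    have h1 := Sym2.card_subtype_not_diag (α := Fin n)
    rw [Fintype.card_subtype, Fintype.card_fin] at h1
    rw [h1, Nat.cast_choose_two]
  have hS1 : ∑ χ : Sym2 (Fin n) → Fin q,
      ((univ.filter (fun ε : Sym2 (Fin n) => ¬ ε.IsDiag ∧ χ ε = 0)).card : ℝ) =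
      ((n : ℝ) * ((n : ℝ) - 1) / 2) * ((q : ℝ) ^ Fintype.card (Sym2 (Fin n)) / q) := by
    have h1 : ∀ χ : Sym2 (Fin n) → Fin q,
        ((univ.filter (fun ε : Sym2 (Fin n) => ¬ ε.IsDiag ∧ χ ε = 0)).card : ℝ) =
        ∑ ε ∈ univ.filter (fun ε : Sym2 (Fin n) => ¬ ε.IsDiag), (if χ ε = 0 then (1 : ℝ) else 0) := by
      intro χ
      rw [← Finset.filter_filter, Finset.sum_boole]
    rw [Finset.sum_congr rfl (fun χ _ => h1 χ), Finset.sum_comm]
    have h2 : ∀ ε ∈ univ.filter (fun ε : Sym2 (Fin n) => ¬ ε.IsDiag),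
        ∑ χ : Sym2 (Fin n) → Fin q, (if χ ε = 0 then (1 : ℝ) else 0) =
        (q : ℝ) ^ Fintype.card (Sym2 (Fin n)) / q := by
      intro ε _
      rw [Finset.sum_boole]
      have := zero_on (q := q) ({ε} : Finset (Sym2 (Fin n)))
      simp only [mem_singleton, forall_eq, card_singleton, pow_one] at this
      exact this
    rw [Finset.sum_congr rfl h2, Finset.sum_const, nsmul_eq_mul, hpairs]
  have hS2 : ∑ χ : Sym2 (Fin n) → Fin q,
      ((univ.filter (fun f : Fin v ↪ Fin n => ∀ i j, F.Adj i j → χ s(f i, f j) = 0)).card : ℝ) ≤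
      (n : ℝ) ^ v * ((q : ℝ) ^ Fintype.card (Sym2 (Fin n)) / (q : ℝ) ^ e) := by
    have h1 : ∀ χ : Sym2 (Fin n) → Fin q,
        ((univ.filter (fun f : Fin v ↪ Fin n => ∀ i j, F.Adj i j → χ s(f i, f j) = 0)).card : ℝ) =
        ∑ f : Fin v ↪ Fin n, (if ∀ i j, F.Adj i j → χ s(f i, f j) = 0 then (1 : ℝ) else 0) := by
      intro χ
      rw [Finset.sum_boole]
    rw [Finset.sum_congr rfl (fun χ _ => h1 χ), Finset.sum_comm]
    have h2 : ∀ f ∈ (univ : Finset (Fin v ↪ Fin n)),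
        ∑ χ : Sym2 (Fin n) → Fin q, (if ∀ i j, F.Adj i j → χ s(f i, f j) = 0 then (1 : ℝ) else 0) =
        (q : ℝ) ^ Fintype.card (Sym2 (Fin n)) / (q : ℝ) ^ e := by
      intro f _
      rw [Finset.sum_boole]
      obtain ⟨T, hT⟩ : ∃ T : Finset (Sym2 (Fin n)), T = F.edgeFinset.image (Sym2.map f) := ⟨_, rfl⟩
      have hTc : T.card = e := by
        rw [hT, card_image_of_injective _ (Sym2.map.injective f.injective), ← he,
          Set.ncard_eq_toFinset_card']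
        rfl
      rw [← hTc, ← zero_on (q := q) T]
      congr 2
      ext χ
      simp only [mem_filter, mem_univ, true_and]
      constructor
      · intro h ε hε
        rw [hT, mem_image] at hε
        obtain ⟨ε', hε', rfl⟩ := hε
        rw [SimpleGraph.mem_edgeFinset] at hε'
        induction ε' using Sym2.ind with
        | _ a b => exact h a b hε'
      · intro h i j hij
        refine h _ ?_
        rw [hT, mem_image]
        exact ⟨s(i, j), by rw [SimpleGraph.mem_edgeFinset]; exact hij, rfl⟩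
    rw [Finset.sum_congr rfl h2, Finset.sum_const, nsmul_eq_mul]
    refine mul_le_mul_of_nonneg_right ?_ (by positivity)
    rw [card_univ]
    have h3 : Fintype.card (Fin v ↪ Fin n) ≤ n ^ v := by
      rw [Fintype.card_embedding_eq, Fintype.card_fin, Fintype.card_fin]
      exact Nat.descFactorial_le_pow _ _
    exact_mod_cast h3
  have hsum : ∑ χ : Sym2 (Fin n) → Fin q,
      (((univ.filter (fun ε : Sym2 (Fin n) => ¬ ε.IsDiag ∧ χ ε = 0)).card : ℝ) -
      ((univ.filter (fun f : Fin v ↪ Fin n => ∀ i j, F.Adj i j → χ s(f i, f j) = 0)).card : ℝ)) ≤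
      (q : ℝ) ^ Fintype.card (Sym2 (Fin n)) * (SimpleGraph.extremalNumber n F : ℝ) := by
    refine (Finset.sum_le_sum fun χ _ => ex_ge_col (n := n) (q := q) F ε0 hε0 χ).trans ?_
    rw [Finset.sum_const, nsmul_eq_mul, hcol]
  rw [Finset.sum_sub_distrib, hS1] at hsum
  have h7 : ((n : ℝ) * ((n : ℝ) - 1) / 2) * ((q : ℝ) ^ Fintype.card (Sym2 (Fin n)) / q) -
      (n : ℝ) ^ v * ((q : ℝ) ^ Fintype.card (Sym2 (Fin n)) / (q : ℝ) ^ e) ≤
      (q : ℝ) ^ Fintype.card (Sym2 (Fin n)) * (SimpleGraph.extremalNumber n F : ℝ) := by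
    linarith
  have h8 : ((n : ℝ) * ((n : ℝ) - 1) / 2) * ((q : ℝ) ^ Fintype.card (Sym2 (Fin n)) / q) -
      (n : ℝ) ^ v * ((q : ℝ) ^ Fintype.card (Sym2 (Fin n)) / (q : ℝ) ^ e) =
      (q : ℝ) ^ Fintype.card (Sym2 (Fin n)) *
      (((n : ℝ) * ((n : ℝ) - 1) / 2) / q - (n : ℝ) ^ v / (q : ℝ) ^ e) := by
    field_simp
  rw [h8] at h7
  exact le_of_mul_le_mul_left h7 hM

end

/-- lower bound for the extremal number of any graph -/
theorem ex_lower_density {v : ℕ} (F : SimpleGraph (Fin v)) (e : ℕ) (he : F.edgeSet.ncard = e)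
    (h2e : 2 ≤ e) (h2v : 2 ≤ v) :
    ∃ c : ℝ, 0 < c ∧ ∃ N0 : ℕ, ∀ n : ℕ, N0 ≤ n →
      c * (n : ℝ) ^ (2 - ((v : ℝ) - 2) / ((e : ℝ) - 1)) ≤ (SimpleGraph.extremalNumber n F : ℝ) := by
  refine ⟨1 / 72, by norm_num, 2, fun n hn => ?_⟩
  have hn0 : (0 : ℝ) < n := by exact_mod_cast (by omega : 0 < n)
  have hn1 : (1 : ℝ) ≤ n := by exact_mod_cast (by omega : 1 ≤ n)
  have hn2 : (2 : ℝ) ≤ n := by exact_mod_cast hn
  obtain ⟨γ, hγ⟩ : ∃ γ : ℝ, γ = ((v : ℝ) - 2) / ((e : ℝ) - 1) := ⟨_, rfl⟩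
  have he1 : (0 : ℝ) < (e : ℝ) - 1 := by
    have : (2 : ℝ) ≤ e := by exact_mod_cast h2e
    linarith
  have hv2 : (0 : ℝ) ≤ (v : ℝ) - 2 := by
    have : (2 : ℝ) ≤ v := by exact_mod_cast h2v
    linarith
  have hγ0 : 0 ≤ γ := by rw [hγ]; positivity
  have hg1 : 1 ≤ (n : ℝ) ^ γ := Real.one_le_rpow hn1 hγ0
  obtain ⟨q, hqdef⟩ : ∃ q : ℕ, q = ⌈8 * (n : ℝ) ^ γ⌉₊ := ⟨_, rfl⟩
  have hqlow : 8 * (n : ℝ) ^ γ ≤ q := by rw [hqdef]; exact Nat.le_ceil _
  have hqup : (q : ℝ) ≤ 9 * (n : ℝ) ^ γ := by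
    have : (q : ℝ) < 8 * (n : ℝ) ^ γ + 1 := by rw [hqdef]; exact Nat.ceil_lt_add_one (by positivity)
    linarith
  have hq0 : (0 : ℝ) < q := by linarith
  have hqN : q ≠ 0 := by
    intro h
    rw [h, Nat.cast_zero] at hq0
    exact lt_irrefl _ hq0
  have : NeZero q := ⟨hqN⟩
  have hdel := deletion (n := n) (q := q) F e he (by omega)
  rw [← hγ]
  -- the first term
  have h1 : (n : ℝ) ^ 2 / 4 / q ≤ ((n : ℝ) * ((n : ℝ) - 1) / 2) / q := by
    apply div_le_div_of_nonneg_right _ hq0.le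
    nlinarith
  -- the second term
  have h2 : (n : ℝ) ^ v / (q : ℝ) ^ e ≤ (n : ℝ) ^ 2 / 8 / q := by
    obtain ⟨e', rfl⟩ : ∃ e', e = e' + 1 := ⟨e - 1, by omega⟩
    have he' : (((e' + 1 : ℕ) : ℝ) - 1) = e' := by push_cast; ring
    rw [he'] at hγ he1
    have h3 : 8 * (n : ℝ) ^ (v - 2) ≤ (q : ℝ) ^ e' := by
      have h4 : (8 * (n : ℝ) ^ γ) ^ e' ≤ (q : ℝ) ^ e' := pow_le_pow_left₀ (by positivity) hqlow _
      refine le_trans ?_ h4
      rw [mul_pow]
      have h5 : ((n : ℝ) ^ γ) ^ e' = (n : ℝ) ^ (v - 2) := by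
        rw [← Real.rpow_natCast ((n : ℝ) ^ γ) e', ← Real.rpow_mul hn0.le,
          ← Real.rpow_natCast (n : ℝ) (v - 2)]
        congr 1
        rw [hγ, Nat.cast_sub h2v]
        field_simp
        push_cast
        ring
      rw [h5]
      refine mul_le_mul_of_nonneg_right ?_ (by positivity)
      have h6 : 1 ≤ e' := by omega
      calc (8 : ℝ) = 8 ^ 1 := by norm_num
        _ ≤ 8 ^ e' := pow_le_pow_right₀ (by norm_num) h6
    have h4 : (n : ℝ) ^ v = (n : ℝ) ^ 2 * (n : ℝ) ^ (v - 2) := by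
      rw [← pow_add]
      congr 1
      omega
    rw [pow_succ, div_div, div_le_div_iff₀ (by positivity) (by positivity), h4]
    have h5 : (n : ℝ) ^ 2 * (n : ℝ) ^ (v - 2) * (8 * (q : ℝ)) =
        ((n : ℝ) ^ 2 * q) * (8 * (n : ℝ) ^ (v - 2)) := by ring
    have h6 : (n : ℝ) ^ 2 * ((q : ℝ) ^ e' * q) = ((n : ℝ) ^ 2 * q) * (q : ℝ) ^ e' := by ring
    rw [h5, h6]
    exact mul_le_mul_of_nonneg_left h3 (by positivity)
  have h3 : (n : ℝ) ^ 2 / 8 / q ≤ (SimpleGraph.extremalNumber n F : ℝ) := by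
    have h4 : (n : ℝ) ^ 2 / 4 / q = (n : ℝ) ^ 2 / 8 / q + (n : ℝ) ^ 2 / 8 / q := by ring
    linarith
  refine le_trans ?_ h3
  rw [Real.rpow_sub hn0, div_div, Real.rpow_ofNat]
  rw [← mul_div_assoc, div_le_div_iff₀ (by positivity) (by positivity)]
  have h5 : (n : ℝ) ^ 2 * (8 * (q : ℝ)) ≤ (n : ℝ) ^ 2 * (8 * (9 * (n : ℝ) ^ γ)) := by
    refine mul_le_mul_of_nonneg_left ?_ (by positivity)
    linarith
  calc 1 / 72 * (n : ℝ) ^ 2 * (8 * (q : ℝ)) = 1 / 72 * ((n : ℝ) ^ 2 * (8 * (q : ℝ))) := by ring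
    _ ≤ 1 / 72 * ((n : ℝ) ^ 2 * (8 * (9 * (n : ℝ) ^ γ))) :=
        mul_le_mul_of_nonneg_left h5 (by norm_num)
    _ = (n : ℝ) ^ 2 * (n : ℝ) ^ γ := by ring

end H152TT
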