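import Mathlib

set_option autoImplicit false

open Finset

namespace H152TT

/-- vertices of the lift graphs -/
abbrev LV (q m : ℕ) : Type := Bool × (ZMod q) × (Fin m → ZMod q)

/-- the lift graph of `f`: the left vertex `(x, a)` and the right vertex `(s, b)` are joined when
`a + b = f x s` -/
def liftG (q m : ℕ) (f : ZMod q → ZMod q → Fin m → ZMod q) : SimpleGraph (LV q m) where
  Adj u v := (u.1 = false ∧ v.1 = true ∧ u.2.2 + v.2.2 = f u.2.1 v.2.1) ∨
    (u.1 = true ∧ v.1 = false ∧ v.2.2 + u.2.2 = f v.2.1 u.2.1)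
  symm := ⟨by
    rintro u v (h | h)
    · exact Or.inr ⟨h.2.1, h.1, h.2.2⟩
    · exact Or.inl ⟨h.2.1, h.1, h.2.2⟩⟩
  loopless := ⟨by
    rintro u (h | h)
    · rw [h.1] at h; exact Bool.noConfusion h.2.1
    · rw [h.1] at h; exact Bool.noConfusion h.2.1⟩

/-- periodic vertex sequence of a cycle in a graph -/
theorem cycle_seq {V : Type} (G : SimpleGraph V) (k : ℕ) (hk : 2 ≤ k)
    (h : (SimpleGraph.cycleGraph (2 * k)).IsContained G) :
    ∃ p : ℕ → V, (∀ i, G.Adj (p i) (p (i+1))) ∧ ∀ i j, p i = p j ↔ i ≡ j [MOD 2 * k] := by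
  obtain ⟨f⟩ := h
  have hpos : 0 < 2 * k := by omega
  refine ⟨fun i => f ⟨i % (2 * k), Nat.mod_lt _ hpos⟩, ?_, ?_⟩
  · intro i
    apply f.toHom.map_adj
    rw [SimpleGraph.cycleGraph_adj']
    right
    rw [Fin.sub_def]
    simp only
    rcases Nat.lt_or_ge (i % (2*k) + 1) (2*k) with hlt | hge
    · have e1 : (i + 1) % (2 * k) = i % (2 * k) + 1 := by
        rw [Nat.add_mod, Nat.mod_eq_of_lt (show 1 < 2 * k by omega), Nat.mod_eq_of_lt hlt]
      rw [e1]
      have e2 : 2 * k - i % (2 * k) + (i % (2 * k) + 1) = 2 * k + 1 := by omega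
      rw [e2, Nat.add_mod_left, Nat.mod_eq_of_lt (by omega)]
    · have h1 := Nat.mod_lt i hpos
      have e0 : i % (2 * k) = 2 * k - 1 := by omega
      have e1 : (i + 1) % (2 * k) = 0 := by
        rw [Nat.add_mod, e0, Nat.mod_eq_of_lt (show 1 < 2 * k by omega),
          show 2 * k - 1 + 1 = 2 * k by omega, Nat.mod_self]
      rw [e1, e0]
      have e2 : 2 * k - (2 * k - 1) + 0 = 1 := by omega
      rw [e2, Nat.mod_eq_of_lt (by omega)]
  · intro i j
    constructor
    · intro h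
      have h1 := f.injective h
      have := congrArg Fin.val h1
      exact this
    · intro h
      exact congrArg f.toHom (Fin.ext h)

theorem cycle_seq_map {V W : Type} (G : SimpleGraph V) (e : V ↪ W) (k : ℕ) (hk : 2 ≤ k)
    (h : (SimpleGraph.cycleGraph (2 * k)).IsContained (G.map e)) :
    ∃ p : ℕ → V, (∀ i, G.Adj (p i) (p (i+1))) ∧ ∀ i j, p i = p j ↔ i ≡ j [MOD 2 * k] := by
  obtain ⟨p, hp, hpe⟩ := cycle_seq (G.map e) k hk h
  have hex : ∀ i, ∃ v, e v = p i := by
    intro i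
    have := hp i
    rw [SimpleGraph.map_adj] at this
    obtain ⟨a, b, _, ha, _⟩ := this
    exact ⟨a, ha⟩
  choose p' hp' using hex
  refine ⟨p', ?_, ?_⟩
  · intro i
    have := hp i
    rw [← hp' i, ← hp' (i+1), SimpleGraph.map_adj_apply] at this
    exact this
  · intro i j
    rw [← hpe i j, ← hp' i, ← hp' j, e.injective.eq_iff]

theorem lift_seq_left {q m : ℕ} (f : ZMod q → ZMod q → Fin m → ZMod q) (k : ℕ) (hk : 2 ≤ k)
    (p : ℕ → LV q m) (hp : ∀ i, (liftG q m f).Adj (p i) (p (i+1)))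
    (hpe : ∀ i j, p i = p j ↔ i ≡ j [MOD 2 * k]) (h0 : (p 0).1 = false) :
    ∃ x s : ℕ → ZMod q, (∀ i, x i ≠ x (i+1)) ∧ (∀ i, s i ≠ s (i+1)) ∧ x k = x 0 ∧ s k = s 0 ∧
      ∀ j, ∑ i ∈ range k, (f (x i) (s i) j - f (x (i+1)) (s i) j) = 0 := by
  have hside : ∀ i, (p (2*i)).1 = false ∧ (p (2*i+1)).1 = true := by
    intro i
    induction i with
    | zero =>
      refine ⟨h0, ?_⟩
      rcases hp 0 with h | h
      · exact h.2.1
      · rw [h0] at h; exact absurd h.1 (by simp)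
    | succ i ih =>
      have h1 : (p (2*(i+1))).1 = false := by
        rcases hp (2*i+1) with h | h
        · rw [ih.2] at h; exact absurd h.1 (by simp)
        · exact h.2.1
      refine ⟨h1, ?_⟩
      rcases hp (2*(i+1)) with h | h
      · exact h.2.1
      · rw [h1] at h; exact absurd h.1 (by simp)
  have e1 : ∀ i, (p (2*i)).2.2 + (p (2*i+1)).2.2 = f (p (2*i)).2.1 (p (2*i+1)).2.1 := by
    intro i
    rcases hp (2*i) with h | h
    · exact h.2.2
    · rw [(hside i).1] at h; exact absurd h.1 (by simp)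
  have e2 : ∀ i, (p (2*(i+1))).2.2 + (p (2*i+1)).2.2 = f (p (2*(i+1))).2.1 (p (2*i+1)).2.1 := by
    intro i
    rcases hp (2*i+1) with h | h
    · rw [(hside i).2] at h; exact absurd h.1 (by simp)
    · exact h.2.2
  have hne : ∀ i, ¬ i ≡ i + 2 [MOD 2 * k] := by
    intro i h
    have h1 : 0 ≡ 2 [MOD 2 * k] := by
      have : i + 0 ≡ i + 2 [MOD 2 * k] := h
      exact Nat.ModEq.add_left_cancel' i this
    have h2 : (0 : ℕ) % (2 * k) = 2 % (2 * k) := h1
    rw [Nat.zero_mod, Nat.mod_eq_of_lt (by omega)] at h2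
    omega
  have hk0 : p (2 * k) = p 0 := by
    rw [hpe]
    have : (2 * k) % (2 * k) = 0 % (2 * k) := by rw [Nat.mod_self, Nat.zero_mod]
    exact this
  have hk1 : p (2 * k + 1) = p 1 := by
    rw [hpe]
    have : 2 * k + 1 ≡ 0 + 1 [MOD 2 * k] := by
      apply Nat.ModEq.add_right
      have : (2 * k) % (2 * k) = 0 % (2 * k) := by rw [Nat.mod_self, Nat.zero_mod]
      exact this
    exact this
  refine ⟨fun i => (p (2*i)).2.1, fun i => (p (2*i+1)).2.1, ?_, ?_, ?_, ?_, ?_⟩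
  · intro i h
    simp only at h
    have e3 := e1 i
    have e4 := e2 i
    rw [← h] at e4
    have e5 : (p (2*i)).2.2 = (p (2*(i+1))).2.2 := add_right_cancel (e3.trans e4.symm)
    have e6 : p (2*i) = p (2*(i+1)) :=
      Prod.ext ((hside i).1.trans (hside (i+1)).1.symm) (Prod.ext h e5)
    rw [hpe] at e6
    exact hne (2*i) e6
  · intro i h
    simp only at h
    have e3 := e2 i
    have e4 := e1 (i+1)
    rw [← h] at e4
    have e5 : (p (2*i+1)).2.2 = (p (2*(i+1)+1)).2.2 := add_left_cancel (e3.trans e4.symm)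
    have e6 : p (2*i+1) = p (2*(i+1)+1) :=
      Prod.ext ((hside i).2.trans (hside (i+1)).2.symm) (Prod.ext h e5)
    rw [hpe] at e6
    exact hne (2*i+1) e6
  · simp only
    rw [hk0]
  · simp only
    rw [hk1]
  · intro j
    have h1 : ∀ i ∈ range k, f (p (2*i)).2.1 (p (2*i+1)).2.1 j - f (p (2*(i+1))).2.1 (p (2*i+1)).2.1 j =
        (p (2*i)).2.2 j - (p (2*(i+1))).2.2 j := by
      intro i _
      rw [← e1 i, ← e2 i]
      simp
    rw [Finset.sum_congr rfl h1, Finset.sum_range_sub' (fun i => (p (2*i)).2.2 j) k]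
    rw [hk0]
    simp

theorem lift_seq {q m : ℕ} (f : ZMod q → ZMod q → Fin m → ZMod q) (k : ℕ) (hk : 2 ≤ k)
    (p : ℕ → LV q m) (hp : ∀ i, (liftG q m f).Adj (p i) (p (i+1)))
    (hpe : ∀ i j, p i = p j ↔ i ≡ j [MOD 2 * k]) :
    ∃ x s : ℕ → ZMod q, (∀ i, x i ≠ x (i+1)) ∧ (∀ i, s i ≠ s (i+1)) ∧ x k = x 0 ∧ s k = s 0 ∧
      ∀ j, ∑ i ∈ range k, (f (x i) (s i) j - f (x (i+1)) (s i) j) = 0 := by
  by_cases h0 : (p 0).1 = false
  · exact lift_seq_left f k hk p hp hpe h0
  · have h1 : (p 1).1 = false := by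
      rcases hp 0 with h | h
      · exact absurd h.1 h0
      · exact h.2.1
    refine lift_seq_left f k hk (fun i => p (i+1)) (fun i => hp (i+1)) ?_ h1
    intro i j
    rw [hpe]
    constructor
    · intro h
      exact Nat.ModEq.add_right_cancel' 1 h
    · intro h
      exact Nat.ModEq.add_right 1 h

/-- many edges -/
theorem lift_edges (q m N : ℕ) [NeZero q] (f : ZMod q → ZMod q → Fin m → ZMod q) (e : LV q m ↪ Fin N)
    {W : Type} (H : SimpleGraph W) (hfree : H.Free ((liftG q m f).map e)) :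
    q ^ (m + 2) ≤ SimpleGraph.extremalNumber N H := by
  classical
  have h1 := SimpleGraph.card_edgeFinset_le_extremalNumber hfree
  rw [Fintype.card_fin] at h1
  refine le_trans ?_ h1
  have h2 : Fintype.card ((ZMod q) × (Fin m → ZMod q) × (ZMod q)) = q ^ (m + 2) := by
    rw [Fintype.card_prod, Fintype.card_prod, ZMod.card, Fintype.card_fun, ZMod.card, Fintype.card_fin]
    ring
  rw [← h2, ← Finset.card_univ]
  refine Finset.card_le_card_of_injOn
    (fun t => s(e (false, t.1, t.2.1), e (true, t.2.2, f t.1 t.2.2 - t.2.1))) ?_ ?_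
  · intro t _
    rw [Finset.mem_coe, SimpleGraph.mem_edgeFinset, SimpleGraph.mem_edgeSet,
      SimpleGraph.map_adj_apply]
    left
    refine ⟨rfl, rfl, ?_⟩
    simp
  · rintro ⟨x, a, s⟩ _ ⟨x', a', s'⟩ _ h
    simp only [Sym2.eq_iff, e.injective.eq_iff, Prod.mk.injEq] at h
    rcases h with h | h
    · obtain ⟨⟨_, h3, h4⟩, _, h5, _⟩ := h
      rw [h3, h4, h5]
    · exact absurd h.1.1 (by simp)

end H152TT
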