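import Mathlib
import Pool.Agent.H152.TT.Lift

set_option autoImplicit false

open Finset

namespace H152TT

/-- moments determine the sums against products of linear factors -/
theorem moment_test {F : Type} [Field F] [DecidableEq F] (k D : ℕ) (x s : ℕ → F)
    (hmom : ∀ j, 1 ≤ j → j ≤ D → ∑ i ∈ range k, (x i ^ j * s i - x (i+1) ^ j * s i) = 0)
    (T : Finset F) (hT : T.card ≤ D) :
    ∑ i ∈ range k, s i * (∏ d ∈ T, (x i - d) - ∏ d ∈ T, (x (i+1) - d)) = 0 := by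
  obtain ⟨Q, hQ⟩ : ∃ Q : Polynomial F, Q = ∏ d ∈ T, (Polynomial.X - Polynomial.C d) := ⟨_, rfl⟩
  have hdeg : Q.natDegree < D + 1 := by
    rw [hQ, Polynomial.natDegree_prod_of_monic _ _ (fun d _ => Polynomial.monic_X_sub_C d)]
    simp only [Polynomial.natDegree_X_sub_C, Finset.sum_const, smul_eq_mul, mul_one]
    omega
  have hev : ∀ y : F, ∏ d ∈ T, (y - d) = ∑ j ∈ range (D+1), Q.coeff j * y ^ j := by
    intro y
    rw [← Polynomial.eval_eq_sum_range' hdeg, hQ, Polynomial.eval_prod]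
    simp
  have h1 : ∀ i ∈ range k, s i * (∏ d ∈ T, (x i - d) - ∏ d ∈ T, (x (i+1) - d)) =
      ∑ j ∈ range (D+1), Q.coeff j * (x i ^ j * s i - x (i+1) ^ j * s i) := by
    intro i _
    rw [hev, hev, ← Finset.sum_sub_distrib, Finset.mul_sum]
    exact Finset.sum_congr rfl fun j _ => by ring
  rw [Finset.sum_congr rfl h1, Finset.sum_comm]
  refine Finset.sum_eq_zero fun j hj => ?_
  rw [← Finset.mul_sum]
  rcases Nat.eq_zero_or_pos j with h0 | h0
  · subst h0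
    simp
  · rw [hmom j h0 (by have := Finset.mem_range.1 hj; omega), mul_zero]

/-- a value taken only once in a closed walk of length at most five steps on a side -/
theorem five_unique {F : Type} [Field F] [DecidableEq F] (x0 x1 x2 x3 x4 s0 s1 s2 s3 s4 : F)
    (h : ∀ T : Finset F, T.card ≤ 4 →
      s0 * (∏ d ∈ T, (x0 - d) - ∏ d ∈ T, (x1 - d)) + s1 * (∏ d ∈ T, (x1 - d) - ∏ d ∈ T, (x2 - d)) +
      s2 * (∏ d ∈ T, (x2 - d) - ∏ d ∈ T, (x3 - d)) + s3 * (∏ d ∈ T, (x3 - d) - ∏ d ∈ T, (x4 - d)) +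
      s4 * (∏ d ∈ T, (x4 - d) - ∏ d ∈ T, (x0 - d)) = 0)
    (h1 : x0 ≠ x1) (h2 : x0 ≠ x2) (h3 : x0 ≠ x3) (h4 : x0 ≠ x4) (hs : s4 ≠ s0) : False := by
  have hT := h {x1, x2, x3, x4} Finset.card_le_four
  have z : ∀ y ∈ ({x1, x2, x3, x4} : Finset F), ∏ d ∈ ({x1, x2, x3, x4} : Finset F), (y - d) = 0 := by
    intro y hy
    exact Finset.prod_eq_zero hy (sub_self y)
  have z0 : ∏ d ∈ ({x1, x2, x3, x4} : Finset F), (x0 - d) ≠ 0 := by
    rw [Finset.prod_ne_zero_iff]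
    intro d hd
    rw [sub_ne_zero]
    simp only [Finset.mem_insert, Finset.mem_singleton] at hd
    rcases hd with rfl | rfl | rfl | rfl <;> assumption
  rw [z x1 (by simp), z x2 (by simp), z x3 (by simp), z x4 (by simp)] at hT
  have h5 : (s0 - s4) * ∏ d ∈ ({x1, x2, x3, x4} : Finset F), (x0 - d) = 0 := by
    linear_combination hT
  rcases mul_eq_zero.1 h5 with h6 | h6
  · exact hs (sub_eq_zero.1 h6).symm
  · exact z0 h6

theorem four_unique {F : Type} [Field F] [DecidableEq F] (x0 x1 x2 x3 s0 s1 s2 s3 : F)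
    (h : ∀ T : Finset F, T.card ≤ 3 →
      s0 * (∏ d ∈ T, (x0 - d) - ∏ d ∈ T, (x1 - d)) + s1 * (∏ d ∈ T, (x1 - d) - ∏ d ∈ T, (x2 - d)) +
      s2 * (∏ d ∈ T, (x2 - d) - ∏ d ∈ T, (x3 - d)) +
      s3 * (∏ d ∈ T, (x3 - d) - ∏ d ∈ T, (x0 - d)) = 0)
    (h1 : x0 ≠ x1) (h2 : x0 ≠ x2) (h3 : x0 ≠ x3) (hs : s3 ≠ s0) : False := by
  have hT := h {x1, x2, x3} Finset.card_le_three
  have z : ∀ y ∈ ({x1, x2, x3} : Finset F), ∏ d ∈ ({x1, x2, x3} : Finset F), (y - d) = 0 := by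
    intro y hy
    exact Finset.prod_eq_zero hy (sub_self y)
  have z0 : ∏ d ∈ ({x1, x2, x3} : Finset F), (x0 - d) ≠ 0 := by
    rw [Finset.prod_ne_zero_iff]
    intro d hd
    rw [sub_ne_zero]
    simp only [Finset.mem_insert, Finset.mem_singleton] at hd
    rcases hd with rfl | rfl | rfl <;> assumption
  rw [z x1 (by simp), z x2 (by simp), z x3 (by simp)] at hT
  have h5 : (s0 - s3) * ∏ d ∈ ({x1, x2, x3} : Finset F), (x0 - d) = 0 := by
    linear_combination hT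
  rcases mul_eq_zero.1 h5 with h6 | h6
  · exact hs (sub_eq_zero.1 h6).symm
  · exact z0 h6

/-- the maps `x s, x² s, x³ s, x⁴ s` -/
def fA (q : ℕ) : ZMod q → ZMod q → Fin 4 → ZMod q := fun x s j => x ^ (j.val + 1) * s

/-- the maps `x s, x² s, x³ s, x s²` -/
def fB (q : ℕ) : ZMod q → ZMod q → Fin 4 → ZMod q :=
  fun x s j => if j.val = 3 then x * s ^ 2 else x ^ (j.val + 1) * s

/-- the map `x s` -/
def fC (q : ℕ) : ZMod q → ZMod q → Fin 1 → ZMod q := fun x s _ => x * s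

theorem free_A {q : ℕ} (hq : q.Prime) (k : ℕ) (hk : k = 2 ∨ k = 3 ∨ k = 5) (x s : ℕ → ZMod q)
    (hx : ∀ i, x i ≠ x (i+1)) (hs : ∀ i, s i ≠ s (i+1)) (hxk : x k = x 0) (hsk : s k = s 0)
    (hsum : ∀ j, ∑ i ∈ range k, (fA q (x i) (s i) j - fA q (x (i+1)) (s i) j) = 0) : False := by
  haveI : Fact q.Prime := ⟨hq⟩
  have hmom : ∀ j, 1 ≤ j → j ≤ 4 → ∑ i ∈ range k, (x i ^ j * s i - x (i+1) ^ j * s i) = 0 := by
    intro j h1 h4
    have := hsum ⟨j - 1, by omega⟩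
    unfold fA at this
    simp only [Nat.sub_add_cancel h1] at this
    exact this
  have ht := fun T hT => moment_test k 4 x s hmom T hT
  rcases hk with rfl | rfl | rfl
  · have h := ht {x 1} (by simp)
    simp only [Finset.sum_range_succ, Finset.sum_range_zero, Finset.prod_singleton, zero_add,
      Nat.reduceAdd] at h
    rw [hxk] at h
    have h2 : (s 0 - s 1) * (x 0 - x 1) = 0 := by linear_combination h
    rcases mul_eq_zero.1 h2 with h3 | h3
    · exact hs 0 (sub_eq_zero.1 h3)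
    · exact hx 0 (sub_eq_zero.1 h3)
  · have h := ht {x 1, x 2} ((Finset.card_le_two).trans (by norm_num))
    simp only [Finset.sum_range_succ, Finset.sum_range_zero, zero_add, Nat.reduceAdd] at h
    rw [hxk] at h
    have z1 : ∏ d ∈ ({x 1, x 2} : Finset (ZMod q)), (x 1 - d) = 0 :=
      Finset.prod_eq_zero (Finset.mem_insert_self _ _) (sub_self _)
    have z2 : ∏ d ∈ ({x 1, x 2} : Finset (ZMod q)), (x 2 - d) = 0 :=
      Finset.prod_eq_zero (Finset.mem_insert_of_mem (Finset.mem_singleton_self _)) (sub_self _)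
    have z0 : ∏ d ∈ ({x 1, x 2} : Finset (ZMod q)), (x 0 - d) ≠ 0 := by
      rw [Finset.prod_ne_zero_iff]
      intro d hd
      rw [sub_ne_zero]
      simp only [Finset.mem_insert, Finset.mem_singleton] at hd
      rcases hd with rfl | rfl
      · exact hx 0
      · rw [← hxk]; exact (hx 2).symm
    rw [z1, z2] at h
    have h2 : (s 0 - s 2) * ∏ d ∈ ({x 1, x 2} : Finset (ZMod q)), (x 0 - d) = 0 := by
      linear_combination h
    rcases mul_eq_zero.1 h2 with h3 | h3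
    · exact hs 2 (by rw [hsk]; exact (sub_eq_zero.1 h3).symm)
    · exact z0 h3
  · have h := ht
    simp only [Finset.sum_range_succ, Finset.sum_range_zero, zero_add, Nat.reduceAdd] at h
    rw [hxk] at h
    have x40 : x 4 ≠ x 0 := by rw [← hxk]; exact hx 4
    have s40 : s 4 ≠ s 0 := by rw [← hsk]; exact hs 4
    have x01 := hx 0
    have x12 := hx 1
    have x23 := hx 2
    have x34 := hx 3
    have u0 : x 0 = x 2 ∨ x 0 = x 3 := by
      by_contra hc
      push Not at hc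
      exact five_unique (x 0) (x 1) (x 2) (x 3) (x 4) (s 0) (s 1) (s 2) (s 3) (s 4)
        (fun T hT => h T hT) x01 hc.1 hc.2 x40.symm s40
    have u1 : x 1 = x 3 ∨ x 1 = x 4 := by
      by_contra hc
      push Not at hc
      exact five_unique (x 1) (x 2) (x 3) (x 4) (x 0) (s 1) (s 2) (s 3) (s 4) (s 0)
        (fun T hT => by linear_combination h T hT) x12 hc.1 hc.2 x01.symm (hs 0)
    have u2 : x 2 = x 4 ∨ x 2 = x 0 := by
      by_contra hc
      push Not at hc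
      exact five_unique (x 2) (x 3) (x 4) (x 0) (x 1) (s 2) (s 3) (s 4) (s 0) (s 1)
        (fun T hT => by linear_combination h T hT) x23 hc.1 hc.2 x12.symm (hs 1)
    have u3 : x 3 = x 0 ∨ x 3 = x 1 := by
      by_contra hc
      push Not at hc
      exact five_unique (x 3) (x 4) (x 0) (x 1) (x 2) (s 3) (s 4) (s 0) (s 1) (s 2)
        (fun T hT => by linear_combination h T hT) x34 hc.1 hc.2 x23.symm (hs 2)
    rcases u0 with u0 | u0
    · -- `x 0 = x 2`
      rcases u1 with u1 | u1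
      · rcases u3 with u3 | u3
        · exact x01 (u3.symm.trans u1.symm)
        · have u4 : x 4 = x 1 ∨ x 4 = x 2 := by
            by_contra hc
            push Not at hc
            exact five_unique (x 4) (x 0) (x 1) (x 2) (x 3) (s 4) (s 0) (s 1) (s 2) (s 3)
              (fun T hT => by linear_combination h T hT) x40 hc.1 hc.2 x34.symm (hs 3)
          rcases u4 with u4 | u4
          · exact x34 (u1.symm.trans u4.symm)
          · exact x40 (u4.trans u0.symm)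
      · rcases u3 with u3 | u3
        · exact x23 (u0.symm.trans u3.symm)
        · exact x34 (u3.trans u1)
    · -- `x 0 = x 3`
      rcases u2 with u2 | u2
      · rcases u1 with u1 | u1
        · exact x01 (u0.trans u1.symm)
        · exact x12 (u1.trans u2.symm)
      · exact x23 (u2.trans u0)

theorem free_B {q : ℕ} (hq : q.Prime) (hq2 : q ≠ 2) (x s : ℕ → ZMod q)
    (hx : ∀ i, x i ≠ x (i+1)) (hs : ∀ i, s i ≠ s (i+1)) (hxk : x 4 = x 0) (hsk : s 4 = s 0)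
    (hsum : ∀ j, ∑ i ∈ range 4, (fB q (x i) (s i) j - fB q (x (i+1)) (s i) j) = 0) : False := by
  haveI : Fact q.Prime := ⟨hq⟩
  have hmom : ∀ j, 1 ≤ j → j ≤ 3 → ∑ i ∈ range 4, (x i ^ j * s i - x (i+1) ^ j * s i) = 0 := by
    intro j h1 h4
    have := hsum ⟨j - 1, by omega⟩
    unfold fB at this
    have h5 : ¬ (j - 1 = 3) := by omega
    simp only [Nat.sub_add_cancel h1, h5, if_false] at this
    exact this
  have h3 := hsum 3
  have h : ∀ T : Finset (ZMod q), T.card ≤ 3 → _ := fun T hT => moment_test 4 3 x s hmom T hT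
  have h1 := hmom 1 le_rfl (by norm_num)
  simp only [Finset.sum_range_succ, Finset.sum_range_zero, zero_add, Nat.reduceAdd] at h h1 h3
  simp only [fB, Fin.isValue, Fin.coe_ofNat_eq_mod, Nat.reduceMod, if_true] at h3
  rw [hxk] at h h1 h3
  have x30 : x 3 ≠ x 0 := by rw [← hxk]; exact hx 3
  have s30 : s 3 ≠ s 0 := by rw [← hsk]; exact hs 3
  have x01 := hx 0
  have x12 := hx 1
  have x23 := hx 2
  have u0 : x 0 = x 2 := by
    by_contra hc
    exact four_unique (x 0) (x 1) (x 2) (x 3) (s 0) (s 1) (s 2) (s 3)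
      (fun T hT => h T hT) x01 hc x30.symm s30
  have u1 : x 1 = x 3 := by
    by_contra hc
    exact four_unique (x 1) (x 2) (x 3) (x 0) (s 1) (s 2) (s 3) (s 0)
      (fun T hT => by linear_combination h T hT) x12 hc x01.symm (hs 0)
  rw [← u0, ← u1] at h1 h3
  have hx' : x 0 - x 1 ≠ 0 := sub_ne_zero.2 x01
  have e1 : (x 0 - x 1) * (s 0 - s 1 + s 2 - s 3) = 0 := by linear_combination h1
  have e2 : (x 0 - x 1) * (s 0 ^ 2 - s 1 ^ 2 + s 2 ^ 2 - s 3 ^ 2) = 0 := by linear_combination h3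
  have e3 := (mul_eq_zero.1 e1).resolve_left hx'
  have e4 := (mul_eq_zero.1 e2).resolve_left hx'
  have e5 : (s 0 - s 1) * (2 * (s 0 - s 3)) = 0 := by
    have e6 : s 2 = s 1 + s 3 - s 0 := by linear_combination e3
    rw [e6] at e4
    linear_combination e4
  rcases mul_eq_zero.1 e5 with e6 | e6
  · exact hs 0 (sub_eq_zero.1 e6)
  · rcases mul_eq_zero.1 e6 with e7 | e7
    · have : ((2 : ℕ) : ZMod q) = 0 := by exact_mod_cast e7
      rw [ZMod.natCast_eq_zero_iff] at this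
      have h8 := (Nat.dvd_prime Nat.prime_two).1 this
      rcases h8 with h8 | h8
      · exact hq.one_lt.ne' h8
      · exact hq2 h8
    · exact s30 (sub_eq_zero.1 e7).symm

theorem free_C {q : ℕ} (hq : q.Prime) (x s : ℕ → ZMod q)
    (hx : ∀ i, x i ≠ x (i+1)) (hs : ∀ i, s i ≠ s (i+1)) (hxk : x 2 = x 0)
    (hsum : ∀ j, ∑ i ∈ range 2, (fC q (x i) (s i) j - fC q (x (i+1)) (s i) j) = 0) : False := by
  haveI : Fact q.Prime := ⟨hq⟩
  have h := hsum 0
  simp only [Finset.sum_range_succ, Finset.sum_range_zero, zero_add, Nat.reduceAdd, fC] at h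
  rw [hxk] at h
  have h2 : (s 0 - s 1) * (x 0 - x 1) = 0 := by linear_combination h
  rcases mul_eq_zero.1 h2 with h3 | h3
  · exact hs 0 (sub_eq_zero.1 h3)
  · exact hx 0 (sub_eq_zero.1 h3)

/-- for cycles of length four, six, eight and ten -/
theorem ex_prime_ten (q N r : ℕ) (hq : q.Prime) (hq2 : q ≠ 2) (hr : 2 ≤ r) (hr5 : r ≤ 5)
    (hN : 2 * q ^ (4 + 1) ≤ N) :
    q ^ (4 + 2) ≤ SimpleGraph.extremalNumber N (SimpleGraph.cycleGraph (2 * r)) := by
  classical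
  haveI : Fact q.Prime := ⟨hq⟩
  haveI : NeZero q := ⟨hq.ne_zero⟩
  have hcard : Fintype.card (LV q 4) ≤ Fintype.card (Fin N) := by
    rw [Fintype.card_fin, Fintype.card_prod, Fintype.card_prod, Fintype.card_bool, ZMod.card,
      Fintype.card_fun, ZMod.card, Fintype.card_fin]
    refine le_trans (le_of_eq ?_) hN
    ring
  obtain ⟨e⟩ := Function.Embedding.nonempty_of_card_le hcard
  by_cases h4 : r = 4
  · subst h4
    refine lift_edges q 4 N (fB q) e _ ?_
    intro hcon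
    obtain ⟨p, hp, hpe⟩ := cycle_seq_map _ e 4 (by norm_num) hcon
    obtain ⟨x, s, hx, hs, hxk, hsk, hsum⟩ := lift_seq (fB q) 4 (by norm_num) p hp hpe
    exact free_B hq hq2 x s hx hs hxk hsk hsum
  · refine lift_edges q 4 N (fA q) e _ ?_
    intro hcon
    obtain ⟨p, hp, hpe⟩ := cycle_seq_map _ e r hr hcon
    obtain ⟨x, s, hx, hs, hxk, hsk, hsum⟩ := lift_seq (fA q) r hr p hp hpe
    exact free_A hq r (by omega) x s hx hs hxk hsk hsum

theorem ex_prime_four (q N : ℕ) (hq : q.Prime) (hN : 2 * q ^ (1 + 1) ≤ N) :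
    q ^ (1 + 2) ≤ SimpleGraph.extremalNumber N (SimpleGraph.cycleGraph (2 * 2)) := by
  classical
  haveI : Fact q.Prime := ⟨hq⟩
  haveI : NeZero q := ⟨hq.ne_zero⟩
  have hcard : Fintype.card (LV q 1) ≤ Fintype.card (Fin N) := by
    rw [Fintype.card_fin, Fintype.card_prod, Fintype.card_prod, Fintype.card_bool, ZMod.card,
      Fintype.card_fun, ZMod.card, Fintype.card_fin]
    refine le_trans (le_of_eq ?_) hN
    ring
  obtain ⟨e⟩ := Function.Embedding.nonempty_of_card_le hcard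
  refine lift_edges q 1 N (fC q) e _ ?_
  intro hcon
  obtain ⟨p, hp, hpe⟩ := cycle_seq_map _ e 2 le_rfl hcon
  obtain ⟨x, s, hx, hs, hxk, hsk, hsum⟩ := lift_seq (fC q) 2 le_rfl p hp hpe
  exact free_C hq x s hx hs hxk hsum

/-- from primes to all `n` -/
theorem transfer (m : ℕ) (g : ℕ → ℕ)
    (h : ∀ q N : ℕ, q.Prime → q ≠ 2 → 2 * q ^ (m + 1) ≤ N → q ^ (m + 2) ≤ g N) :
    ∃ c : ℝ, 0 < c ∧ ∃ N0 : ℕ, ∀ n : ℕ, N0 ≤ n →
      c * (n : ℝ) ^ (((m : ℝ) + 2) / ((m : ℝ) + 1)) ≤ (g n : ℝ) := by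
  refine ⟨(1 / 2 ^ (m + 2) : ℝ) ^ (((m : ℝ) + 2) / ((m : ℝ) + 1)), by positivity, 2 * 4 ^ (m + 1), ?_⟩
  intro n hn
  obtain ⟨t, ht⟩ : ∃ t : ℕ, t = Nat.findGreatest (fun t => 2 * (2 * t) ^ (m + 1) ≤ n) n := ⟨_, rfl⟩
  have hPz : 2 * (2 * 2) ^ (m + 1) ≤ n := by simpa using hn
  have h2n : 2 ≤ n := by
    have : 1 ≤ (2 * 2) ^ (m + 1) := Nat.one_le_pow _ _ (by norm_num)
    omega
  have ht2 : 2 ≤ t := by
    rw [ht]
    exact Nat.le_findGreatest h2n hPz
  have ht1 : 2 * (2 * t) ^ (m + 1) ≤ n := by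
    rw [ht]
    exact Nat.findGreatest_spec (P := fun t => 2 * (2 * t) ^ (m + 1) ≤ n) h2n hPz
  have htn : n < 2 * (2 * (t + 1)) ^ (m + 1) := by
    by_contra hcon
    have h1 : 2 * (2 * (t + 1)) ^ (m + 1) ≤ n := not_lt.1 hcon
    have h2 : t + 1 ≤ n := by
      have h3 : 2 * (t + 1) ≤ (2 * (t + 1)) ^ (m + 1) := Nat.le_self_pow (by omega) _
      omega
    have h4 := Nat.le_findGreatest (P := fun t => 2 * (2 * t) ^ (m + 1) ≤ n) h2 h1
    rw [← ht] at h4
    omega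
  obtain ⟨q, hq, h1, h2⟩ := Nat.exists_prime_lt_and_le_two_mul t (by omega)
  have h3 : 2 * q ^ (m + 1) ≤ n := by
    refine le_trans ?_ ht1
    exact Nat.mul_le_mul_left _ (Nat.pow_le_pow_left h2 _)
  have h4 := h q n hq (by omega) h3
  have h5 : n ≤ 2 ^ (m + 2) * q ^ (m + 1) := by
    refine htn.le.trans ?_
    rw [mul_pow]
    have : (t + 1) ^ (m + 1) ≤ q ^ (m + 1) := Nat.pow_le_pow_left h1 _
    calc 2 * (2 ^ (m + 1) * (t + 1) ^ (m + 1)) = 2 ^ (m + 2) * (t + 1) ^ (m + 1) := by ring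
      _ ≤ _ := Nat.mul_le_mul_left _ this
  have h5R : (n : ℝ) ≤ 2 ^ (m + 2) * (q : ℝ) ^ (m + 1) := by exact_mod_cast h5
  have h6 : (1 / 2 ^ (m + 2) : ℝ) * (n : ℝ) ≤ (q : ℝ) ^ (m + 1) := by
    rw [div_mul_eq_mul_div, one_mul, div_le_iff₀ (by positivity)]
    linarith
  have hm1 : (0 : ℝ) < (m : ℝ) + 1 := by positivity
  have hq0 : (0 : ℝ) ≤ (q : ℝ) := Nat.cast_nonneg _
  rw [← Real.mul_rpow (by positivity) (Nat.cast_nonneg _)]
  calc ((1 / 2 ^ (m + 2) : ℝ) * (n : ℝ)) ^ (((m : ℝ) + 2) / ((m : ℝ) + 1)) ≤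
        ((q : ℝ) ^ (m + 1)) ^ (((m : ℝ) + 2) / ((m : ℝ) + 1)) :=
        Real.rpow_le_rpow (by positivity) h6 (by positivity)
    _ = (q : ℝ) ^ (m + 2) := by
        rw [← Real.rpow_natCast (q : ℝ) (m+1), ← Real.rpow_mul hq0, ← Real.rpow_natCast (q : ℝ) (m+2)]
        congr 1
        push_cast
        field_simp
    _ ≤ (g n : ℝ) := by exact_mod_cast h4

theorem ex_lower_ten (r : ℕ) (hr : 2 ≤ r) (hr5 : r ≤ 5) :
    ∃ c : ℝ, 0 < c ∧ ∃ N0 : ℕ, ∀ n : ℕ, N0 ≤ n → c * (n : ℝ) ^ ((6 : ℝ) / 5) ≤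
      (SimpleGraph.extremalNumber n (SimpleGraph.cycleGraph (2 * r)) : ℝ) := by
  obtain ⟨c, hc, N0, h⟩ := transfer 4 (fun N => SimpleGraph.extremalNumber N (SimpleGraph.cycleGraph (2 * r)))
    (fun q N hq hq2 hN => ex_prime_ten q N r hq hq2 hr hr5 hN)
  refine ⟨c, hc, N0, fun n hn => ?_⟩
  have := h n hn
  norm_num at this ⊢
  exact this

theorem ex_lower_four :
    ∃ c : ℝ, 0 < c ∧ ∃ N0 : ℕ, ∀ n : ℕ, N0 ≤ n → c * (n : ℝ) ^ ((3 : ℝ) / 2) ≤
      (SimpleGraph.extremalNumber n (SimpleGraph.cycleGraph (2 * 2)) : ℝ) := by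
  obtain ⟨c, hc, N0, h⟩ := transfer 1 (fun N => SimpleGraph.extremalNumber N (SimpleGraph.cycleGraph (2 * 2)))
    (fun q N hq _ hN => ex_prime_four q N hq hN)
  refine ⟨c, hc, N0, fun n hn => ?_⟩
  have := h n hn
  norm_num at this ⊢
  exact this

end H152TT
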