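import Mathlib

set_option autoImplicit false

open Finset

namespace H152TT

/-- two norm circles meet in at most two points -/
theorem circles {K : Type} [Field K] (φ : K →+* K) (hφ : ∀ x, φ (φ x) = x) (A1 A2 c1 c2 : K)
    (hA : A1 ≠ A2) (Z : Fin 3 → K) (hZ : Function.Injective Z)
    (h1 : ∀ j, (Z j + A1) * φ (Z j + A1) = c1) (h2 : ∀ j, (Z j + A2) * φ (Z j + A2) = c2) :
    False := by
  have hD : A1 - A2 ≠ 0 := sub_ne_zero.2 hA
  have hφD : φ (A1 - A2) ≠ 0 := (map_ne_zero φ).2 hD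
  obtain ⟨V, hV⟩ : ∃ V : Fin 3 → K, ∀ j, V j = (Z j + A1) * φ (A1 - A2) := ⟨_, fun _ => rfl⟩
  have hφV : ∀ j, φ (V j) = φ (Z j + A1) * (A1 - A2) := by
    intro j
    rw [hV, map_mul, hφ]
  have hsum : ∀ j, V j + φ (V j) = c1 - c2 + (A1 - A2) * φ (A1 - A2) := by
    intro j
    have e1 := h1 j
    have e2 := h2 j
    rw [hφV, hV]
    simp only [map_add, map_sub] at e1 e2 ⊢
    linear_combination e1 - e2
  have hprod : ∀ j, V j * φ (V j) = c1 * ((A1 - A2) * φ (A1 - A2)) := by
    intro j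
    rw [hφV, hV, ← h1 j]
    ring
  have hinj : Function.Injective V := by
    intro i j hij
    apply hZ
    rw [hV, hV] at hij
    exact add_right_cancel (mul_right_cancel₀ hφD hij)
  have key : ∀ i j, i ≠ j → V i + V j = c1 - c2 + (A1 - A2) * φ (A1 - A2) := by
    intro i j hij
    have hne : V i - V j ≠ 0 := sub_ne_zero.2 (fun h => hij (hinj h))
    apply mul_left_cancel₀ hne
    have a1 := hsum i
    have a2 := hsum j
    have a3 := hprod i
    have a4 := hprod j
    linear_combination V i * a1 - V j * a2 - a3 + a4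
  have k1 := key 0 1 (by decide)
  have k2 := key 0 2 (by decide)
  have : V 1 = V 2 := by
    have := k1.trans k2.symm
    exact add_left_cancel this
  exact absurd (hinj this) (by decide)

section
variable (p : ℕ) [hp : Fact p.Prime]

noncomputable instance instFintypeGF : Fintype (GaloisField p 2) := Fintype.ofFinite _

theorem gf_card : Fintype.card (GaloisField p 2) = p ^ 2 := by
  rw [← Nat.card_eq_fintype_card, GaloisField.card p 2 (by norm_num)]

theorem gf_frob (x : GaloisField p 2) : frobenius (GaloisField p 2) p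
    (frobenius (GaloisField p 2) p x) = x := by
  rw [frobenius_def, frobenius_def, ← pow_mul]
  have h := FiniteField.pow_card x
  rw [gf_card] at h
  rw [← pow_two]
  exact h

theorem gf_norm (x : GaloisField p 2) :
    algebraMap (ZMod p) (GaloisField p 2) (Algebra.norm (ZMod p) x) =
      x * frobenius (GaloisField p 2) p x := by
  rw [FiniteField.algebraMap_norm_eq_pow, frobenius_def, ← pow_succ']
  congr 1
  rw [Nat.card_eq_fintype_card, Nat.card_eq_fintype_card, gf_card, ZMod.card]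
  have h2 : 2 ≤ p := hp.out.two_le
  have : p ^ 2 - 1 = (p + 1) * (p - 1) := by
    obtain ⟨q, rfl⟩ : ∃ q, p = q + 1 := ⟨p - 1, by omega⟩
    simp only [Nat.add_sub_cancel]
    have : (q + 1) ^ 2 = (q + 1 + 1) * q + 1 := by ring
    omega
  rw [this, Nat.mul_div_cancel _ (by omega)]

/-- vertices of the norm graph -/
abbrev NV : Type := Bool × GaloisField p 2 × (ZMod p)ˣ

/-- the norm graph -/
def normG : SimpleGraph (NV p) where
  Adj u v := u.1 ≠ v.1 ∧ Algebra.norm (ZMod p) (u.2.1 + v.2.1) =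
    ((u.2.2 * v.2.2 : (ZMod p)ˣ) : ZMod p)
  symm := ⟨fun u v h => ⟨h.1.symm, by rw [add_comm, h.2, mul_comm]⟩⟩
  loopless := ⟨fun _ h => h.1 rfl⟩

theorem norm_no_K33 (X Y : Fin 3 → GaloisField p 2) (x y : Fin 3 → (ZMod p)ˣ)
    (hX : Function.Injective (fun i => (X i, x i))) (hY : Function.Injective (fun i => (Y i, y i)))
    (h : ∀ i j, Algebra.norm (ZMod p) (X i + Y j) = ((x i * y j : (ZMod p)ˣ) : ZMod p)) :
    False := by
  obtain ⟨φ, hφdef⟩ : ∃ φ : GaloisField p 2 →+* GaloisField p 2, φ = frobenius (GaloisField p 2) p :=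
    ⟨_, rfl⟩
  have hφ : ∀ z, φ (φ z) = z := by
    intro z
    rw [hφdef]
    exact gf_frob p z
  have hN : ∀ i j, (X i + Y j) * φ (X i + Y j) =
      algebraMap (ZMod p) (GaloisField p 2) (x i : ZMod p) *
        algebraMap (ZMod p) (GaloisField p 2) (y j : ZMod p) := by
    intro i j
    rw [hφdef, ← gf_norm, h, Units.val_mul, map_mul]
  have hx0 : ∀ i, algebraMap (ZMod p) (GaloisField p 2) (x i : ZMod p) ≠ 0 := by
    intro i
    rw [Ne, map_eq_zero]
    exact (x i).ne_zero
  have hy0 : ∀ i, algebraMap (ZMod p) (GaloisField p 2) (y i : ZMod p) ≠ 0 := by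
    intro i
    rw [Ne, map_eq_zero]
    exact (y i).ne_zero
  have hXinj : Function.Injective X := by
    intro i j hij
    apply hX
    simp only [Prod.mk.injEq]
    refine ⟨hij, ?_⟩
    have h1 := h i 0
    rw [hij, h j 0] at h1
    exact mul_right_cancel (Units.ext h1).symm
  have hYinj : Function.Injective Y := by
    intro i j hij
    apply hY
    simp only [Prod.mk.injEq]
    refine ⟨hij, ?_⟩
    have h1 := h 0 i
    rw [hij, h 0 j] at h1
    exact mul_left_cancel (Units.ext h1).symm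
  have hs : ∀ j, X j + Y 2 ≠ 0 := by
    intro j h0
    have h1 := hN j 2
    rw [h0, zero_mul] at h1
    exact mul_ne_zero (hx0 j) (hy0 2) h1.symm
  have hY02 : Y 0 - Y 2 ≠ 0 := sub_ne_zero.2 (fun h => absurd (hYinj h) (by decide))
  have hY12 : Y 1 - Y 2 ≠ 0 := sub_ne_zero.2 (fun h => absurd (hYinj h) (by decide))
  have key : ∀ i j, Y i - Y 2 ≠ 0 →
      ((X j + Y 2)⁻¹ + (Y i - Y 2)⁻¹) * φ ((X j + Y 2)⁻¹ + (Y i - Y 2)⁻¹) =
      algebraMap (ZMod p) (GaloisField p 2) (y i : ZMod p) /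
        (algebraMap (ZMod p) (GaloisField p 2) (y 2 : ZMod p) * ((Y i - Y 2) * φ (Y i - Y 2))) := by
    intro i j hne
    have hφne : φ (Y i - Y 2) ≠ 0 := (map_ne_zero φ).2 hne
    have hφs : φ (X j + Y 2) ≠ 0 := (map_ne_zero φ).2 (hs j)
    have e1 : (X j + Y 2)⁻¹ + (Y i - Y 2)⁻¹ = (X j + Y i) / ((X j + Y 2) * (Y i - Y 2)) := by
      rw [inv_add_inv (hs j) hne]
      congr 1
      ring
    rw [e1, map_div₀, map_mul, div_mul_div_comm, hN j i]
    have e2 : (X j + Y 2) * (Y i - Y 2) * (φ (X j + Y 2) * φ (Y i - Y 2)) =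
        ((X j + Y 2) * φ (X j + Y 2)) * ((Y i - Y 2) * φ (Y i - Y 2)) := by ring
    rw [e2, hN j 2, mul_assoc (algebraMap (ZMod p) (GaloisField p 2) (x j : ZMod p)),
      mul_div_mul_left _ _ (hx0 j)]
  refine circles φ hφ ((Y 0 - Y 2)⁻¹) ((Y 1 - Y 2)⁻¹) _ _ ?_ (fun j => (X j + Y 2)⁻¹) ?_
    (fun j => key 0 j hY02) (fun j => key 1 j hY12)
  · intro h0
    have h1 := inv_injective h0
    have h2 : Y 0 = Y 1 := sub_left_injective h1
    exact absurd (hYinj h2) (by decide)
  · intro i j hij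
    have h1 := inv_injective hij
    exact hXinj (add_right_cancel h1)

/-- the norm graph contains no `K_{3,3}` -/
theorem normG_free : (completeBipartiteGraph (Fin 3) (Fin 3)).Free (normG p) := by
  rintro ⟨f⟩
  have hadj : ∀ i j : Fin 3, (normG p).Adj (f (Sum.inl i)) (f (Sum.inr j)) := by
    intro i j
    exact f.toHom.map_adj (by simp)
  have hb : ∀ i j : Fin 3, (f (Sum.inl i)).1 ≠ (f (Sum.inr j)).1 := fun i j => (hadj i j).1
  have hbl : ∀ i j : Fin 3, (f (Sum.inl i)).1 = (f (Sum.inl j)).1 := by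
    intro i j
    have h1 := hb i 0
    have h2 := hb j 0
    revert h1 h2
    cases (f (Sum.inl i)).1 <;> cases (f (Sum.inl j)).1 <;> cases (f (Sum.inr 0)).1 <;> simp
  have hbr : ∀ i j : Fin 3, (f (Sum.inr i)).1 = (f (Sum.inr j)).1 := by
    intro i j
    have h1 := hb 0 i
    have h2 := hb 0 j
    revert h1 h2
    cases (f (Sum.inr i)).1 <;> cases (f (Sum.inr j)).1 <;> cases (f (Sum.inl 0)).1 <;> simp
  refine norm_no_K33 p (fun i => (f (Sum.inl i)).2.1) (fun j => (f (Sum.inr j)).2.1)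
    (fun i => (f (Sum.inl i)).2.2) (fun j => (f (Sum.inr j)).2.2) ?_ ?_ ?_
  · intro i j hij
    have h1 : f (Sum.inl i) = f (Sum.inl j) := Prod.ext (hbl i j) hij
    exact Sum.inl_injective (f.injective h1)
  · intro i j hij
    have h1 : f (Sum.inr i) = f (Sum.inr j) := Prod.ext (hbr i j) hij
    exact Sum.inr_injective (f.injective h1)
  · intro i j
    exact (hadj i j).2

end

end H152TT
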