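import Mathlib
import Pool.Agent.H152.TT.NormG

set_option autoImplicit false

open Finset

namespace H152TT

theorem card_edges_ge_of {V ι : Type} [Fintype V] [Fintype ι] (G : SimpleGraph V)
    [Fintype G.edgeSet] (f g : ι → V) (hadj : ∀ i, G.Adj (f i) (g i))
    (hinj : ∀ i j, s(f i, g i) = s(f j, g j) → i = j) : Fintype.card ι ≤ G.edgeFinset.card := by
  classical
  have : (univ : Finset ι).card ≤ G.edgeFinset.card := by
    refine Finset.card_le_card_of_injOn (fun i => s(f i, g i)) ?_ ?_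
    · intro i _
      simp only [SimpleGraph.coe_edgeFinset, SimpleGraph.mem_edgeSet]
      exact hadj i
    · intro i _ j _ h
      exact hinj i j h
  rwa [Finset.card_univ] at this

/-- a pattern without isolated vertices found in an embedded graph is in the graph -/
theorem contained_of_map {W V U : Type} (H : SimpleGraph W) (hH : ∀ v, ∃ w, H.Adj v w)
    (G : SimpleGraph V) (e : V ↪ U) (h : H.IsContained (G.map e)) : H.IsContained G := by
  obtain ⟨f⟩ := h
  have hpre : ∀ v, ∃ v', e v' = f v := by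
    intro v
    obtain ⟨w, hw⟩ := hH v
    have h1 : (G.map e).Adj (f v) (f w) := f.toHom.map_adj hw
    rw [SimpleGraph.map_adj] at h1
    obtain ⟨a, b, _, ha, _⟩ := h1
    exact ⟨a, ha⟩
  choose g hg using hpre
  refine ⟨⟨⟨g, ?_⟩, ?_⟩⟩
  · intro v w hvw
    have h1 : (G.map e).Adj (f v) (f w) := f.toHom.map_adj hvw
    rw [SimpleGraph.map_adj] at h1
    obtain ⟨a, b, hab, ha, hb⟩ := h1
    have h2 : a = g v := e.injective (ha.trans (hg v).symm)
    have h3 : b = g w := e.injective (hb.trans (hg w).symm)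
    rw [← h2, ← h3]
    exact hab
  · intro v w hvw
    have h1 : g v = g w := hvw
    apply f.injective
    have h2 : f v = f w := by rw [← hg v, ← hg w, h1]
    exact h2

theorem K33_prime (p N : ℕ) (hp : p.Prime) (hN : 2 * p ^ 3 ≤ N) :
    p ^ 5 ≤ 4 * SimpleGraph.extremalNumber N (completeBipartiteGraph (Fin 3) (Fin 3)) := by
  classical
  haveI : Fact p.Prime := ⟨hp⟩
  have h2 : 2 ≤ p := hp.two_le
  have hcu : Fintype.card (ZMod p)ˣ = p - 1 := by
    rw [ZMod.card_units_eq_totient, Nat.totient_prime hp]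
  have hcard : Fintype.card (NV p) ≤ Fintype.card (Fin N) := by
    rw [Fintype.card_fin, Fintype.card_prod, Fintype.card_prod, Fintype.card_bool, gf_card, hcu]
    refine le_trans ?_ hN
    have : p ^ 2 * (p - 1) ≤ p ^ 2 * p := Nat.mul_le_mul_left _ (by omega)
    calc 2 * (p ^ 2 * (p - 1)) ≤ 2 * (p ^ 2 * p) := Nat.mul_le_mul_left _ this
      _ = 2 * p ^ 3 := by ring
  obtain ⟨e⟩ := Function.Embedding.nonempty_of_card_le hcard
  have hfree : (completeBipartiteGraph (Fin 3) (Fin 3)).Free ((normG p).map e) := by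
    intro hcon
    refine normG_free p (contained_of_map _ ?_ _ e hcon)
    rintro (v | v)
    · exact ⟨Sum.inr 0, by simp⟩
    · exact ⟨Sum.inl 0, by simp⟩
  have hle := SimpleGraph.card_edgeFinset_le_extremalNumber hfree
  rw [Fintype.card_fin] at hle
  -- count the edges
  have hcount : Fintype.card (GaloisField p 2 × (ZMod p)ˣ × {z : GaloisField p 2 // z ≠ 0}) ≤
      ((normG p).map e).edgeFinset.card := by
    have hunit : ∀ z : {z : GaloisField p 2 // z ≠ 0}, Algebra.norm (ZMod p) z.1 ≠ 0 := by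
      intro z h0
      apply z.2
      have h1 := gf_norm p z.1
      rw [h0, map_zero] at h1
      rcases mul_eq_zero.1 h1.symm with h2 | h2
      · exact h2
      · exact (map_eq_zero _).1 h2
    refine card_edges_ge_of ((normG p).map e) (fun t => e (false, t.1, t.2.1))
      (fun t => e (true, t.2.2.1 - t.1, (t.2.1)⁻¹ * Units.mk0 _ (hunit t.2.2))) ?_ ?_
    · intro t
      rw [SimpleGraph.map_adj]
      refine ⟨_, _, ⟨by simp, ?_⟩, rfl, rfl⟩
      simp only [add_sub_cancel, mul_inv_cancel_left, Units.val_mk0]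
    · intro t t' h
      rw [Sym2.eq_iff] at h
      rcases h with ⟨h3, h4⟩ | ⟨h3, h4⟩
      · have h5 := e.injective h3
        have h6 := e.injective h4
        simp only [Prod.mk.injEq, true_and] at h5 h6
        obtain ⟨t1, t2, t3⟩ := t
        obtain ⟨s1, s2, s3⟩ := t'
        simp only at h5 h6 ⊢
        obtain ⟨rfl, rfl⟩ := h5
        have h7 : t3.1 = s3.1 := sub_left_injective h6.1
        have h8 : t3 = s3 := Subtype.ext h7
        rw [h8]
      · have h5 := e.injective h3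
        simp at h5
  have hc3 : Fintype.card {z : GaloisField p 2 // z ≠ 0} = p ^ 2 - 1 := by
    rw [Fintype.card_subtype_compl, gf_card]
    simp
  rw [Fintype.card_prod, Fintype.card_prod, gf_card, hcu, hc3] at hcount
  have h3 : p ≤ 2 * (p - 1) := by omega
  have h4 : p ^ 2 ≤ 2 * (p ^ 2 - 1) := by
    have : 4 ≤ p ^ 2 := by nlinarith
    omega
  calc p ^ 5 = p ^ 2 * (p * p ^ 2) := by ring
    _ ≤ p ^ 2 * ((2 * (p - 1)) * (2 * (p ^ 2 - 1))) :=
        Nat.mul_le_mul_left _ (Nat.mul_le_mul h3 h4)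
    _ = 4 * (p ^ 2 * ((p - 1) * (p ^ 2 - 1))) := by ring
    _ ≤ 4 * ((normG p).map e).edgeFinset.card := Nat.mul_le_mul_left _ hcount
    _ ≤ _ := Nat.mul_le_mul_left _ (by convert! hle)

/-- from primes to all `n`, with a constant -/
theorem transferC (m j C : ℕ) (hC : 1 ≤ C) (g : ℕ → ℕ)
    (h : ∀ q N : ℕ, q.Prime → 2 * q ^ (m + 1) ≤ N → q ^ j ≤ C * g N) :
    ∃ c : ℝ, 0 < c ∧ ∃ N0 : ℕ, ∀ n : ℕ, N0 ≤ n →
      c * (n : ℝ) ^ ((j : ℝ) / ((m : ℝ) + 1)) ≤ (g n : ℝ) := by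
  have hC0 : (0 : ℝ) < C := by exact_mod_cast hC
  refine ⟨(1 / 2 ^ (m + 2) : ℝ) ^ ((j : ℝ) / ((m : ℝ) + 1)) / C, by positivity,
    2 * 4 ^ (m + 1), ?_⟩
  intro n hn
  obtain ⟨t, ht⟩ : ∃ t : ℕ, t = Nat.findGreatest (fun t => 2 * (2 * t) ^ (m + 1) ≤ n) n := ⟨_, rfl⟩
  have hPz : 2 * (2 * 2) ^ (m + 1) ≤ n := by simpa using hn
  have h2n : 2 ≤ n := by
    have : 1 ≤ (2 * 2) ^ (m + 1) := Nat.one_le_pow _ _ (by norm_num)
    omega
  have ht2 : 2 ≤ t := by
    rw [ht]
    exact Nat.le_findGreatest h2n hPz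
  have ht1 : 2 * (2 * t) ^ (m + 1) ≤ n := by
    rw [ht]
    exact Nat.findGreatest_spec (P := fun t => 2 * (2 * t) ^ (m + 1) ≤ n) h2n hPz
  have htn : n < 2 * (2 * (t + 1)) ^ (m + 1) := by
    by_contra hcon
    have h1 : 2 * (2 * (t + 1)) ^ (m + 1) ≤ n := not_lt.1 hcon
    have h2 : t + 1 ≤ n := by
      have h3 : 2 * (t + 1) ≤ (2 * (t + 1)) ^ (m + 1) := Nat.le_self_pow (by omega) _
      omega
    have h4 := Nat.le_findGreatest (P := fun t => 2 * (2 * t) ^ (m + 1) ≤ n) h2 h1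
    rw [← ht] at h4
    omega
  obtain ⟨q, hq, h1, h2⟩ := Nat.exists_prime_lt_and_le_two_mul t (by omega)
  have h3 : 2 * q ^ (m + 1) ≤ n := by
    refine le_trans ?_ ht1
    exact Nat.mul_le_mul_left _ (Nat.pow_le_pow_left h2 _)
  have h4 := h q n hq h3
  have h5 : n ≤ 2 ^ (m + 2) * q ^ (m + 1) := by
    refine htn.le.trans ?_
    rw [mul_pow]
    have : (t + 1) ^ (m + 1) ≤ q ^ (m + 1) := Nat.pow_le_pow_left h1 _
    calc 2 * (2 ^ (m + 1) * (t + 1) ^ (m + 1)) = 2 ^ (m + 2) * (t + 1) ^ (m + 1) := by ring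
      _ ≤ _ := Nat.mul_le_mul_left _ this
  have h5R : (n : ℝ) ≤ 2 ^ (m + 2) * (q : ℝ) ^ (m + 1) := by exact_mod_cast h5
  have h6 : (1 / 2 ^ (m + 2) : ℝ) * (n : ℝ) ≤ (q : ℝ) ^ (m + 1) := by
    rw [div_mul_eq_mul_div, one_mul, div_le_iff₀ (by positivity)]
    linarith
  have hm1 : (0 : ℝ) < (m : ℝ) + 1 := by positivity
  have hq0 : (0 : ℝ) ≤ (q : ℝ) := Nat.cast_nonneg _
  rw [div_mul_eq_mul_div, div_le_iff₀ hC0, ← Real.mul_rpow (by positivity) (Nat.cast_nonneg _)]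
  calc ((1 / 2 ^ (m + 2) : ℝ) * (n : ℝ)) ^ ((j : ℝ) / ((m : ℝ) + 1)) ≤
        ((q : ℝ) ^ (m + 1)) ^ ((j : ℝ) / ((m : ℝ) + 1)) :=
        Real.rpow_le_rpow (by positivity) h6 (by positivity)
    _ = (q : ℝ) ^ j := by
        rw [← Real.rpow_natCast (q : ℝ) (m+1), ← Real.rpow_mul hq0, ← Real.rpow_natCast (q : ℝ) j]
        congr 1
        push_cast
        field_simp
    _ ≤ (C : ℝ) * (g n : ℝ) := by exact_mod_cast h4
    _ = (g n : ℝ) * C := by ring

theorem ex_lower_K33 :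
    ∃ c : ℝ, 0 < c ∧ ∃ N0 : ℕ, ∀ n : ℕ, N0 ≤ n → c * (n : ℝ) ^ ((5 : ℝ) / 3) ≤
      (SimpleGraph.extremalNumber n (completeBipartiteGraph (Fin 3) (Fin 3)) : ℝ) := by
  obtain ⟨c, hc, N0, h⟩ := transferC 2 5 4 (by norm_num)
    (fun N => SimpleGraph.extremalNumber N (completeBipartiteGraph (Fin 3) (Fin 3)))
    (fun q N hq hN => K33_prime q N hq hN)
  refine ⟨c, hc, N0, fun n hn => ?_⟩
  have := h n hn
  norm_num at this ⊢
  exact this

end H152TT
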